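import Pool.Agent.F3.HB.Spec

/-!
# Project F3, block HB, row V1: values of the invariants
-/

set_option autoImplicit false

namespace F3.HB

open Finset NW F1 F3

private theorem va_gam {V : Type} [Fintype V] [DecidableEq V] (χ : V → Bool) (u v : V) :
    gam χ s(u, v) = if χ u = χ v then 2 else -1 := by
  unfold gam Int
  by_cases h : χ u = χ v
  · rw [if_pos h, if_pos]
    intro a ha b hb
    rw [Sym2.mem_iff] at ha hb
    rcases ha with rfl | rfl <;> rcases hb with rfl | rfl <;> simp [h]
  · rw [if_neg h, if_neg]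
    intro h1
    exact h (h1 u (Sym2.mem_mk_left _ _) v (Sym2.mem_mk_right _ _))

private theorem va_deg {V : Type} [Fintype V] [DecidableEq V] (D : Finset (Sym2 V)) (v : V) :
    NW.deg D v = ∑ e ∈ D, if v ∈ e then 1 else 0 := by
  rw [← Finset.card_filter]
  have h : D.filter (fun e => v ∈ e) = (nbr D v).image (fun u => s(v, u)) := by
    ext e
    simp only [Finset.mem_filter, Finset.mem_image, mem_nbr]
    constructor
    · rintro ⟨h1, h2⟩
      obtain ⟨u, rfl⟩ := h2
      exact ⟨u, h1, rfl⟩
    · rintro ⟨u, h1, rfl⟩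
      exact ⟨h1, Sym2.mem_mk_left v u⟩
  rw [h, Finset.card_image_of_injective, NW.deg]
  intro a b hab
  exact (Sym2.congr_right.1 hab)

/-- the parity of the sum of the weights -/
private theorem va_even {V : Type} [Fintype V] [DecidableEq V] (χ : V → Bool)
    {D : Finset (Sym2 V)} (hD : NW.Divis D) : (2 : ℤ) ∣ ∑ e ∈ D, gam χ e := by
  have h1 : ∀ e ∈ D, (2 : ℤ) ∣ gam χ e + ((∑ v : V, if χ v = true ∧ v ∈ e then 1 else 0 : ℕ) : ℤ) := by
    intro e he
    have hd := hD.1 e he
    induction e using Sym2.ind with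
    | _ a b =>
      have hab : a ≠ b := fun h => hd (by rw [h]; exact Sym2.mk_isDiag_iff.2 rfl)
      have h2 : (∑ v : V, if χ v = true ∧ v ∈ s(a, b) then 1 else 0 : ℕ) =
          (if χ a = true then 1 else 0) + (if χ b = true then 1 else 0) := by
        have h3 : ∀ v : V, (if χ v = true ∧ v ∈ s(a, b) then 1 else 0 : ℕ) =
            (if v = a then (if χ a = true then 1 else 0) else 0) +
            (if v = b then (if χ b = true then 1 else 0) else 0) := by
          intro v
          by_cases hva : v = a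
          · subst hva
            simp [hab]
          · by_cases hvb : v = b
            · subst hvb
              simp [hva]
            · simp [Sym2.mem_iff, hva, hvb]
        rw [Finset.sum_congr rfl fun v _ => h3 v, Finset.sum_add_distrib]
        simp
      rw [h2, va_gam]
      cases χ a <;> cases χ b <;> simp
  have h2 : (2 : ℤ) ∣ ∑ e ∈ D, (gam χ e +
      ((∑ v : V, if χ v = true ∧ v ∈ e then 1 else 0 : ℕ) : ℤ)) := Finset.dvd_sum h1
  rw [Finset.sum_add_distrib] at h2
  have h3 : (2 : ℤ) ∣ ∑ e ∈ D, ((∑ v : V, if χ v = true ∧ v ∈ e then 1 else 0 : ℕ) : ℤ) := by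
    have h4 : ∑ e ∈ D, ((∑ v : V, if χ v = true ∧ v ∈ e then 1 else 0 : ℕ) : ℤ) =
        ∑ v : V, if χ v = true then ((NW.deg D v : ℕ) : ℤ) else 0 := by
      push_cast
      rw [Finset.sum_comm]
      refine Finset.sum_congr rfl fun v _ => ?_
      by_cases hv : χ v = true
      · rw [if_pos hv, va_deg]
        push_cast
        exact Finset.sum_congr rfl fun e _ => by simp [hv]
      · rw [if_neg hv]
        exact Finset.sum_eq_zero fun e _ => by simp [hv]
    rw [h4]
    refine Finset.dvd_sum fun v _ => ?_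
    split_ifs
    · exact_mod_cast (hD.2.1 v).two_dvd
    · exact dvd_zero _
  exact (dvd_add_left h3).1 h2

/-- the sum of the weights modulo 3 -/
private theorem va_three {V : Type} [Fintype V] [DecidableEq V] (χ : V → Bool)
    {D : Finset (Sym2 V)} (hD : NW.Divis D) : (3 : ℤ) ∣ ∑ e ∈ D, gam χ e := by
  have h1 : ∀ e ∈ D, (3 : ℤ) ∣ gam χ e - 2 := by
    intro e _
    unfold gam
    split_ifs <;> norm_num
  have h2 : (3 : ℤ) ∣ ∑ e ∈ D, (gam χ e - 2) := Finset.dvd_sum h1
  rw [Finset.sum_sub_distrib, Finset.sum_const, nsmul_eq_mul] at h2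
  have h3 : (3 : ℤ) ∣ (D.card : ℤ) * 2 := Dvd.dvd.mul_right (by exact_mod_cast hD.2.2) 2
  have h4 := dvd_add h2 h3
  rwa [sub_add_cancel] at h4

private theorem va_six {V : Type} [Fintype V] [DecidableEq V] (χ : V → Bool)
    {D : Finset (Sym2 V)} (hD : NW.Divis D) : 6 ∣ ∑ e ∈ D, gam χ e := by
  have h2 := va_even χ hD
  have h3 := va_three χ hD
  omega

/-- the sum over the edges of a triangle -/
private theorem va_sum {V : Type} [DecidableEq V] {M : Type*} [AddCommMonoid M]
    (f : Sym2 V → M) {a b c : V} (hab : a ≠ b) (hbc : b ≠ c) (hac : a ≠ c) :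
    ∑ e ∈ NW.edg ({a, b, c} : Finset V), f e = f s(a, b) + f s(b, c) + f s(a, c) := by
  rw [NW.edg_triple hab hbc hac]
  unfold NW.tri
  rw [Finset.sum_insert, Finset.sum_insert, Finset.sum_singleton, add_assoc]
  · rw [Finset.mem_singleton, Sym2.eq_iff]
    rintro (⟨h, -⟩ | ⟨h, -⟩)
    · exact hab h.symm
    · exact hbc h
  · rw [Finset.mem_insert, Finset.mem_singleton, Sym2.eq_iff, Sym2.eq_iff]
    rintro ((⟨h, -⟩ | ⟨h, -⟩) | (⟨-, h⟩ | ⟨-, h⟩))
    · exact hab h
    · exact hac h
    · exact hbc h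
    · exact hab h.symm

private theorem va_cro {V : Type} [Fintype V] [DecidableEq V] (χ : V → Bool) (T : Tri V)
    (hT : Cro χ T) : ∑ e ∈ NW.edg T.1, gam χ e = 0 := by
  obtain ⟨a, b, c, hab, hac, hbc, h⟩ := Finset.card_eq_three.1 T.2
  unfold Cro at hT
  rw [h] at hT ⊢
  rw [va_sum _ hab hbc hac, va_gam, va_gam, va_gam]
  have h1 : ¬ (χ a = χ b ∧ χ b = χ c) := by
    rintro ⟨h1, h2⟩
    obtain ⟨u, hu, v, hv, huv⟩ := hT
    simp only [Finset.mem_insert, Finset.mem_singleton] at hu hv
    apply huv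
    rcases hu with rfl | rfl | rfl <;> rcases hv with rfl | rfl | rfl <;> simp [h1, h2]
  revert h1
  cases χ a <;> cases χ b <;> cases χ c <;> simp

theorem valA : ValAStatement := by
  intro V _ _
  refine ⟨fun χ D hD => va_six χ hD, fun χ T hT => va_cro χ T hT, ?_, ?_⟩
  · intro sd pt T hT
    refine ⟨va_cro sd T hT.1, va_cro pt T ?_⟩
    obtain ⟨a, b, c, hab, hac, hbc, h⟩ := Finset.card_eq_three.1 T.2
    obtain ⟨-, h2⟩ := hT
    unfold Cro
    rw [h] at h2 ⊢
    have h3 : ∀ u ∈ ({a, b, c} : Finset V), ∀ v ∈ ({a, b, c} : Finset V), u ≠ v →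
        (sd u ≠ sd v ∨ pt u ≠ pt v) := by
      intro u hu v hv huv
      have h4 := h2 u hu v hv huv
      unfold Co CoP at h4
      simpa using h4
    by_contra hcon
    push Not at hcon
    have ha : a ∈ ({a, b, c} : Finset V) := by simp
    have hb : b ∈ ({a, b, c} : Finset V) := by simp
    have hc : c ∈ ({a, b, c} : Finset V) := by simp
    have e1 := (h3 a ha b hb hab).resolve_right (fun h => h (hcon a ha b hb))
    have e2 := (h3 b hb c hc hbc).resolve_right (fun h => h (hcon b hb c hc))
    have e3 := (h3 a ha c hc hac).resolve_right (fun h => h (hcon a ha c hc))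
    revert e1 e2 e3
    cases sd a <;> cases sd b <;> cases sd c <;> simp
  · intro De sd T hDe hT
    rcases hT with ⟨h1, h2⟩ | ⟨h1, h2⟩
    · rw [← va_cro sd T h1]
      refine Finset.sum_congr rfl fun e he => ?_
      unfold gamX
      rw [if_neg (Finset.disjoint_left.1 h2 he)]
    · have hall : ∀ e ∈ NW.edg T.1, gam sd e = 2 := by
        intro e he
        unfold gam
        rw [if_pos]
        intro u hu v hv
        by_contra huv
        exact h1 ⟨u, (NW.mem_edg.1 he).1 u hu, v, (NW.mem_edg.1 he).1 v hv, huv⟩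
      have hcard : (NW.edg T.1).card = 3 := by
        obtain ⟨a, b, c, hab, hac, hbc, h⟩ := Finset.card_eq_three.1 T.2
        rw [h, Finset.card_eq_sum_ones, va_sum _ hab hbc hac]
      have h3 : ∀ e ∈ NW.edg T.1, gamX De sd e = 2 + if e ∈ De then -6 else 0 := by
        intro e he
        unfold gamX
        rw [hall e he]
        split_ifs <;> norm_num
      rw [Finset.sum_congr rfl h3, Finset.sum_add_distrib, Finset.sum_const, hcard,
        ← Finset.sum_filter, Finset.sum_const, Finset.filter_mem_eq_inter, h2]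
      norm_num

end F3.HB
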