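import Pool.Agent.F3.HB.Spec

/-!
# Project F3, block HB, row HB-F: from the worlds to the frames
-/

set_option autoImplicit false
set_option linter.unusedSectionVars false

namespace F3.HB

open Finset NW F1 F3

section

variable {V : Type} [Fintype V] [DecidableEq V]

/-- `u` misses few vertices of `S`, `v` has many neighbours in `S` -/
theorem hbf_cod {H : Finset (Sym2 V)} {u v : V} {S M : Finset V} {a : ℝ}
    (h1 : a * nn V ≤ ((nbr H v ∩ S).card : ℝ)) (hM : ∀ w ∈ S, s(u, w) ∉ H → w ∈ M)
    (h2 : (M.card : ℝ) ≤ nn V / 1000) :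
    a * nn V - nn V / 1000 ≤ ((nbr H u ∩ nbr H v).card : ℝ) := by
  have h3 : nbr H v ∩ S ⊆ (nbr H u ∩ nbr H v) ∪ M := by
    intro w hw
    rw [mem_inter] at hw
    rw [mem_union, mem_inter]
    by_cases h : s(u, w) ∈ H
    · exact Or.inl ⟨mem_nbr.2 h, hw.1⟩
    · exact Or.inr (hM w hw.2 h)
  have h4 : ((nbr H v ∩ S).card : ℝ) ≤ ((nbr H u ∩ nbr H v).card : ℝ) + (M.card : ℝ) := by
    exact_mod_cast (card_le_card h3).trans (card_union_le _ _)
  linarith

theorem hbf_nn (h : 1000 ≤ Fintype.card V) : (1000 : ℝ) ≤ nn V := by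
  unfold nn; exact_mod_cast h

theorem hbf_N {H : Finset (Sym2 V)} (hn : (1000 : ℝ) ≤ nn V) {θ : ℝ} (h : RobN H θ) :
    FC H ∅ where
  nl := h.nl
  At_card := by rw [card_empty]; push_cast; linarith
  deg v := by
    have h1 := h.three v v v
    rw [inter_self, inter_self] at h1
    linarith
  cod u v _ := by
    have h1 := h.three u v v
    rw [inter_assoc, inter_self] at h1
    linarith

theorem hbf_bool {a b : Bool} (h : a ≠ b) : a = !b := by
  cases a <;> cases b <;> simp_all

theorem hbf_G {H : Finset (Sym2 V)} (hn : (1000 : ℝ) ≤ nn V) {sd : V → Bool} {At : Finset V}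
    {ε θ : ℝ} (hε : ε ≤ 1 / 1000) (h : RobG H sd At ε θ) : FG H sd At ∧ FC H At := by
  have hg : FG H sd At :=
    { nl := h.nl
      side := fun b => (h.side b).trans (by nlinarith)
      At_card := h.At_card.trans (by nlinarith)
      noAt := h.noAt
      miss := fun v hv => (h.miss v hv).trans (by nlinarith)
      cross := fun v => le_trans (by nlinarith) (h.cross v)
      int := fun v => le_trans (by nlinarith) (h.int v) }
  refine ⟨hg, ⟨h.nl, hg.At_card, fun v => ?_, fun u v hu => ?_⟩⟩
  · have h1 := hg.cross v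
    have h2 : ((nbr H v ∩ Sd sd (!sd v)).card : ℝ) ≤ ((nbr H v).card : ℝ) := by
      exact_mod_cast card_le_card inter_subset_left
    linarith
  · have hm := hg.miss u hu
    have hM : ∀ w ∈ Sd sd (!sd u), s(u, w) ∉ H →
        w ∈ (Sd sd (!sd u)).filter (fun w => s(u, w) ∉ H) := fun w hw hw2 =>
      mem_filter.2 ⟨hw, hw2⟩
    by_cases huv : sd v = sd u
    · have h1 := hg.cross v
      rw [huv] at h1
      have h2 := hbf_cod h1 hM hm
      linarith
    · have h1 : 1 / 5 * nn V ≤ ((nbr H v ∩ Sd sd (!sd u)).card : ℝ) := by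
        have h3 := hg.int v
        rw [hbf_bool huv] at h3
        linarith
      have h2 := hbf_cod h1 hM hm
      linarith

theorem hbf_R {H : Finset (Sym2 V)} (hn : (1000 : ℝ) ≤ nn V) {fl : Bool → Bool}
    {sd pt : V → Bool} {At : Finset V} {ε : ℝ} (hε : ε ≤ 1 / 1000)
    (h : RobR H fl sd pt At ε) : FR H fl sd pt At ∧ FC H At := by
  have hr : FR H fl sd pt At :=
    { nl := h.nl
      part := fun b c => (h.part b c).trans (by nlinarith)
      At_card := h.At_card.trans (by nlinarith)
      noAt := h.noAt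
      miss := fun v hv => (h.miss v hv).trans (by nlinarith)
      deg := fun v b c hc => le_trans (by nlinarith) (h.deg v b c hc) }
  refine ⟨hr, ⟨h.nl, hr.At_card, fun v => ?_, fun u v hu => ?_⟩⟩
  · have h1 := hr.deg v (!sd v) true (Or.inl (by cases sd v <;> simp))
    have h2 : ((nbr H v ∩ Pa sd pt (!sd v) true).card : ℝ) ≤ ((nbr H v).card : ℝ) := by
      exact_mod_cast card_le_card inter_subset_left
    linarith
  · have hm := hr.miss u hu
    obtain ⟨c, hc⟩ : ∃ c, CoP fl sd pt v (!sd u) c := by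
      by_cases huv : sd v = !sd u
      · by_cases hf : fl (!sd u) = true
        · exact ⟨pt v, Or.inr (by rw [if_pos hf])⟩
        · exact ⟨!pt v, Or.inr (by rw [if_neg hf]; cases pt v <;> simp)⟩
      · exact ⟨true, Or.inl huv⟩
    have h1 : 1 / 10 * nn V ≤ ((nbr H v ∩ Pa sd pt (!sd u) c).card : ℝ) := by
      have h3 := hr.deg v (!sd u) c hc
      linarith
    have hM : ∀ w ∈ Pa sd pt (!sd u) c, s(u, w) ∉ H →
        w ∈ univ.filter (fun w => Co fl sd pt u w ∧ s(u, w) ∉ H) := by
      intro w hw hw2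
      have hw3 := (mem_filter.1 hw).2.1
      refine mem_filter.2 ⟨mem_univ _, ?_, hw2⟩
      refine Or.inl ?_
      rw [hw3]
      cases sd u <;> simp
    have h2 := hbf_cod h1 hM hm
    linarith

end

theorem frame : FrameStatement := by
  intro V _ _ H hn
  have hn' := hbf_nn hn
  exact ⟨fun θ h => hbf_N hn' h, fun sd At ε θ hε h => hbf_G hn' hε h,
    fun fl sd pt At ε hε h => hbf_R hn' hε h⟩

end F3.HB
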