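import Pool.Agent.F3.HB.Spec

/-!
# Project F3, block HB, row K0: hexagons
-/

set_option autoImplicit false
set_option linter.unusedSectionVars false

namespace F3.HB

open Finset NW F1 F3

section

variable {V : Type} [Fintype V] [DecidableEq V]

theorem hx_inj {v : Fin 6 → V} (hv : Function.Injective v) :
    Function.Injective (fun i : Fin 6 => s(v i, v (i + 1))) := by
  intro i j h
  have h' : s(v i, v (i + 1)) = s(v j, v (j + 1)) := h
  rw [Sym2.eq_iff] at h'
  rcases h' with ⟨h1, -⟩ | ⟨h1, h2⟩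
  · exact hv h1
  · have a1 := hv h1
    have a2 := hv h2
    have key : ∀ i j : Fin 6, i = j + 1 → i + 1 = j → i = j := by decide
    exact key i j a1 a2

theorem hx_nbr_out {v : Fin 6 → V} {u : V} (hu : ∀ i, u ≠ v i) :
    nbr (univ.image (fun i : Fin 6 => s(v i, v (i + 1)))) u = ∅ := by
  rw [Finset.eq_empty_iff_forall_notMem]
  intro w hw
  rw [mem_nbr, Finset.mem_image] at hw
  obtain ⟨i, -, h⟩ := hw
  rw [Sym2.eq_iff] at h
  rcases h with ⟨h1, -⟩ | ⟨-, h2⟩
  · exact hu _ h1.symm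
  · exact hu _ h2.symm

theorem hx_nbr_in {v : Fin 6 → V} (hv : Function.Injective v) (i : Fin 6) :
    nbr (univ.image (fun i : Fin 6 => s(v i, v (i + 1)))) (v i) = {v (i + 1), v (i + 5)} := by
  have k1 : ∀ i j : Fin 6, j + 1 = i → j = i + 5 := by decide
  have k2 : ∀ i : Fin 6, i + 5 + 1 = i := by decide
  ext w
  rw [mem_nbr, Finset.mem_image, Finset.mem_insert, Finset.mem_singleton]
  constructor
  · rintro ⟨j, -, h⟩
    rw [Sym2.eq_iff] at h
    rcases h with ⟨h1, h2⟩ | ⟨h1, h2⟩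
    · left
      rw [← h2, hv h1]
    · right
      rw [← h1, k1 i j (hv h2)]
  · rintro (h | h)
    · exact ⟨i, Finset.mem_univ _, by rw [h]⟩
    · refine ⟨i + 5, Finset.mem_univ _, ?_⟩
      rw [k2, h]
      exact Sym2.eq_swap

theorem hx_deg {v : Fin 6 → V} (hv : Function.Injective v) (u : V) :
    Even (NW.deg (univ.image (fun i : Fin 6 => s(v i, v (i + 1)))) u) := by
  unfold NW.deg
  by_cases h : ∃ i, u = v i
  · obtain ⟨i, rfl⟩ := h
    rw [hx_nbr_in hv, Finset.card_pair]
    · exact even_two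
    · intro h
      have k : ∀ i : Fin 6, i + 1 ≠ i + 5 := by decide
      exact k i (hv h)
  · push Not at h
    rw [hx_nbr_out h]
    exact ⟨0, rfl⟩

end

theorem hex : HexStatement := by
  intro V _ _ v hv
  have hc : (univ.image (fun i : Fin 6 => s(v i, v (i + 1)))).card = 6 := by
    rw [Finset.card_image_of_injective _ (hx_inj hv), Finset.card_univ, Fintype.card_fin]
  refine ⟨⟨?_, hx_deg hv, ?_⟩, hc, ?_, ?_⟩
  · intro e he hd
    rw [Finset.mem_image] at he
    obtain ⟨i, -, rfl⟩ := he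
    rw [Sym2.mk_isDiag_iff] at hd
    have k : ∀ i : Fin 6, i ≠ i + 1 := by decide
    exact k i (hv hd)
  · rw [hc]
    exact ⟨2, rfl⟩
  · intro M _ f
    exact Finset.sum_image fun i _ j _ h => hx_inj hv h
  · intro u hu
    unfold F2.O.vE at hu
    rw [Finset.mem_filter] at hu
    obtain ⟨-, e, he, hue⟩ := hu
    rw [Finset.mem_image] at he
    obtain ⟨i, -, rfl⟩ := he
    rcases Sym2.mem_iff.mp hue with h | h
    · exact ⟨i, h⟩
    · exact ⟨i + 1, h⟩

end F3.HB
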