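import Pool.Agent.F3.HB.Spec

/-!
# Project F3, row HB-KG: hexagons with prescribed sides
-/

set_option autoImplicit false
set_option linter.unusedSectionVars false

namespace F3.HB

open Finset NW F1 F3

section HexG

variable {V : Type} [Fintype V] [DecidableEq V]

theorem hexG_nbrcard (Z : Finset (Sym2 V)) (v : V) : (nbr Z v).card ≤ NW.deg Z v := le_rfl

theorem hexG_pick {n : ℝ} (hn : 0 < n) (A B1 B2 B3 B4 B5 B6 : Finset V)
    (hA : n / 5 ≤ (A.card : ℝ)) (h1 : (B1.card : ℝ) ≤ n / 1000) (h2 : (B2.card : ℝ) ≤ n / 1000)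
    (h3 : (B3.card : ℝ) ≤ n / 1000) (h4 : (B4.card : ℝ) ≤ n / 1000)
    (h5 : (B5.card : ℝ) ≤ n / 1000) (h6 : (B6.card : ℝ) ≤ n / 1000) :
    ∃ w ∈ A, w ∉ B1 ∧ w ∉ B2 ∧ w ∉ B3 ∧ w ∉ B4 ∧ w ∉ B5 ∧ w ∉ B6 := by
  by_contra hcon
  push Not at hcon
  have hsub : A ⊆ B1 ∪ (B2 ∪ (B3 ∪ (B4 ∪ (B5 ∪ B6)))) := by
    intro w hw
    simp only [Finset.mem_union]
    by_contra hno
    push Not at hno
    exact hno.2.2.2.2.2 (hcon w hw hno.1 hno.2.1 hno.2.2.1 hno.2.2.2.1 hno.2.2.2.2.1)
  have hc : A.card ≤ B1.card + (B2.card + (B3.card + (B4.card + (B5.card + B6.card)))) := by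
    refine (Finset.card_le_card hsub).trans ?_
    refine (Finset.card_union_le _ _).trans (Nat.add_le_add_left ?_ _)
    refine (Finset.card_union_le _ _).trans (Nat.add_le_add_left ?_ _)
    refine (Finset.card_union_le _ _).trans (Nat.add_le_add_left ?_ _)
    refine (Finset.card_union_le _ _).trans (Nat.add_le_add_left ?_ _)
    exact Finset.card_union_le _ _
  have hc' : (A.card : ℝ) ≤ B1.card + (B2.card + (B3.card + (B4.card + (B5.card + B6.card)))) := by
    exact_mod_cast hc
  linarith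

theorem hexG_side {H : Finset (Sym2 V)} {sd : V → Bool} {At : Finset V} (h : FG H sd At)
    (u : V) (c : Bool) : nn V / 5 ≤ ((nbr H u ∩ Sd sd c).card : ℝ) := by
  by_cases hc : c = sd u
  · rw [hc]
    exact h.int u
  · have hc' : c = !sd u := by
      cases c <;> cases hs : sd u <;> simp_all
    rw [hc']
    have h0 : (0 : ℝ) ≤ nn V := by unfold nn; positivity
    have := h.cross u
    linarith

theorem hexG_Sd {H : Finset (Sym2 V)} {sd : V → Bool} {At : Finset V} (h : FG H sd At)
    (c : Bool) : nn V / 5 ≤ ((Sd sd c).card : ℝ) := by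
  have h1 : (Sd sd c).card + (Sd sd (!c)).card = Fintype.card V := by
    have hd : Disjoint (Sd sd c) (Sd sd (!c)) := by
      rw [Finset.disjoint_left]
      intro v hv hv'
      simp only [Sd, Finset.mem_filter, Finset.mem_univ, true_and] at hv hv'
      rw [hv] at hv'
      cases c <;> simp at hv'
    rw [← Finset.card_union_of_disjoint hd, ← Finset.card_univ]
    congr 1
    ext v
    simp only [Sd, Finset.mem_union, Finset.mem_filter, Finset.mem_univ, true_and, iff_true]
    cases c <;> cases sd v <;> simp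
  have h2 : ((Sd sd c).card : ℝ) + ((Sd sd (!c)).card : ℝ) = nn V := by
    unfold nn
    exact_mod_cast h1
  have h0 : (0 : ℝ) ≤ nn V := by unfold nn; positivity
  have := h.side (!c)
  linarith

/-- one step of the greedy choice -/
theorem hexG_step {H Z : Finset (Sym2 V)} {sd : V → Bool} {At F : Finset V} (h : FG H sd At)
    (hn : 10000 ≤ Fintype.card V) (hZ : Sm (1 / 1000) Z) (hF : SmF (1 / 1000) F)
    (u : V) (c : Bool) (U : Finset V) (hU : U.card ≤ 10) :
    ∃ w, w ∉ At ∧ w ∉ F ∧ sd w = c ∧ w ∉ U ∧ s(u, w) ∈ H \ Z := by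
  have hn' : (10000 : ℝ) ≤ nn V := by
    unfold nn
    exact_mod_cast hn
  have hU' : (U.card : ℝ) ≤ nn V / 1000 := by
    have : (U.card : ℝ) ≤ 10 := by exact_mod_cast hU
    linarith
  have hZu : ((nbr Z u).card : ℝ) ≤ nn V / 1000 := by
    have h1 : ((nbr Z u).card : ℝ) ≤ (NW.deg Z u : ℝ) := by exact_mod_cast hexG_nbrcard Z u
    have h2 := hZ u
    linarith
  have hF' : (F.card : ℝ) ≤ nn V / 1000 := by
    have := hF
    unfold SmF at this
    linarith
  have he : (((∅ : Finset V).card : ℕ) : ℝ) ≤ nn V / 1000 := by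
    simp
    linarith
  obtain ⟨w, hw, h1, h2, h3, h4, _, _⟩ := hexG_pick (n := nn V) (by linarith)
    (nbr H u ∩ Sd sd c) At F (nbr Z u) U ∅ ∅ (hexG_side h u c) h.At_card hF' hZu hU' he he
  have hw1 : s(u, w) ∈ H := by
    have := (Finset.mem_inter.1 hw).1
    simpa [nbr] using this
  have hw2 : sd w = c := by
    have := (Finset.mem_inter.1 hw).2
    simpa [Sd] using this
  have hw3 : s(u, w) ∉ Z := by
    intro hc
    exact h3 (by simpa [nbr] using hc)
  exact ⟨w, h1, h2, hw2, h4, Finset.mem_sdiff.2 ⟨hw1, hw3⟩⟩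

/-- the last step: the new vertex is also adjacent to a typical vertex of the other side -/
theorem hexG_last {H Z : Finset (Sym2 V)} {sd : V → Bool} {At F : Finset V} (h : FG H sd At)
    (hn : 10000 ≤ Fintype.card V) (hZ : Sm (1 / 1000) Z) (hF : SmF (1 / 1000) F)
    (u x : V) (hx : x ∉ At) (U : Finset V) (hU : U.card ≤ 10) :
    ∃ w, w ∉ F ∧ sd w = !sd x ∧ w ∉ U ∧ s(u, w) ∈ H \ Z ∧ s(w, x) ∈ H \ Z := by
  have hn' : (10000 : ℝ) ≤ nn V := by
    unfold nn
    exact_mod_cast hn
  have hU' : (U.card : ℝ) ≤ nn V / 1000 := by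
    have : (U.card : ℝ) ≤ 10 := by exact_mod_cast hU
    linarith
  have hZu : ∀ a, ((nbr Z a).card : ℝ) ≤ nn V / 1000 := by
    intro a
    have h1 : ((nbr Z a).card : ℝ) ≤ (NW.deg Z a : ℝ) := by exact_mod_cast hexG_nbrcard Z a
    have h2 := hZ a
    linarith
  have hF' : (F.card : ℝ) ≤ nn V / 1000 := by
    have := hF
    unfold SmF at this
    linarith
  have he : (((∅ : Finset V).card : ℕ) : ℝ) ≤ nn V / 1000 := by
    simp
    linarith
  obtain ⟨w, hw, h1, h2, h3, h4, h5, _⟩ := hexG_pick (n := nn V) (by linarith)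
    (nbr H u ∩ Sd sd (!sd x)) F (nbr Z u) (nbr Z x) U
    ((Sd sd (!sd x)).filter (fun w => s(x, w) ∉ H)) ∅
    (hexG_side h u (!sd x)) hF' (hZu u) (hZu x) hU' (h.miss x hx) he
  have hw1 : s(u, w) ∈ H := by
    have := (Finset.mem_inter.1 hw).1
    simpa [nbr] using this
  have hw2 : sd w = !sd x := by
    have := (Finset.mem_inter.1 hw).2
    simpa [Sd] using this
  have hw3 : s(u, w) ∉ Z := by
    intro hc
    exact h2 (by simpa [nbr] using hc)
  have hw4 : s(x, w) ∉ Z := by
    intro hc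
    exact h3 (by simpa [nbr] using hc)
  have hw5 : s(x, w) ∈ H := by
    by_contra hc
    exact h5 (Finset.mem_filter.2 ⟨(Finset.mem_inter.1 hw).2, hc⟩)
  refine ⟨w, h1, hw2, h4, Finset.mem_sdiff.2 ⟨hw1, hw3⟩, ?_⟩
  rw [Sym2.eq_swap]
  exact Finset.mem_sdiff.2 ⟨hw5, hw4⟩

end HexG

theorem hexG : HexGStatement := by
  intro V _ _ H sd At hn hG Z F hZ hF b hb
  have hn' : (10000 : ℝ) ≤ nn V := by
    unfold nn
    exact_mod_cast hn
  have hF' : (F.card : ℝ) ≤ nn V / 1000 := by
    have := hF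
    unfold SmF at this
    linarith
  have he : (((∅ : Finset V).card : ℕ) : ℝ) ≤ nn V / 1000 := by
    simp
    linarith
  obtain ⟨a0, h0, h01, h02, _, _, _, _⟩ := hexG_pick (n := nn V) (by linarith)
    (Sd sd (b 0)) At F ∅ ∅ ∅ ∅ (hexG_Sd hG (b 0)) hG.At_card hF' he he he he
  have h03 : sd a0 = b 0 := by simpa [Sd] using h0
  obtain ⟨a1, h11, h12, h13, h14, h15⟩ := hexG_step hG hn hZ hF a0 (b 1) {a0} (by simp)
  obtain ⟨a2, h21, h22, h23, h24, h25⟩ := hexG_step hG hn hZ hF a1 (b 2) {a0, a1}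
    (Finset.card_le_two.trans (by norm_num))
  obtain ⟨a3, h31, h32, h33, h34, h35⟩ := hexG_step hG hn hZ hF a2 (b 3) {a0, a1, a2}
    (Finset.card_le_three.trans (by norm_num))
  obtain ⟨a4, h41, h42, h43, h44, h45⟩ := hexG_step hG hn hZ hF a3 (b 4) {a0, a1, a2, a3}
    (Finset.card_le_four.trans (by norm_num))
  obtain ⟨a5, h52, h53, h54, h55, h56⟩ := hexG_last hG hn hZ hF a4 a0 h01 {a0, a1, a2, a3, a4}
    (Finset.card_le_five.trans (by norm_num))
  have h57 : sd a5 = b 5 := by
    rw [h53, h03]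
    cases h5 : b 5 <;> cases h0 : b 0 <;> simp_all
  simp only [Finset.mem_insert, Finset.mem_singleton, not_or] at h14 h24 h34 h44 h54
  refine ⟨![a0, a1, a2, a3, a4, a5], ?_, ?_, ?_⟩
  · obtain ⟨d20, d21⟩ := h24
    obtain ⟨d30, d31, d32⟩ := h34
    obtain ⟨d40, d41, d42, d43⟩ := h44
    obtain ⟨d50, d51, d52, d53, d54⟩ := h54
    intro i j hij
    fin_cases i <;> fin_cases j <;> first
      | rfl
      | exact absurd hij h14 | exact absurd hij.symm h14
      | exact absurd hij d20 | exact absurd hij.symm d20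
      | exact absurd hij d21 | exact absurd hij.symm d21
      | exact absurd hij d30 | exact absurd hij.symm d30
      | exact absurd hij d31 | exact absurd hij.symm d31
      | exact absurd hij d32 | exact absurd hij.symm d32
      | exact absurd hij d40 | exact absurd hij.symm d40
      | exact absurd hij d41 | exact absurd hij.symm d41
      | exact absurd hij d42 | exact absurd hij.symm d42
      | exact absurd hij d43 | exact absurd hij.symm d43
      | exact absurd hij d50 | exact absurd hij.symm d50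
      | exact absurd hij d51 | exact absurd hij.symm d51
      | exact absurd hij d52 | exact absurd hij.symm d52
      | exact absurd hij d53 | exact absurd hij.symm d53
      | exact absurd hij d54 | exact absurd hij.symm d54
  · intro i
    fin_cases i
    · exact ⟨h02, h03⟩
    · exact ⟨h12, h13⟩
    · exact ⟨h22, h23⟩
    · exact ⟨h32, h33⟩
    · exact ⟨h42, h43⟩
    · exact ⟨h52, h57⟩
  · intro i
    fin_cases i
    · exact h15
    · exact h25
    · exact h35
    · exact h45
    · exact h55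
    · exact h56

end F3.HB
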