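import Pool.Agent.F3.HB.Spec

/-!
# Project F3, row HB-TG: tokens of the generic world
-/

set_option autoImplicit false
set_option linter.unusedSectionVars false

namespace F3.HB

open Finset NW F1 F3

section

variable {V : Type} [Fintype V] [DecidableEq V]

/-- the weight of the pair `uv` -/
theorem gam_mk (sd : V → Bool) (u v : V) : gam sd s(u, v) = if sd u = sd v then 2 else -1 := by
  unfold gam
  have h : Int sd s(u, v) ↔ sd u = sd v := by
    unfold Int
    constructor
    · intro h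
      exact h u (Sym2.mem_mk_left u v) v (Sym2.mem_mk_right u v)
    · intro h x hx y hy
      rcases Sym2.mem_iff.1 hx with rfl | rfl <;> rcases Sym2.mem_iff.1 hy with rfl | rfl
      · rfl
      · exact h
      · exact h.symm
      · rfl
  by_cases hc : sd u = sd v
  · rw [if_pos (h.2 hc), if_pos hc]
  · rw [if_neg (fun hi => hc (h.1 hi)), if_neg hc]

/-- the token with prescribed sides -/
theorem tok_aux (h : HexStatement) (g : HexGStatement) (H : Finset (Sym2 V)) (sd : V → Bool)
    (At : Finset V) (hn : 10000 ≤ Fintype.card V) (hF : FG H sd At) (b : Fin 6 → Bool)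
    (hb : b 5 ≠ b 0) (z : ℤ) (hz : ∑ i : Fin 6, (if b i = b (i + 1) then (2 : ℤ) else -1) = z)
    (Z : Finset (Sym2 V)) (F : Finset V) (hZ : Sm (1 / 1000) Z) (hFF : SmF (1 / 1000) F) :
    ∃ W : Finset (Sym2 V), W ⊆ H \ Z ∧ NW.Divis W ∧ W.card ≤ 12 ∧
      (∀ v ∈ F2.O.vE W, v ∉ F) ∧ ∑ e ∈ W, gam sd e = z := by
  obtain ⟨v, hv, hvF, hvH⟩ := g V H sd At hn hF Z F hZ hFF b hb
  obtain ⟨h1, h2, h3, h4⟩ := h V v hv
  refine ⟨univ.image (fun i => s(v i, v (i + 1))), ?_, h1, ?_, ?_, ?_⟩
  · intro e he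
    obtain ⟨i, _, rfl⟩ := mem_image.1 he
    exact hvH i
  · rw [h2]
    norm_num
  · intro u hu
    obtain ⟨i, rfl⟩ := h4 u hu
    exact (hvF i).1
  · rw [h3 ℤ (gam sd), ← hz]
    refine sum_congr rfl (fun i _ => ?_)
    rw [gam_mk, (hvF i).2, (hvF (i + 1)).2]

end

/-- row HB-TG -/
theorem tokG (h : HexStatement) (g : HexGStatement) : TokGStatement := by
  intro V _ _ H sd At hn hF j σ hσ Z F hZ hFF
  have key : ∃ W : Finset (Sym2 V), W ⊆ H \ Z ∧ NW.Divis W ∧ W.card ≤ 12 ∧
      (∀ v ∈ F2.O.vE W, v ∉ F) ∧ ∑ e ∈ W, gam sd e = 6 * σ := by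
    rcases hσ with rfl | rfl
    · exact tok_aux h g H sd At hn hF ![true, true, true, false, false, false] (by decide) _
        (by decide) Z F hZ hFF
    · exact tok_aux h g H sd At hn hF ![true, false, true, false, true, false] (by decide) _
        (by decide) Z F hZ hFF
  obtain ⟨W, w1, w2, w3, w4, w5⟩ := key
  refine ⟨W, w1, w2, w3, w4, ?_, ?_⟩
  · intro i
    have hij : i = j := Fin.ext (by omega)
    simp only [hij, if_true]
    exact w5
  · exact sum_const_zero

end F3.HB
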