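import Pool.Agent.F3.HB.Spec

/-!
# Project F3, block HB, row BG: boosters for crossing roots
-/

set_option autoImplicit false
set_option linter.unusedSectionVars false

namespace F3.HB

open Finset NW F1 F3

/-- if `G` is covered by `K` and a list of sets of size at most `a` then `|G| ≤ |K| + length a` -/
theorem bg_cov {α : Type*} [DecidableEq α] (K : Finset α) (a : ℝ) :
    ∀ (L : List (Finset α)) (G : Finset α), (∀ p ∈ G, p ∉ K → ∃ X ∈ L, p ∈ X) →
      (∀ X ∈ L, (X.card : ℝ) ≤ a) → (G.card : ℝ) ≤ K.card + L.length * a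
  | [], G, hG, _ => by
    have : G ⊆ K := by
      intro p hp
      by_contra hK
      obtain ⟨X, hX, _⟩ := hG p hp hK
      simp at hX
    have h2 : (G.card : ℝ) ≤ K.card := by exact_mod_cast card_le_card this
    simpa using h2
  | Y :: L, G, hG, hL => by
    have h1 := bg_cov K a L (G \ Y) (by
      intro p hp hK
      rw [mem_sdiff] at hp
      obtain ⟨X, hX, hpX⟩ := hG p hp.1 hK
      rcases List.mem_cons.1 hX with rfl | h
      · exact absurd hpX hp.2
      · exact ⟨X, h, hpX⟩) (fun X hX => hL X (List.mem_cons_of_mem _ hX))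
    have h2 : (G.card : ℝ) ≤ (G \ Y).card + Y.card := by
      have : G ⊆ (G \ Y) ∪ Y := by
        intro p hp
        by_cases h : p ∈ Y
        · exact mem_union_right _ h
        · exact mem_union_left _ (mem_sdiff.2 ⟨hp, h⟩)
      exact_mod_cast (card_le_card this).trans (card_union_le _ _)
    have h3 := hL Y (List.mem_cons_self ..)
    rw [List.length_cons]
    push_cast
    linarith

section BG

variable {V : Type} [Fintype V] [DecidableEq V]

/-- the vertices of a crossing root: `x` is alone on its side, `z` is typical -/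
theorem bg_root {H : Finset (Sym2 V)} {sd : V → Bool} {At : Finset V} (h : FG H sd At)
    (r : Tri V) (hr : Cro sd r) (hH : NW.edg r.1 ⊆ H) :
    ∃ x y z : V, r.1 = {x, y, z} ∧ sd y = !sd x ∧ sd z = !sd x ∧ z ∉ At := by
  obtain ⟨a, b, c, hab, hac, hbc, he⟩ := card_eq_three.1 r.2
  have key : ∃ x y z : V, r.1 = {x, y, z} ∧ sd y = !sd x ∧ sd z = !sd x ∧ y ≠ z := by
    obtain ⟨u, hu, v, hv, huv⟩ := hr
    rw [he] at hu hv
    simp only [mem_insert, mem_singleton] at hu hv
    have e2 : ({a, b, c} : Finset V) = {b, a, c} := by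
      ext w; simp only [mem_insert, mem_singleton]; tauto
    have e3 : ({a, b, c} : Finset V) = {c, a, b} := by
      ext w; simp only [mem_insert, mem_singleton]; tauto
    by_cases h1 : sd b = !sd a
    · by_cases h2 : sd c = !sd a
      · exact ⟨a, b, c, he, h1, h2, hbc⟩
      · have h3 : sd c = sd a := by
          cases hc : sd c <;> cases ha : sd a <;> simp_all
        refine ⟨b, a, c, he.trans e2, ?_, ?_, hac⟩
        · rw [h1]; simp
        · rw [h1, h3]; simp
    · have h1' : sd b = sd a := by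
        cases hc : sd b <;> cases ha : sd a <;> simp_all
      have h2 : sd c = !sd a := by
        by_contra h2
        have h3 : sd c = sd a := by
          cases hc : sd c <;> cases ha : sd a <;> simp_all
        apply huv
        rcases hu with rfl | rfl | rfl <;> rcases hv with rfl | rfl | rfl <;> simp_all
      refine ⟨c, a, b, he.trans e3, ?_, ?_, hab⟩
      · rw [h2]; simp
      · rw [h2, h1']; simp
  obtain ⟨x, y, z, e, hy, hz, hyz⟩ := key
  have hm : s(y, z) ∈ H := hH (by rw [mk_mem_edg, e]; simp [hyz])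
  by_cases hzA : z ∈ At
  · have hyA : y ∉ At := fun hyA => h.noAt y hyA z hzA hm
    refine ⟨x, z, y, ?_, hz, hy, hyA⟩
    rw [e]
    ext w; simp only [mem_insert, mem_singleton]; tauto
  · exact ⟨x, y, z, e, hy, hz, hzA⟩

/-- double counting -/
theorem bg_double (H : Finset (Sym2 V)) (B W : Finset V) :
    ∑ S ∈ B, (((nbr H S) ∩ W).card : ℝ) = ∑ w ∈ W, (((nbr H w) ∩ B).card : ℝ) := by
  have e1 : ∀ (S : V) (W : Finset V),
      (((nbr H S) ∩ W).card : ℝ) = ∑ w ∈ W, if s(S, w) ∈ H then (1 : ℝ) else 0 := by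
    intro S W
    rw [← sum_filter, sum_const, nsmul_eq_mul, mul_one]
    congr 2
    ext w
    simp only [mem_inter, mem_nbr, mem_filter]
    tauto
  simp_rw [e1]
  rw [sum_comm]
  refine sum_congr rfl fun w _ => sum_congr rfl fun S _ => ?_
  rw [Sym2.eq_swap]

/-- many second apices -/
theorem bg_many {H : Finset (Sym2 V)} {sd : V → Bool} {At : Finset V} (h : FG H sd At)
    (hn : 0 < nn V) (x : V) :
    (17 / 100) * nn V ≤ (((Sd sd (sd x)).filter (fun S =>
      nn V / 100 ≤ ((nbr H S ∩ ((nbr H x ∩ Sd sd (sd x)) \ At)).card : ℝ))).card : ℝ) := by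
  set W := (nbr H x ∩ Sd sd (sd x)) \ At with hW
  set B := Sd sd (sd x) with hB
  set G := B.filter (fun S => nn V / 100 ≤ ((nbr H S ∩ W).card : ℝ)) with hG
  have hWc : nn V / 5 - nn V / 1000 ≤ (W.card : ℝ) := by
    have h1 : ((nbr H x ∩ B).card : ℝ) ≤ W.card + At.card := by
      have : nbr H x ∩ B ⊆ W ∪ At := by
        intro p hp
        by_cases hA : p ∈ At
        · exact mem_union_right _ hA
        · exact mem_union_left _ (mem_sdiff.2 ⟨hp, hA⟩)
      exact_mod_cast (card_le_card this).trans (card_union_le _ _)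
    have h2 := h.int x
    have h3 := h.At_card
    rw [← hB] at h2
    linarith
  have hBc : (B.card : ℝ) ≤ (501 / 1000) * nn V := h.side _
  have hlow : (W.card : ℝ) * (nn V / 5) ≤ ∑ S ∈ B, (((nbr H S) ∩ W).card : ℝ) := by
    rw [bg_double, ← nsmul_eq_mul]
    refine card_nsmul_le_sum _ _ _ fun w hw => ?_
    have hw' : sd w = sd x := by
      rw [hW, mem_sdiff, mem_inter, hB, Sd, mem_filter] at hw
      exact hw.1.2.2
    have := h.int w
    rw [hw', ← hB] at this
    exact this
  have hup : ∑ S ∈ B, (((nbr H S) ∩ W).card : ℝ) ≤ G.card * W.card + B.card * (nn V / 100) := by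
    rw [← sum_filter_add_sum_filter_not B (fun S => nn V / 100 ≤ ((nbr H S ∩ W).card : ℝ))]
    apply add_le_add
    · rw [← nsmul_eq_mul]
      refine sum_le_card_nsmul _ _ _ fun S _ => ?_
      exact_mod_cast card_le_card inter_subset_right
    · have h1 : ∑ S ∈ B.filter (fun S => ¬ nn V / 100 ≤ ((nbr H S ∩ W).card : ℝ)),
          (((nbr H S) ∩ W).card : ℝ) ≤
          ((B.filter (fun S => ¬ nn V / 100 ≤ ((nbr H S ∩ W).card : ℝ))).card : ℝ) *
            (nn V / 100) := by
        rw [← nsmul_eq_mul]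
        refine sum_le_card_nsmul _ _ _ fun S hS => ?_
        rw [mem_filter, not_le] at hS
        exact hS.2.le
      refine h1.trans (mul_le_mul_of_nonneg_right ?_ (by positivity))
      exact_mod_cast card_filter_le _ _
  have hWp : 0 < (W.card : ℝ) := by linarith
  by_contra hc
  rw [not_le] at hc
  have h1 : (W.card : ℝ) * (nn V / 5) ≤ G.card * W.card + B.card * (nn V / 100) := hlow.trans hup
  have h2 : (G.card : ℝ) * W.card ≤ (17 / 100) * nn V * W.card :=
    mul_le_mul_of_nonneg_right hc.le hWp.le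
  have h3 : (B.card : ℝ) * (nn V / 100) ≤ (501 / 1000) * nn V * (nn V / 100) :=
    mul_le_mul_of_nonneg_right hBc (by positivity)
  have h4 : (nn V / 5 - nn V / 1000) * ((3 / 100) * nn V) ≤ (W.card : ℝ) * ((3 / 100) * nn V) :=
    mul_le_mul_of_nonneg_right hWc (by positivity)
  nlinarith [mul_pos hn hn]

/-- the placements in a fixed graph -/
theorem bg_place (hs : StepStatement) {c : ℕ} (hc : 6 ≤ c) (hce : Even c)
    {H : Finset (Sym2 V)} {sd : V → Bool} {At : Finset V} (h : FG H sd At)
    {Z : Finset (Sym2 V)} (hZ : Sm (1 / 1000) Z) (r : Tri V) (hr : Cro sd r)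
    (hH : NW.edg r.1 ⊆ H) (d : ℕ) (hd : (d : ℝ) + c + 2 ≤ (6 / 1000) * nn V) (hn : 0 < nn V) :
    d ^ (c - 1) ≤ (PlA c (alG sd) (H \ Z) r).card := by
  obtain ⟨x, y, z, hxyz, hy, hz, hzA⟩ := bg_root h r hr hH
  set B := Sd sd (sd x) with hB
  set A := Sd sd (!sd x) with hA
  set W := (nbr H x ∩ B) \ At with hW
  have hBm : ∀ v, v ∈ B ↔ sd v = sd x := by intro v; simp [hB, Sd]
  have hAm : ∀ v, v ∈ A ↔ sd v = !sd x := by intro v; simp [hA, Sd]
  have hnot : ∀ b : Bool, b ≠ !b := by decide
  -- bad sets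
  have bZ : ∀ v, ((nbr Z v).card : ℝ) ≤ nn V / 1000 := by
    intro v
    have := hZ v
    rw [NW.deg] at this
    linarith
  have bA : (At.card : ℝ) ≤ nn V / 1000 := h.At_card
  have mA : ∀ v, v ∉ At → sd v = sd x →
      ((A.filter (fun w => s(v, w) ∉ H)).card : ℝ) ≤ nn V / 1000 := by
    intro v hv hs
    have := h.miss v hv
    rw [hs, ← hA] at this
    exact this
  have mB : ∀ v, v ∉ At → sd v = !sd x →
      ((B.filter (fun w => s(v, w) ∉ H)).card : ℝ) ≤ nn V / 1000 := by
    intro v hv hs
    have := h.miss v hv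
    rw [hs, Bool.not_not, ← hB] at this
    exact this
  set 𝒮 := B.filter (fun S => S ∉ At ∧ s(S, y) ∈ H \ Z ∧ s(S, z) ∈ H \ Z ∧
    nn V / 100 ≤ ((nbr H S ∩ W).card : ℝ)) with hS
  set K : V → ℕ → Finset V := fun S j =>
    ((nbr (H \ Z) x ∩ nbr (H \ Z) S) ∩ (if Even j then B else A)) \ At with hK
  have hSm : ∀ S, S ∈ 𝒮 → sd S = sd x ∧ S ∉ At ∧ s(S, y) ∈ H \ Z ∧ s(S, z) ∈ H \ Z ∧
      nn V / 100 ≤ ((nbr H S ∩ W).card : ℝ) := by
    intro S hS'
    rw [hS, mem_filter, hBm] at hS'
    exact hS'
  have hKm : ∀ S j p, p ∈ K S j ↔ (s(x, p) ∈ H \ Z ∧ s(S, p) ∈ H \ Z) ∧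
      (if Even j then sd p = sd x else sd p = !sd x) ∧ p ∉ At := by
    intro S j p
    simp only [hK]
    rw [mem_sdiff, mem_inter, mem_inter, mem_nbr, mem_nbr]
    by_cases hj : Even j
    · simp only [hj, if_true, hBm]; tauto
    · simp only [hj, if_false, hAm]; tauto
  -- casts
  have cast : ∀ t : ℕ, (6 / 1000) * nn V ≤ (t : ℝ) → d + c + 2 ≤ t := by
    intro t ht
    have : ((d + c + 2 : ℕ) : ℝ) ≤ t := by push_cast; linarith
    exact_mod_cast this
  refine hs c hc hce V (H \ Z) (alG sd) r x y z d 𝒮 K (h.nl.mono sdiff_subset) hxyz ?_ ?_ ?_ ?_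
    ?_ ?_ ?_
  · -- many second apices
    apply cast
    have h1 := bg_many h hn x
    have h2 := bg_cov 𝒮 (nn V / 1000) [nbr Z y, nbr Z z, At, B.filter (fun w => s(z, w) ∉ H)]
      ((B.filter (fun S => nn V / 100 ≤ ((nbr H S ∩ W).card : ℝ))) \
        (B.filter (fun S => s(y, S) ∉ H))) (by
        intro p hp hpS
        rw [mem_sdiff, mem_filter, mem_filter, not_and, not_not] at hp
        have hyp := hp.2 hp.1.1
        by_contra hcon
        push Not at hcon
        apply hpS
        have i1 := hcon (nbr Z y) (by simp)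
        have i2 := hcon (nbr Z z) (by simp)
        have i3 := hcon At (by simp)
        have i4 := hcon (B.filter (fun w => s(z, w) ∉ H)) (by simp)
        rw [mem_nbr] at i1 i2
        rw [mem_filter, not_and, not_not] at i4
        rw [hS, mem_filter, mem_sdiff, mem_sdiff, Sym2.eq_swap (a := p), Sym2.eq_swap (a := p)]
        exact ⟨hp.1.1, i3, ⟨hyp, i1⟩, ⟨i4 hp.1.1, i2⟩, hp.1.2⟩) (by
        intro X hX
        simp only [List.mem_cons, List.not_mem_nil, or_false] at hX
        rcases hX with rfl | rfl | rfl | rfl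
        · exact bZ y
        · exact bZ z
        · exact bA
        · exact mB z hzA hz)
    have h3 : ((B.filter (fun S => nn V / 100 ≤ ((nbr H S ∩ W).card : ℝ))).card : ℝ) ≤
        ((B.filter (fun S => nn V / 100 ≤ ((nbr H S ∩ W).card : ℝ))) \
        (B.filter (fun S => s(y, S) ∉ H))).card + (B.filter (fun S => s(y, S) ∉ H)).card := by
      exact_mod_cast card_le_card_sdiff_add_card
    have h4 : ((B.filter (fun S => s(y, S) ∉ H)).card : ℝ) + (nbr H y ∩ B).card = B.card := by
      have e : B.filter (fun S => s(y, S) ∈ H) = nbr H y ∩ B := by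
        ext w; simp only [mem_filter, mem_inter, mem_nbr]; tauto
      rw [← e, add_comm]
      exact_mod_cast card_filter_add_card_filter_not (s := B) (fun S => s(y, S) ∈ H)
    have h5 := h.cross y
    rw [hy, Bool.not_not, ← hB] at h5
    have h6 : (B.card : ℝ) ≤ (501 / 1000) * nn V := h.side _
    simp only [List.length_cons, List.length_nil] at h2
    push_cast at h2
    rw [← hB, ← hW] at h1
    linarith
  · -- adjacent to `y`, `z`
    intro S hS'
    obtain ⟨h1, h2, h3, h4, h5⟩ := hSm S hS'
    refine ⟨h3, h4, fun T hT => ?_⟩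
    refine ⟨S, by rw [hT]; simp, y, by rw [hT]; simp, ?_⟩
    rw [h1, hy]
    exact hnot _
  · intro S _ j p hp
    exact ((hKm S j p).1 hp).1
  · -- first
    intro S hS'
    obtain ⟨h1, h2, h3, h4, h5⟩ := hSm S hS'
    apply cast
    have h6 := bg_cov ((K S 0).filter (fun p => s(z, p) ∈ H \ Z)) (nn V / 1000)
      [nbr Z x, nbr Z S, nbr Z z, B.filter (fun w => s(z, w) ∉ H)] (nbr H S ∩ W) (by
        intro p hp hpS
        rw [hW, mem_inter, mem_sdiff, mem_inter, mem_nbr, mem_nbr] at hp
        obtain ⟨hp1, ⟨hp2, hp3⟩, hp4⟩ := hp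
        by_contra hcon
        push Not at hcon
        apply hpS
        have i1 := hcon (nbr Z x) (by simp)
        have i2 := hcon (nbr Z S) (by simp)
        have i3 := hcon (nbr Z z) (by simp)
        have i4 := hcon (B.filter (fun w => s(z, w) ∉ H)) (by simp)
        rw [mem_nbr] at i1 i2 i3
        rw [mem_filter, not_and, not_not] at i4
        rw [mem_filter, hKm, mem_sdiff, mem_sdiff, mem_sdiff]
        exact ⟨⟨⟨⟨hp2, i1⟩, ⟨hp1, i2⟩⟩, by simpa using (hBm p).1 hp3, hp4⟩, i4 hp3, i3⟩) (by
        intro X hX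
        simp only [List.mem_cons, List.not_mem_nil, or_false] at hX
        rcases hX with rfl | rfl | rfl | rfl
        · exact bZ x
        · exact bZ S
        · exact bZ z
        · exact mB z hzA hz)
    simp only [List.length_cons, List.length_nil] at h6
    push_cast at h6
    linarith
  · -- step
    intro S hS' j hj q hq
    obtain ⟨h1, h2, h3, h4, h5⟩ := hSm S hS'
    obtain ⟨hq1, hq2, hq3⟩ := (hKm S j q).1 hq
    apply cast
    by_cases hje : Even j
    · have hj1 : ¬ Even (j + 1) := by rw [Nat.even_add_one]; exact fun hh => hh hje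
      rw [if_pos hje] at hq2
      have h6 := bg_cov ((K S (j + 1)).filter (fun p => s(q, p) ∈ H \ Z)) (nn V / 1000)
        [nbr Z x, nbr Z S, nbr Z q, At, A.filter (fun w => s(S, w) ∉ H),
          A.filter (fun w => s(q, w) ∉ H)] (nbr H x ∩ A) (by
          intro p hp hpS
          rw [mem_inter, mem_nbr] at hp
          obtain ⟨hp1, hp2⟩ := hp
          by_contra hcon
          push Not at hcon
          apply hpS
          have i1 := hcon (nbr Z x) (by simp)
          have i2 := hcon (nbr Z S) (by simp)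
          have i3 := hcon (nbr Z q) (by simp)
          have i4 := hcon At (by simp)
          have i5 := hcon (A.filter (fun w => s(S, w) ∉ H)) (by simp)
          have i6 := hcon (A.filter (fun w => s(q, w) ∉ H)) (by simp)
          rw [mem_nbr] at i1 i2 i3
          rw [mem_filter, not_and, not_not] at i5 i6
          rw [mem_filter, hKm, mem_sdiff, mem_sdiff, mem_sdiff, if_neg hj1]
          exact ⟨⟨⟨⟨hp1, i1⟩, ⟨i5 hp2, i2⟩⟩, (hAm p).1 hp2, i4⟩, i6 hp2, i3⟩) (by
          intro X hX
          simp only [List.mem_cons, List.not_mem_nil, or_false] at hX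
          rcases hX with rfl | rfl | rfl | rfl | rfl | rfl
          · exact bZ x
          · exact bZ S
          · exact bZ q
          · exact bA
          · exact mA S h2 h1
          · exact mA q hq3 hq2)
      have h7 := h.cross x
      rw [← hA] at h7
      simp only [List.length_cons, List.length_nil] at h6
      push_cast at h6
      linarith
    · have hj1 : Even (j + 1) := by rw [Nat.even_add_one]; exact hje
      rw [if_neg hje] at hq2
      have h6 := bg_cov ((K S (j + 1)).filter (fun p => s(q, p) ∈ H \ Z)) (nn V / 1000)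
        [nbr Z x, nbr Z S, nbr Z q, B.filter (fun w => s(q, w) ∉ H)] (nbr H S ∩ W) (by
          intro p hp hpS
          rw [hW, mem_inter, mem_sdiff, mem_inter, mem_nbr, mem_nbr] at hp
          obtain ⟨hp1, ⟨hp2, hp3⟩, hp4⟩ := hp
          by_contra hcon
          push Not at hcon
          apply hpS
          have i1 := hcon (nbr Z x) (by simp)
          have i2 := hcon (nbr Z S) (by simp)
          have i3 := hcon (nbr Z q) (by simp)
          have i4 := hcon (B.filter (fun w => s(q, w) ∉ H)) (by simp)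
          rw [mem_nbr] at i1 i2 i3
          rw [mem_filter, not_and, not_not] at i4
          rw [mem_filter, hKm, mem_sdiff, mem_sdiff, mem_sdiff, if_pos hj1]
          exact ⟨⟨⟨⟨hp2, i1⟩, ⟨hp1, i2⟩⟩, (hBm p).1 hp3, hp4⟩, i4 hp3, i3⟩) (by
          intro X hX
          simp only [List.mem_cons, List.not_mem_nil, or_false] at hX
          rcases hX with rfl | rfl | rfl | rfl
          · exact bZ x
          · exact bZ S
          · exact bZ q
          · exact mB q hq3 hq2)
      simp only [List.length_cons, List.length_nil] at h6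
      push_cast at h6
      linarith
  · -- last
    intro S hS' j hj q hq
    obtain ⟨h1, h2, h3, h4, h5⟩ := hSm S hS'
    obtain ⟨hq1, hq2, hq3⟩ := (hKm S j q).1 hq
    have hje : Even j := by
      rcases Nat.even_or_odd j with he | ho
      · exact he
      · exfalso
        rw [← hj] at hce
        obtain ⟨u, hu⟩ := hce
        obtain ⟨v, hv⟩ := ho
        omega
    have hj1 : ¬ Even (j + 1) := by rw [Nat.even_add_one]; exact fun hh => hh hje
    rw [if_pos hje] at hq2
    apply cast
    have h6 := bg_cov ((K S (j + 1)).filter (fun p => s(q, p) ∈ H \ Z ∧ s(p, y) ∈ H \ Z))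
      (nn V / 1000)
      [nbr Z x, nbr Z S, nbr Z q, nbr Z y, At, A.filter (fun w => s(S, w) ∉ H),
        A.filter (fun w => s(q, w) ∉ H)] ((nbr H x ∩ A) ∩ (nbr H y ∩ A)) (by
        intro p hp hpS
        rw [mem_inter, mem_inter, mem_inter, mem_nbr, mem_nbr] at hp
        obtain ⟨⟨hp1, hp2⟩, hp3, -⟩ := hp
        by_contra hcon
        push Not at hcon
        apply hpS
        have i1 := hcon (nbr Z x) (by simp)
        have i2 := hcon (nbr Z S) (by simp)
        have i3 := hcon (nbr Z q) (by simp)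
        have i7 := hcon (nbr Z y) (by simp)
        have i4 := hcon At (by simp)
        have i5 := hcon (A.filter (fun w => s(S, w) ∉ H)) (by simp)
        have i6 := hcon (A.filter (fun w => s(q, w) ∉ H)) (by simp)
        rw [mem_nbr] at i1 i2 i3 i7
        rw [mem_filter, not_and, not_not] at i5 i6
        rw [mem_filter, hKm, mem_sdiff, mem_sdiff, mem_sdiff, mem_sdiff, if_neg hj1,
          Sym2.eq_swap (a := p)]
        exact ⟨⟨⟨⟨hp1, i1⟩, ⟨i5 hp2, i2⟩⟩, (hAm p).1 hp2, i4⟩, ⟨i6 hp2, i3⟩, hp3, i7⟩) (by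
        intro X hX
        simp only [List.mem_cons, List.not_mem_nil, or_false] at hX
        rcases hX with rfl | rfl | rfl | rfl | rfl | rfl | rfl
        · exact bZ x
        · exact bZ S
        · exact bZ q
        · exact bZ y
        · exact bA
        · exact mA S h2 h1
        · exact mA q hq3 hq2)
    have h7 := h.cross x
    rw [← hA] at h7
    have h8 := h.int y
    rw [hy, ← hA] at h8
    have h9 : (A.card : ℝ) ≤ (501 / 1000) * nn V := h.side _
    have h10 : ((nbr H x ∩ A).card : ℝ) + (nbr H y ∩ A).card ≤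
        A.card + ((nbr H x ∩ A) ∩ (nbr H y ∩ A)).card := by
      have e1 := card_union_add_card_inter (nbr H x ∩ A) (nbr H y ∩ A)
      have e2 : ((nbr H x ∩ A) ∪ (nbr H y ∩ A)).card ≤ A.card :=
        card_le_card (union_subset inter_subset_right inter_subset_right)
      have e3 : (nbr H x ∩ A).card + (nbr H y ∩ A).card ≤
        A.card + ((nbr H x ∩ A) ∩ (nbr H y ∩ A)).card := by omega
      exact_mod_cast e3
    simp only [List.length_cons, List.length_nil] at h6
    push_cast at h6
    linarith
  · -- faces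
    intro S hS' a ha
    obtain ⟨h1, h2, h3, h4, h5⟩ := hSm S hS'
    have hsa : sd a = sd x := by
      rcases ha with rfl | rfl
      · rfl
      · exact h1
    refine ⟨fun p _ T hT => ?_, fun j p hp q hq T hT => ?_, fun j _ p _ T hT => ?_⟩
    · refine ⟨a, by rw [hT]; simp, z, by rw [hT]; simp, ?_⟩
      rw [hsa, hz]
      exact hnot _
    · obtain ⟨-, hp2, -⟩ := (hKm S j p).1 hp
      obtain ⟨-, hq2, -⟩ := (hKm S (j + 1) q).1 hq
      by_cases hje : Even j
      · have hj1 : ¬ Even (j + 1) := by rw [Nat.even_add_one]; exact fun hh => hh hje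
        rw [if_neg hj1] at hq2
        refine ⟨a, by rw [hT]; simp, q, by rw [hT]; simp, ?_⟩
        rw [hsa, hq2]
        exact hnot _
      · rw [if_neg hje] at hp2
        refine ⟨a, by rw [hT]; simp, p, by rw [hT]; simp, ?_⟩
        rw [hsa, hp2]
        exact hnot _
    · refine ⟨a, by rw [hT]; simp, y, by rw [hT]; simp, ?_⟩
      rw [hsa, hy]
      exact hnot _

end BG

/-- row HB-BG -/
theorem boostG (h : StepStatement) : BoostGStatement := by
  intro c hc hce
  refine ⟨400 ^ (c - 1), 1000 * (c + 2), by positivity, ?_⟩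
  intro V _ _ H sd At hn hF Z hZ r hr hrH
  have hn' : 1000 * ((c : ℝ) + 2) ≤ nn V := by
    unfold nn
    exact_mod_cast hn
  have hc' : (6 : ℝ) ≤ c := by exact_mod_cast hc
  set d : ℕ := ⌊nn V / 200⌋₊ with hd
  have hn0 : 0 ≤ nn V / 200 := by linarith
  have h1 : (d : ℝ) ≤ nn V / 200 := Nat.floor_le hn0
  have h2 : nn V / 200 < d + 1 := Nat.lt_floor_add_one _
  have h3 := bg_place h hc hce hF hZ r hr (by simpa using hrH) d (by linarith) (by linarith)
  have h4 : nn V ≤ 400 * d := by linarith
  calc nn V ^ (c - 1) ≤ (400 * (d : ℝ)) ^ (c - 1) :=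
        pow_le_pow_left₀ (by linarith) h4 _
    _ = 400 ^ (c - 1) * (d : ℝ) ^ (c - 1) := mul_pow _ _ _
    _ ≤ 400 ^ (c - 1) * ((PlA c (alG sd) (H \ Z) r).card : ℝ) := by
        apply mul_le_mul_of_nonneg_left _ (by positivity)
        exact_mod_cast h3

end F3.HB
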