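import Pool.Agent.F3.HB.Spec

/-!
# Project F3, block HB, row BN: boosters in world N
-/

set_option autoImplicit false
set_option linter.unusedSectionVars false

namespace F3.HB

open Finset NW F1 F3

section BN

variable {V : Type} [Fintype V] [DecidableEq V]

/-- the last vertex of the path, `z` for the empty path -/
def bn_prv (z : V) : (m : ℕ) → (Fin m → V) → V
  | 0, _ => z
  | _ + 1, g => g (Fin.last _)

/-- the beginning of a good path -/
structure BnOK (H : Finset (Sym2 V)) (x y z S : V) (m : ℕ) (g : Fin m → V) : Prop where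
  inj : Function.Injective g
  ne : ∀ j, g j ≠ y ∧ g j ≠ z
  xp : ∀ j, s(x, g j) ∈ H
  pS : ∀ j, s(S, g j) ∈ H
  first : ∀ j : Fin m, j.val = 0 → s(z, g j) ∈ H
  step : ∀ i j : Fin m, j.val = i.val + 1 → s(g i, g j) ∈ H

/-- the extension of a path by one vertex -/
def bn_sn {m : ℕ} (g : Fin m → V) (v : V) : Fin (m + 1) → V :=
  Fin.snoc (α := fun _ => V) g v

theorem bn_sn_last {m : ℕ} (g : Fin m → V) (v : V) : bn_sn g v (Fin.last m) = v :=
  Fin.snoc_last (α := fun _ => V) v g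

theorem bn_sn_cast {m : ℕ} (g : Fin m → V) (v : V) (j : Fin m) : bn_sn g v j.castSucc = g j :=
  Fin.snoc_castSucc (α := fun _ => V) v g j

theorem bn_sn_inj {m : ℕ} {g g' : Fin m → V} {v v' : V} (h : bn_sn g v = bn_sn g' v') :
    g = g' ∧ v = v' :=
  (Fin.snoc_inj (α := fun _ => V)).1 h

theorem bn_prv_sn {m : ℕ} (z : V) (g : Fin m → V) (v : V) :
    bn_prv z (m + 1) (bn_sn g v) = v := bn_sn_last g v

/-- the used vertices -/
def bn_used (y z : V) {m : ℕ} (g : Fin m → V) : Finset V := {y, z} ∪ univ.image g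

theorem bn_used_card (y z : V) {m : ℕ} (g : Fin m → V) :
    (bn_used y z g).card ≤ m + 2 := by
  unfold bn_used
  have h1 := card_union_le ({y, z} : Finset V) (univ.image g)
  have h2 : ({y, z} : Finset V).card ≤ 2 := card_le_two
  have h3 : (univ.image g).card ≤ m := by
    refine card_image_le.trans ?_
    rw [card_univ, Fintype.card_fin]
  omega

theorem bn_not_used {y z v : V} {m : ℕ} {g : Fin m → V} (h : v ∉ bn_used y z g) :
    v ≠ y ∧ v ≠ z ∧ ∀ j, g j ≠ v := by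
  unfold bn_used at h
  rw [mem_union, mem_insert, mem_singleton, mem_image] at h
  refine ⟨fun e => h (Or.inl (Or.inl e)), fun e => h (Or.inl (Or.inr e)), fun j e =>
    h (Or.inr ⟨j, mem_univ _, e⟩)⟩

theorem bn_snoc {H : Finset (Sym2 V)} {x y z S : V} {m : ℕ} {g : Fin m → V}
    (h : BnOK H x y z S m g) {v : V} (h1 : v ∉ bn_used y z g) (h4 : s(x, v) ∈ H)
    (h5 : s(S, v) ∈ H) (h6 : s(bn_prv z m g, v) ∈ H) : BnOK H x y z S (m + 1) (bn_sn g v) := by
  obtain ⟨hy, hz, hg⟩ := bn_not_used h1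
  refine ⟨?_, ?_, ?_, ?_, ?_, ?_⟩
  · intro i j hij
    induction i using Fin.lastCases with
    | last =>
      induction j using Fin.lastCases with
      | last => rfl
      | cast j =>
        rw [bn_sn_last, bn_sn_cast] at hij
        exact absurd hij.symm (hg j)
    | cast i =>
      induction j using Fin.lastCases with
      | last =>
        rw [bn_sn_last, bn_sn_cast] at hij
        exact absurd hij (hg i)
      | cast j =>
        rw [bn_sn_cast, bn_sn_cast] at hij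
        rw [h.inj hij]
  · intro j
    induction j using Fin.lastCases with
    | last => rw [bn_sn_last]; exact ⟨hy, hz⟩
    | cast j => rw [bn_sn_cast]; exact h.ne j
  · intro j
    induction j using Fin.lastCases with
    | last => rw [bn_sn_last]; exact h4
    | cast j => rw [bn_sn_cast]; exact h.xp j
  · intro j
    induction j using Fin.lastCases with
    | last => rw [bn_sn_last]; exact h5
    | cast j => rw [bn_sn_cast]; exact h.pS j
  · intro j hj
    induction j using Fin.lastCases with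
    | last =>
      rw [bn_sn_last]
      rw [Fin.val_last] at hj
      subst hj
      exact h6
    | cast j =>
      rw [bn_sn_cast]
      exact h.first j hj
  · intro i j hij
    induction j using Fin.lastCases with
    | last =>
      rw [bn_sn_last]
      rw [Fin.val_last] at hij
      cases m with
      | zero => omega
      | succ k =>
        have hi : i = (Fin.last k).castSucc := by
          apply Fin.ext
          rw [Fin.val_castSucc, Fin.val_last]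
          omega
        rw [hi, bn_sn_cast]
        exact h6
    | cast j =>
      rw [bn_sn_cast]
      rw [Fin.val_castSucc] at hij
      have hi : i = (⟨i.val, by omega⟩ : Fin m).castSucc := by
        apply Fin.ext
        rw [Fin.val_castSucc]
      rw [hi, bn_sn_cast]
      refine h.step _ j ?_
      exact hij

open Classical in
/-- the beginnings -/
noncomputable def bn_G (H : Finset (Sym2 V)) (x y z S : V) (m : ℕ) : Finset (Fin m → V) :=
  univ.filter (fun g => BnOK H x y z S m g)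

theorem bn_mem_G {H : Finset (Sym2 V)} {x y z S : V} {m : ℕ} {g : Fin m → V} :
    g ∈ bn_G H x y z S m ↔ BnOK H x y z S m g := by
  simp only [bn_G, mem_filter, mem_univ, true_and]

/-- the greedy choice -/
theorem bn_greedy {H : Finset (Sym2 V)} {x y z S : V} {D : ℝ} {m₀ : ℕ} (hD : 0 ≤ D)
    (hq : ∀ q, D + (m₀ + 2) ≤ ((nbr H x ∩ nbr H S ∩ nbr H q).card : ℝ)) (m : ℕ)
    (hm : m ≤ m₀) : D ^ m ≤ ((bn_G H x y z S m).card : ℝ) := by
  induction m with
  | zero =>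
    rw [pow_zero]
    have h1 : (Fin.elim0 : Fin 0 → V) ∈ bn_G H x y z S 0 := by
      rw [bn_mem_G]
      exact ⟨fun i => i.elim0, fun i => i.elim0, fun i => i.elim0, fun i => i.elim0,
        fun i => i.elim0, fun i => i.elim0⟩
    have h2 : 1 ≤ (bn_G H x y z S 0).card := card_pos.2 ⟨_, h1⟩
    exact_mod_cast h2
  | succ m ih =>
    have ih := ih (by omega)
    let Cd : (Fin m → V) → Finset V := fun g =>
      (nbr H x ∩ nbr H S ∩ nbr H (bn_prv z m g)) \ bn_used y z g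
    have hC : ∀ g, D ≤ ((Cd g).card : ℝ) := by
      intro g
      have h1 := le_card_sdiff (bn_used y z g) (nbr H x ∩ nbr H S ∩ nbr H (bn_prv z m g))
      have h2 := bn_used_card y z g
      have h3 : (nbr H x ∩ nbr H S ∩ nbr H (bn_prv z m g)).card ≤ (Cd g).card + (m + 2) := by
        have : (Cd g).card =
          ((nbr H x ∩ nbr H S ∩ nbr H (bn_prv z m g)) \ bn_used y z g).card := rfl
        omega
      have h4 : ((nbr H x ∩ nbr H S ∩ nbr H (bn_prv z m g)).card : ℝ) ≤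
          (Cd g).card + (m + 2) := by exact_mod_cast h3
      have h5 := hq (bn_prv z m g)
      have h6 : (m : ℝ) ≤ m₀ := by exact_mod_cast (by omega : m ≤ m₀)
      linarith
    have hcard : ((bn_G H x y z S m).sigma Cd).card ≤ (bn_G H x y z S (m + 1)).card := by
      refine card_le_card_of_injOn (fun p => bn_sn p.1 p.2) ?_ ?_
      · rintro ⟨g, v⟩ hp
        rw [mem_coe, mem_sigma] at hp
        rw [mem_coe, bn_mem_G]
        obtain ⟨hg, hv⟩ := hp
        rw [bn_mem_G] at hg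
        have hv' := mem_sdiff.1 hv
        rw [mem_inter, mem_inter, mem_nbr, mem_nbr, mem_nbr] at hv'
        exact bn_snoc hg hv'.2 hv'.1.1.1 hv'.1.1.2 hv'.1.2
      · rintro ⟨g, v⟩ _ ⟨g', v'⟩ _ he
        obtain ⟨h1, h2⟩ := bn_sn_inj he
        simp only at h1 h2
        rw [h1, h2]
    rw [card_sigma] at hcard
    have h7 : (bn_G H x y z S m).card * D ≤ ((∑ g ∈ bn_G H x y z S m, (Cd g).card : ℕ) : ℝ) := by
      push_cast
      rw [← nsmul_eq_mul]
      exact card_nsmul_le_sum _ _ _ fun g _ => hC g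
    have h8 : ((∑ g ∈ bn_G H x y z S m, (Cd g).card : ℕ) : ℝ) ≤
        ((bn_G H x y z S (m + 1)).card : ℝ) := by exact_mod_cast hcard
    rw [pow_succ]
    exact (mul_le_mul_of_nonneg_right ih hD).trans (h7.trans h8)

theorem bn_fib {α β : Type} [Fintype α] [Fintype β] (P : α → β → Prop)
    [∀ a, DecidablePred (P a)] (t : ℕ) (h : ∀ a, ((univ : Finset β).filter (P a)).card ≤ t) :
    ((univ : Finset (α × β)).filter (fun w => P w.1 w.2)).card ≤ Fintype.card α * t := by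
  rw [card_filter, Fintype.sum_prod_type]
  calc ∑ a, ∑ b, (if P a b then 1 else 0) ≤ ∑ _a : α, t := by
        refine sum_le_sum fun a _ => ?_
        rw [← card_filter]
        exact h a
    _ = Fintype.card α * t := by rw [sum_const, card_univ, smul_eq_mul]

theorem bn_fst {α β : Type} [Fintype α] [DecidableEq α] [Fintype β] (T : Finset α) (t : ℕ)
    (h : T.card ≤ t) :
    ((univ : Finset (α × β)).filter (fun w => w.1 ∈ T)).card ≤ Fintype.card β * t := by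
  have h1 : (univ : Finset (α × β)).filter (fun w => w.1 ∈ T) = T ×ˢ univ := by
    ext w
    simp only [mem_filter, mem_univ, true_and, mem_product, and_true]
  rw [h1, card_product, card_univ, mul_comm]
  exact Nat.mul_le_mul_left _ h

/-- the number of quadruples with one bad coordinate -/
theorem bn_quad (t : ℕ) (T1 : Finset V) (T2 : V → Finset V) (T3 : V → V → Finset V)
    (T4 : V → V → V → Finset V) (h1 : T1.card ≤ t) (h2 : ∀ a, (T2 a).card ≤ t)
    (h3 : ∀ a b, (T3 a b).card ≤ t) (h4 : ∀ a b c, (T4 a b c).card ≤ t) :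
    ((univ : Finset (V × V × V × V)).filter (fun w => w.1 ∈ T1 ∨ w.2.1 ∈ T2 w.1 ∨
      w.2.2.1 ∈ T3 w.1 w.2.1 ∨ w.2.2.2 ∈ T4 w.1 w.2.1 w.2.2.1)).card ≤
      4 * (Fintype.card V ^ 3 * t) := by
  classical
  have e1 : ((univ : Finset (V × V × V × V)).filter (fun w => w.1 ∈ T1)).card ≤
      Fintype.card V ^ 3 * t := by
    refine (bn_fst (β := V × V × V) T1 t h1).trans (le_of_eq ?_)
    rw [Fintype.card_prod, Fintype.card_prod]
    ring
  have e2 : ((univ : Finset (V × V × V × V)).filter (fun w => w.2.1 ∈ T2 w.1)).card ≤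
      Fintype.card V ^ 3 * t := by
    refine (bn_fib (α := V) (β := V × V × V) (fun a w => w.1 ∈ T2 a) _
      (fun a => bn_fst (β := V × V) (T2 a) t (h2 a))).trans (le_of_eq ?_)
    rw [Fintype.card_prod]
    ring
  have e3 : ((univ : Finset (V × V × V × V)).filter (fun w => w.2.2.1 ∈ T3 w.1 w.2.1)).card ≤
      Fintype.card V ^ 3 * t := by
    refine (bn_fib (α := V) (β := V × V × V) (fun a w => w.2.1 ∈ T3 a w.1) _
      (fun a => bn_fib (α := V) (β := V × V) (fun b w => w.1 ∈ T3 a b) _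
        (fun b => bn_fst (β := V) (T3 a b) t (h3 a b)))).trans (le_of_eq ?_)
    ring
  have e4 : ((univ : Finset (V × V × V × V)).filter
      (fun w => w.2.2.2 ∈ T4 w.1 w.2.1 w.2.2.1)).card ≤ Fintype.card V ^ 3 * t := by
    refine (bn_fib (α := V) (β := V × V × V) (fun a w => w.2.2 ∈ T4 a w.1 w.2.1) _
      (fun a => bn_fib (α := V) (β := V × V) (fun b w => w.2 ∈ T4 a b w.1) _
        (fun b => bn_fib (α := V) (β := V) (fun c w => w ∈ T4 a b c) t
          (fun c => ?_)))).trans (le_of_eq ?_)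
    · rw [filter_mem_eq_inter, univ_inter]
      exact h4 a b c
    · ring
  rw [filter_or, filter_or, filter_or]
  refine (card_union_le _ _).trans ?_
  refine (Nat.add_le_add_left (card_union_le _ _) _).trans ?_
  refine (Nat.add_le_add_left (Nat.add_le_add_left (card_union_le _ _) _) _).trans ?_
  omega

/-! ### the last four vertices -/

/-- the forbidden vertices after `prev` -/
def bn_T (Z : Finset (Sym2 V)) (x y z S : V) {m : ℕ} (prev : V) (g : Fin m → V) : Finset V :=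
  ((nbr Z prev ∪ nbr Z x) ∪ (nbr Z S ∪ nbr Z y)) ∪ bn_used y z g

theorem bn_T_card {Z : Finset (Sym2 V)} {k : ℕ} (hZ : ∀ v, (nbr Z v).card ≤ k) (x y z S : V)
    {m : ℕ} (prev : V) (g : Fin m → V) : (bn_T Z x y z S prev g).card ≤ 4 * k + m + 2 := by
  unfold bn_T
  have h1 := card_union_le ((nbr Z prev ∪ nbr Z x) ∪ (nbr Z S ∪ nbr Z y)) (bn_used y z g)
  have h2 := card_union_le (nbr Z prev ∪ nbr Z x) (nbr Z S ∪ nbr Z y)
  have h3 := card_union_le (nbr Z prev) (nbr Z x)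
  have h4 := card_union_le (nbr Z S) (nbr Z y)
  have h5 := bn_used_card y z g
  have h6 := hZ prev
  have h7 := hZ x
  have h8 := hZ S
  have h9 := hZ y
  omega

theorem bn_not_T {Z : Finset (Sym2 V)} {x y z S prev v : V} {m : ℕ} {g : Fin m → V}
    (h : v ∉ bn_T Z x y z S prev g) : s(prev, v) ∉ Z ∧ s(x, v) ∉ Z ∧ s(S, v) ∉ Z ∧
      s(y, v) ∉ Z ∧ v ∉ bn_used y z g := by
  unfold bn_T at h
  rw [mem_union, mem_union, mem_union, mem_union, mem_nbr, mem_nbr, mem_nbr, mem_nbr] at h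
  push Not at h
  exact ⟨h.1.1.1, h.1.1.2, h.1.2.1, h.1.2.2, h.2⟩

/-- one more vertex -/
theorem bn_ext {H₀ Z : Finset (Sym2 V)} {x y z S : V} {m : ℕ} {g : Fin m → V}
    (h : BnOK (H₀ \ Z) x y z S m g) {v : V} (hv : v ∈ nbr H₀ x ∩ nbr H₀ S)
    (hp : s(bn_prv z m g, v) ∈ H₀) (hT : v ∉ bn_T Z x y z S (bn_prv z m g) g) :
    BnOK (H₀ \ Z) x y z S (m + 1) (bn_sn g v) := by
  obtain ⟨h1, h2, h3, _, h5⟩ := bn_not_T hT
  rw [mem_inter, mem_nbr, mem_nbr] at hv
  exact bn_snoc h h5 (mem_sdiff.2 ⟨hv.1, h2⟩) (mem_sdiff.2 ⟨hv.2, h3⟩) (mem_sdiff.2 ⟨hp, h1⟩)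

/-- the path with four more vertices -/
def bn_four {m : ℕ} (g : Fin m → V) (w : V × V × V × V) : Fin (m + 4) → V :=
  bn_sn (bn_sn (bn_sn (bn_sn g w.1) w.2.1) w.2.2.1) w.2.2.2

theorem bn_four_inj {m : ℕ} {g g' : Fin m → V} {w w' : V × V × V × V}
    (h : bn_four g w = bn_four g' w') : g = g' ∧ w = w' := by
  obtain ⟨a, b, c, d⟩ := w
  obtain ⟨a', b', c', d'⟩ := w'
  obtain ⟨h1, h2⟩ := bn_sn_inj h
  obtain ⟨h3, h4⟩ := bn_sn_inj h1
  obtain ⟨h5, h6⟩ := bn_sn_inj h3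
  obtain ⟨h7, h8⟩ := bn_sn_inj h5
  simp only at h2 h4 h6 h8
  refine ⟨h7, ?_⟩
  rw [h2, h4, h6, h8]

/-- the good quadruples -/
def bn_W (H₀ Z : Finset (Sym2 V)) (x y z S : V) {m : ℕ} (g : Fin m → V) :
    Finset (V × V × V × V) :=
  (walks5 H₀ (nbr H₀ x ∩ nbr H₀ S) (bn_prv z m g) y).filter (fun w =>
    ¬ (w.1 ∈ bn_T Z x y z S (bn_prv z m g) g ∨
      w.2.1 ∈ bn_T Z x y z S w.1 (bn_sn g w.1) ∨
      w.2.2.1 ∈ bn_T Z x y z S w.2.1 (bn_sn (bn_sn g w.1) w.2.1) ∨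
      w.2.2.2 ∈ bn_T Z x y z S w.2.2.1 (bn_sn (bn_sn (bn_sn g w.1) w.2.1) w.2.2.1)))

theorem bn_W_card {H₀ Z : Finset (Sym2 V)} {k : ℕ} (hZ : ∀ v, (nbr Z v).card ≤ k)
    (x y z S : V) {m : ℕ} (g : Fin m → V) :
    (walks5 H₀ (nbr H₀ x ∩ nbr H₀ S) (bn_prv z m g) y).card ≤
      (bn_W H₀ Z x y z S g).card + 4 * (Fintype.card V ^ 3 * (4 * k + m + 5)) := by
  have h1 := bn_quad (4 * k + m + 5) (bn_T Z x y z S (bn_prv z m g) g)
    (fun a => bn_T Z x y z S a (bn_sn g a))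
    (fun a b => bn_T Z x y z S b (bn_sn (bn_sn g a) b))
    (fun a b c => bn_T Z x y z S c (bn_sn (bn_sn (bn_sn g a) b) c))
    (by have := bn_T_card hZ x y z S (bn_prv z m g) g; omega)
    (fun a => by have := bn_T_card hZ x y z S a (bn_sn g a); omega)
    (fun a b => by have := bn_T_card hZ x y z S b (bn_sn (bn_sn g a) b); omega)
    (fun a b c => by
      have := bn_T_card hZ x y z S c (bn_sn (bn_sn (bn_sn g a) b) c)
      omega)
  have h2 := card_filter_add_card_filter_not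
    (s := walks5 H₀ (nbr H₀ x ∩ nbr H₀ S) (bn_prv z m g) y)
    (fun w => (w.1 ∈ bn_T Z x y z S (bn_prv z m g) g ∨
      w.2.1 ∈ bn_T Z x y z S w.1 (bn_sn g w.1) ∨
      w.2.2.1 ∈ bn_T Z x y z S w.2.1 (bn_sn (bn_sn g w.1) w.2.1) ∨
      w.2.2.2 ∈ bn_T Z x y z S w.2.2.1 (bn_sn (bn_sn (bn_sn g w.1) w.2.1) w.2.2.1)))
  have h3 : ((walks5 H₀ (nbr H₀ x ∩ nbr H₀ S) (bn_prv z m g) y).filter
    (fun w => (w.1 ∈ bn_T Z x y z S (bn_prv z m g) g ∨
      w.2.1 ∈ bn_T Z x y z S w.1 (bn_sn g w.1) ∨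
      w.2.2.1 ∈ bn_T Z x y z S w.2.1 (bn_sn (bn_sn g w.1) w.2.1) ∨
      w.2.2.2 ∈ bn_T Z x y z S w.2.2.1 (bn_sn (bn_sn (bn_sn g w.1) w.2.1) w.2.2.1)))).card ≤
      4 * (Fintype.card V ^ 3 * (4 * k + m + 5)) :=
    (card_le_card (filter_subset_filter _ (subset_univ _))).trans h1
  unfold bn_W
  omega

theorem bn_W_ok {H₀ Z : Finset (Sym2 V)} {x y z S : V} {m : ℕ} {g : Fin m → V}
    (h : BnOK (H₀ \ Z) x y z S m g) {w : V × V × V × V} (hw : w ∈ bn_W H₀ Z x y z S g) :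
    BnOK (H₀ \ Z) x y z S (m + 4) (bn_four g w) ∧
      s(bn_four g w (Fin.last (m + 3)), y) ∈ H₀ \ Z := by
  obtain ⟨a, b, c, d⟩ := w
  unfold bn_W walks5 at hw
  rw [mem_filter, mem_filter] at hw
  obtain ⟨⟨hm, e1, e2, e3, e4, e5⟩, hT⟩ := hw
  simp only [mem_product] at hm
  obtain ⟨ha, hb, hc, hd⟩ := hm
  simp only at e1 e2 e3 e4 e5 hT
  push Not at hT
  obtain ⟨t1, t2, t3, t4⟩ := hT
  have o1 := bn_ext h ha e1 t1
  have o2 := bn_ext o1 hb (by rw [bn_prv_sn]; exact e2) (by rw [bn_prv_sn]; exact t2)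
  have o3 := bn_ext o2 hc (by rw [bn_prv_sn]; exact e3) (by rw [bn_prv_sn]; exact t3)
  have o4 := bn_ext o3 hd (by rw [bn_prv_sn]; exact e4) (by rw [bn_prv_sn]; exact t4)
  refine ⟨o4, ?_⟩
  have h1 : bn_four g (a, b, c, d) (Fin.last (m + 3)) = d := bn_sn_last _ _
  rw [h1]
  refine mem_sdiff.2 ⟨e5, ?_⟩
  rw [Sym2.eq_swap]
  exact (bn_not_T t4).2.2.2.1

/-- a good path -/
theorem bn_good {H : Finset (Sym2 V)} {x y z S : V} {m : ℕ} {p : Fin (m + 4) → V}
    (h : BnOK H x y z S (m + 4) p) (hy : s(p (Fin.last (m + 3)), y) ∈ H) (hSx : S ≠ x)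
    (hSy : s(S, y) ∈ H) (hSz : s(S, z) ∈ H) :
    GoodP (fun _ => True) (m + 6) H x y z S (p : Fin (m + 6 - 2) → V) where
  inj := h.inj
  Sx := hSx
  py := h.ne
  Sy := hSy
  Sz := hSz
  xp := h.xp
  pS := h.pS
  first j hj := ⟨h.first j hj, fun _ _ => trivial, fun _ _ => trivial⟩
  step i j hij := ⟨h.step i j hij, fun _ _ => trivial, fun _ _ => trivial⟩
  last j hj := by
    have h1 : j = Fin.last (m + 3) := by
      apply Fin.ext
      rw [Fin.val_last]
      have : j.val + 1 = m + 6 - 2 := hj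
      omega
    rw [h1]
    exact ⟨hy, fun _ _ => trivial, fun _ _ => trivial⟩
  root := fun _ _ => trivial

theorem bn_three {H₀ Z : Finset (Sym2 V)} {θ : ℝ} (hR : RobN H₀ θ) {k : ℕ}
    (hZ : ∀ v, (nbr Z v).card ≤ k) (x S q : V) :
    nn V / 8 ≤ ((nbr (H₀ \ Z) x ∩ nbr (H₀ \ Z) S ∩ nbr (H₀ \ Z) q).card : ℝ) + 3 * k := by
  have h1 : nbr H₀ x ∩ nbr H₀ S ∩ nbr H₀ q ⊆
      (nbr (H₀ \ Z) x ∩ nbr (H₀ \ Z) S ∩ nbr (H₀ \ Z) q) ∪
        (nbr Z x ∪ (nbr Z S ∪ nbr Z q)) := by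
    intro v hv
    simp only [mem_union, mem_inter, mem_nbr, mem_sdiff] at hv ⊢
    tauto
  have h2 := card_le_card h1
  have h3 := card_union_le (nbr (H₀ \ Z) x ∩ nbr (H₀ \ Z) S ∩ nbr (H₀ \ Z) q)
    (nbr Z x ∪ (nbr Z S ∪ nbr Z q))
  have h4 := card_union_le (nbr Z x) (nbr Z S ∪ nbr Z q)
  have h5 := card_union_le (nbr Z S) (nbr Z q)
  have h6 := hZ x
  have h7 := hZ S
  have h8 := hZ q
  have h9 : (nbr H₀ x ∩ nbr H₀ S ∩ nbr H₀ q).card ≤
      (nbr (H₀ \ Z) x ∩ nbr (H₀ \ Z) S ∩ nbr (H₀ \ Z) q).card + 3 * k := by omega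
  have h10 : ((nbr H₀ x ∩ nbr H₀ S ∩ nbr H₀ q).card : ℝ) ≤
      (nbr (H₀ \ Z) x ∩ nbr (H₀ \ Z) S ∩ nbr (H₀ \ Z) q).card + 3 * k := by exact_mod_cast h9
  exact (hR.three x S q).trans h10

/-- the good paths -/
noncomputable def bn_Q (H₀ Z : Finset (Sym2 V)) (x y z : V) (m : ℕ) :
    Finset (V × (Fin (m + 4) → V)) :=
  (((nbr (H₀ \ Z) y ∩ nbr (H₀ \ Z) z).erase x).sigma (fun S =>
    (bn_G (H₀ \ Z) x y z S m).sigma (fun g => bn_W H₀ Z x y z S g))).image
      (fun t => (t.1, bn_four t.2.1 t.2.2))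

theorem bn_Q_card (H₀ Z : Finset (Sym2 V)) (x y z : V) (m : ℕ) :
    (bn_Q H₀ Z x y z m).card = ∑ S ∈ (nbr (H₀ \ Z) y ∩ nbr (H₀ \ Z) z).erase x,
      ∑ g ∈ bn_G (H₀ \ Z) x y z S m, (bn_W H₀ Z x y z S g).card := by
  unfold bn_Q
  rw [card_image_of_injective, card_sigma]
  · exact sum_congr rfl fun S _ => card_sigma _ _
  · rintro ⟨S, g, w⟩ ⟨S', g', w'⟩ he
    simp only [Prod.mk.injEq] at he
    obtain ⟨h1, h2⟩ := he
    obtain ⟨h3, h4⟩ := bn_four_inj h2
    subst h1 h3 h4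
    rfl

theorem bn_Q_good {H₀ Z : Finset (Sym2 V)} {x y z : V} {m : ℕ}
    {q : V × (Fin (m + 4) → V)} (hq : q ∈ bn_Q H₀ Z x y z m) :
    GoodP (fun _ => True) (m + 6) (H₀ \ Z) x y z q.1 (q.2 : Fin (m + 6 - 2) → V) := by
  unfold bn_Q at hq
  rw [mem_image] at hq
  obtain ⟨⟨S, g, w⟩, hm, rfl⟩ := hq
  rw [mem_sigma, mem_sigma] at hm
  obtain ⟨hS, hg, hw⟩ := hm
  simp only at hS hg hw
  rw [mem_erase, mem_inter, mem_nbr, mem_nbr] at hS
  rw [bn_mem_G] at hg
  obtain ⟨h1, h2⟩ := bn_W_ok hg hw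
  exact bn_good h1 h2 hS.1 (by rw [Sym2.eq_swap]; exact hS.2.1)
    (by rw [Sym2.eq_swap]; exact hS.2.2)

end BN

theorem boostN (h : TemStatement) : BoostNStatement := by
  intro θ hθ
  have hmin : 0 < min θ 1 := lt_min hθ one_pos
  refine ⟨min θ 1 / 100, by positivity, ?_⟩
  intro c hc hev
  obtain ⟨m, rfl⟩ : ∃ m, c = m + 6 := ⟨c - 6, by omega⟩
  refine ⟨2 * 16 ^ (m + 1) / θ, ⌈1000 * (m + 10) / min θ 1⌉₊, by positivity, ?_⟩
  intro V _ _ H₀ hn hR Z hZ r _ hr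
  have hn0 : 1000 * ((m : ℝ) + 10) / min θ 1 ≤ nn V := by
    refine (Nat.le_ceil _).trans ?_
    unfold nn
    exact_mod_cast hn
  rw [div_le_iff₀ hmin] at hn0
  have hnn : 0 ≤ nn V := by
    unfold nn
    positivity
  have hm0 : (0 : ℝ) ≤ m := Nat.cast_nonneg _
  have hn1 : 1000 * ((m : ℝ) + 10) ≤ nn V :=
    hn0.trans (mul_le_of_le_one_right hnn (min_le_right _ _))
  have hn2 : 1000 * ((m : ℝ) + 10) ≤ nn V * θ :=
    hn0.trans (mul_le_mul_of_nonneg_left (min_le_left _ _) hnn)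
  have hη1 : min θ 1 / 100 ≤ 1 / 100 := by
    have := min_le_right θ 1
    linarith
  have hη2 : min θ 1 / 100 ≤ θ / 100 := by
    have := min_le_left θ 1
    linarith
  -- the degrees of `Z`
  set k : ℕ := ⌊min θ 1 / 100 * nn V⌋₊ with hk
  have hk1 : (k : ℝ) ≤ min θ 1 / 100 * nn V := Nat.floor_le (by positivity)
  have hk2 : (k : ℝ) ≤ 1 / 100 * nn V := hk1.trans (mul_le_mul_of_nonneg_right hη1 hnn)
  have hk3 : (k : ℝ) ≤ θ / 100 * nn V := hk1.trans (mul_le_mul_of_nonneg_right hη2 hnn)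
  have hZ' : ∀ v, (nbr Z v).card ≤ k := fun v => Nat.le_floor (hZ v)
  -- the root
  obtain ⟨x, y, z, hxy, hxz, hyz, hr1⟩ := card_eq_three.1 r.2
  have hed : ∀ u v, u ∈ r.1 → v ∈ r.1 → u ≠ v → s(u, v) ∈ H₀ := by
    intro u v hu hv huv
    have := hr (NW.mk_mem_edg.2 ⟨hu, hv, huv⟩)
    rwa [union_empty] at this
  have hxy' : s(x, y) ∈ H₀ := hed x y (by rw [hr1]; simp) (by rw [hr1]; simp) hxy
  have hxz' : s(x, z) ∈ H₀ := hed x z (by rw [hr1]; simp) (by rw [hr1]; simp) hxz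
  have hNL : NW.NL (H₀ \ Z) := fun e he => hR.nl e (mem_sdiff.1 he).1
  have hmain := h (m + 6) hc hev V (H₀ \ Z) (fun _ => True) r x y z (bn_Q H₀ Z x y z m) hNL hr1
    (fun q hq => bn_Q_good hq)
  rw [bn_Q_card] at hmain
  -- the second apex
  have hS1 : nn V / 16 ≤ (((nbr (H₀ \ Z) y ∩ nbr (H₀ \ Z) z).erase x).card : ℝ) := by
    have h1 := bn_three hR hZ' y z z
    have h2 : (nbr (H₀ \ Z) y ∩ nbr (H₀ \ Z) z ∩ nbr (H₀ \ Z) z).card ≤
        ((nbr (H₀ \ Z) y ∩ nbr (H₀ \ Z) z).erase x).card + 1 := by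
      have h3 : nbr (H₀ \ Z) y ∩ nbr (H₀ \ Z) z ∩ nbr (H₀ \ Z) z =
          nbr (H₀ \ Z) y ∩ nbr (H₀ \ Z) z := by rw [inter_assoc, inter_self]
      rw [h3]
      have := pred_card_le_card_erase (s := nbr (H₀ \ Z) y ∩ nbr (H₀ \ Z) z) (a := x)
      omega
    have h3 : ((nbr (H₀ \ Z) y ∩ nbr (H₀ \ Z) z ∩ nbr (H₀ \ Z) z).card : ℝ) ≤
        ((nbr (H₀ \ Z) y ∩ nbr (H₀ \ Z) z).erase x).card + 1 := by exact_mod_cast h2
    linarith
  have hG : ∀ S, (nn V / 16) ^ m ≤ ((bn_G (H₀ \ Z) x y z S m).card : ℝ) := by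
    intro S
    refine bn_greedy (m₀ := m) (by positivity) ?_ m le_rfl
    intro q
    have h1 := bn_three hR hZ' x S q
    linarith
  have hW : ∀ S ∈ (nbr (H₀ \ Z) y ∩ nbr (H₀ \ Z) z).erase x,
      ∀ g ∈ bn_G (H₀ \ Z) x y z S m,
        θ / 2 * nn V ^ 4 ≤ ((bn_W H₀ Z x y z S g).card : ℝ) := by
    intro S hS g hg
    rw [mem_erase, mem_inter, mem_nbr, mem_nbr] at hS
    rw [bn_mem_G] at hg
    have hSy : s(S, y) ∈ H₀ := by rw [Sym2.eq_swap]; exact (mem_sdiff.1 hS.2.1).1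
    have hSz : s(S, z) ∈ H₀ := by rw [Sym2.eq_swap]; exact (mem_sdiff.1 hS.2.2).1
    have hy : y ∈ nbr H₀ x ∩ nbr H₀ S := by
      rw [mem_inter, mem_nbr, mem_nbr]
      exact ⟨hxy', hSy⟩
    have hq : bn_prv z m g ∈ nbr H₀ x ∩ nbr H₀ S := by
      rw [mem_inter, mem_nbr, mem_nbr]
      cases m with
      | zero => exact ⟨hxz', hSz⟩
      | succ m => exact ⟨(mem_sdiff.1 (hg.xp _)).1, (mem_sdiff.1 (hg.pS _)).1⟩
    have h1 := hR.walk x S (Ne.symm hS.1) _ hq _ hy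
    have h2 := bn_W_card (H₀ := H₀) hZ' x y z S g
    have h3 : ((walks5 H₀ (nbr H₀ x ∩ nbr H₀ S) (bn_prv z m g) y).card : ℝ) ≤
        (bn_W H₀ Z x y z S g).card + 4 * (nn V ^ 3 * (4 * k + m + 5)) := by
      unfold nn
      exact_mod_cast h2
    have h4 : nn V ^ 3 * (4 * k + m + 5) ≤ nn V ^ 3 * (θ / 20 * nn V) := by
      refine mul_le_mul_of_nonneg_left ?_ (by positivity)
      nlinarith
    have h5 : nn V ^ 3 * (θ / 20 * nn V) = θ / 20 * nn V ^ 4 := by ring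
    have h6 : 0 ≤ θ * nn V ^ 4 := by positivity
    linarith
  have hsum : (nn V / 16) * ((nn V / 16) ^ m * (θ / 2 * nn V ^ 4)) ≤
      ((∑ S ∈ (nbr (H₀ \ Z) y ∩ nbr (H₀ \ Z) z).erase x,
        ∑ g ∈ bn_G (H₀ \ Z) x y z S m, (bn_W H₀ Z x y z S g).card : ℕ) : ℝ) := by
    push_cast
    have h1 : ∀ S ∈ (nbr (H₀ \ Z) y ∩ nbr (H₀ \ Z) z).erase x,
        (nn V / 16) ^ m * (θ / 2 * nn V ^ 4) ≤
          ∑ g ∈ bn_G (H₀ \ Z) x y z S m, ((bn_W H₀ Z x y z S g).card : ℝ) := by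
      intro S hS
      have h2 := card_nsmul_le_sum (bn_G (H₀ \ Z) x y z S m)
        (fun g => ((bn_W H₀ Z x y z S g).card : ℝ)) (θ / 2 * nn V ^ 4) (hW S hS)
      rw [nsmul_eq_mul] at h2
      exact (mul_le_mul_of_nonneg_right (hG S) (by positivity)).trans h2
    have h2 := card_nsmul_le_sum _ _ _ h1
    rw [nsmul_eq_mul] at h2
    exact (mul_le_mul_of_nonneg_right hS1 (by positivity)).trans h2
  have hfin : (nn V / 16) * ((nn V / 16) ^ m * (θ / 2 * nn V ^ 4)) ≤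
      ((PlA (m + 6) (fun _ => True) (H₀ \ Z) r).card : ℝ) :=
    hsum.trans (by exact_mod_cast hmain)
  have hexp : m + 6 - 1 = m + 5 := rfl
  rw [hexp]
  calc nn V ^ (m + 5) = 2 * 16 ^ (m + 1) / θ *
        ((nn V / 16) * ((nn V / 16) ^ m * (θ / 2 * nn V ^ 4))) := by
        rw [div_pow, pow_succ (16 : ℝ) m, pow_add]
        have h16 : (16 : ℝ) ^ m ≠ 0 := by positivity
        have hθ0 : θ ≠ 0 := hθ.ne'
        field_simp
    _ ≤ _ := mul_le_mul_of_nonneg_left hfin (by positivity)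

end F3.HB
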