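import Pool.Agent.F3.HB.Spec

/-!
# Project F3, block HB, row BR: boosters in the rigid worlds
-/

set_option autoImplicit false
set_option linter.unusedSectionVars false

namespace F3.HB

open Finset NW F1 F3

section

variable {V : Type} [Fintype V] [DecidableEq V]

/-- one vertex of a crossing triangle is alone on its side -/
theorem br_split {sd : V → Bool} {r : Tri V} (hr : Cro sd r) :
    ∃ x y z : V, r.1 = {x, y, z} ∧ x ≠ y ∧ x ≠ z ∧ y ≠ z ∧ sd x ≠ sd y ∧ sd y = sd z := by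
  obtain ⟨a, b, c, hab, hac, hbc, h⟩ := Finset.card_eq_three.1 r.2
  have hne : ¬ (sd a = sd b ∧ sd b = sd c) := by
    rintro ⟨h1, h2⟩
    obtain ⟨u, hu, v, hv, huv⟩ := hr
    rw [h] at hu hv
    simp only [Finset.mem_insert, Finset.mem_singleton] at hu hv
    rcases hu with rfl | rfl | rfl <;> rcases hv with rfl | rfl | rfl <;> simp_all
  by_cases h1 : sd a = sd b
  · refine ⟨c, a, b, ?_, hac.symm, hbc.symm, hab, ?_, h1⟩
    · rw [h]; ext w; simp only [Finset.mem_insert, Finset.mem_singleton]; tauto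
    · intro h2
      exact hne ⟨h1, by rw [h2, h1]⟩
  · by_cases h2 : sd c = sd b
    · exact ⟨a, b, c, h, hab, hac, hbc, h1, h2.symm⟩
    · refine ⟨b, a, c, ?_, hab.symm, hbc, hac, fun h3 => h1 h3.symm, ?_⟩
      · rw [h]; ext w; simp only [Finset.mem_insert, Finset.mem_singleton]; tauto
      · revert h1 h2
        cases sd a <;> cases sd b <;> cases sd c <;> simp

theorem br_co_symm {fl : Bool → Bool} {sd pt : V → Bool} {u v : V} (h : Co fl sd pt u v) :
    Co fl sd pt v u := by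
  unfold Co CoP at h ⊢
  by_cases hs : sd u = sd v
  · right
    rcases h with h | h
    · exact absurd hs h
    · rw [hs]
      split_ifs with hf
      · rw [if_pos hf] at h
        exact h.symm
      · rw [if_neg hf] at h
        exact fun h' => h h'.symm
  · left
    exact fun h' => hs h'.symm

theorem br_co_cross (fl : Bool → Bool) {sd : V → Bool} (pt : V → Bool) {u v : V}
    (h : sd u ≠ sd v) : Co fl sd pt u v := Or.inl h

/-- allowed triangles from three core pairs -/
theorem br_al {fl : Bool → Bool} {sd pt : V → Bool} {al : Tri V → Prop}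
    (hal : ∀ T, alR fl sd pt T → al T) {a b c : V} (hab : Co fl sd pt a b)
    (hac : Co fl sd pt a c) (hbc : Co fl sd pt b c) (hcr : sd a ≠ sd b ∨ sd a ≠ sd c) :
    Al al {a, b, c} := by
  intro T hT
  refine hal T ⟨?_, ?_⟩
  · rcases hcr with h | h
    · exact ⟨a, by rw [hT]; simp, b, by rw [hT]; simp, h⟩
    · exact ⟨a, by rw [hT]; simp, c, by rw [hT]; simp, h⟩
  · intro u hu v hv huv
    rw [hT] at hu hv
    simp only [Finset.mem_insert, Finset.mem_singleton] at hu hv
    rcases hu with rfl | rfl | rfl <;> rcases hv with rfl | rfl | rfl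
    · exact absurd rfl huv
    · exact hab
    · exact hac
    · exact br_co_symm hab
    · exact absurd rfl huv
    · exact hbc
    · exact br_co_symm hac
    · exact br_co_symm hbc
    · exact absurd rfl huv

/-- the counting step -/
theorem br_cnt {H : Finset (Sym2 V)} {fl : Bool → Bool} {sd pt : V → Bool} {At : Finset V}
    (hF : FR H fl sd pt At) {Z : Finset (Sym2 V)} (hZ : Sm (1 / 1000) Z) {L M N G : Finset V}
    (hL : L.card ≤ 4) (hM : M.card ≤ 4) (hMt : ∀ v ∈ M, v ∉ At)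
    (hN : nn V / 10 ≤ (N.card : ℝ))
    (hsub : ∀ p ∈ N, p ∉ At → (∀ v ∈ L, s(v, p) ∉ Z) →
      (∀ v ∈ M, Co fl sd pt v p → s(v, p) ∈ H) → p ∈ G) :
    (9 / 100) * nn V ≤ (G.card : ℝ) := by
  have hn : 0 ≤ nn V := Nat.cast_nonneg _
  set B1 : Finset V := L.biUnion (fun v => nbr Z v) with hB1
  set B2 : Finset V := M.biUnion
    (fun v => univ.filter (fun w => Co fl sd pt v w ∧ s(v, w) ∉ H)) with hB2
  have h1 : (B1.card : ℝ) ≤ 4 * (nn V / 1000) := by
    calc (B1.card : ℝ) ≤ ∑ v ∈ L, ((nbr Z v).card : ℝ) := by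
          exact_mod_cast Finset.card_biUnion_le
      _ ≤ ∑ _v ∈ L, (nn V / 1000) := by
          refine Finset.sum_le_sum fun v _ => ?_
          have := hZ v
          unfold NW.deg at this
          linarith
      _ = (L.card : ℝ) * (nn V / 1000) := by rw [Finset.sum_const, nsmul_eq_mul]
      _ ≤ 4 * (nn V / 1000) := by
          have : (L.card : ℝ) ≤ 4 := by exact_mod_cast hL
          exact mul_le_mul_of_nonneg_right this (by positivity)
  have h2 : (B2.card : ℝ) ≤ 4 * (nn V / 1000) := by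
    calc (B2.card : ℝ) ≤ ∑ v ∈ M,
          ((univ.filter (fun w => Co fl sd pt v w ∧ s(v, w) ∉ H)).card : ℝ) := by
          exact_mod_cast Finset.card_biUnion_le
      _ ≤ ∑ _v ∈ M, (nn V / 1000) :=
          Finset.sum_le_sum fun v hv => hF.miss v (hMt v hv)
      _ = (M.card : ℝ) * (nn V / 1000) := by rw [Finset.sum_const, nsmul_eq_mul]
      _ ≤ 4 * (nn V / 1000) := by
          have : (M.card : ℝ) ≤ 4 := by exact_mod_cast hM
          exact mul_le_mul_of_nonneg_right this (by positivity)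
  have hsub' : N ⊆ G ∪ (At ∪ (B1 ∪ B2)) := by
    intro p hp
    by_contra hcon
    simp only [Finset.mem_union, not_or] at hcon
    obtain ⟨hG, hA, h3, h4⟩ := hcon
    refine hG (hsub p hp hA ?_ ?_)
    · intro v hv hvp
      exact h3 (Finset.mem_biUnion.2 ⟨v, hv, mem_nbr.2 hvp⟩)
    · intro v hv hco
      by_contra hvp
      exact h4 (Finset.mem_biUnion.2 ⟨v, hv, Finset.mem_filter.2 ⟨Finset.mem_univ _, hco, hvp⟩⟩)
  have h3 : (N.card : ℝ) ≤ G.card + (At.card + (B1.card + B2.card)) := by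
    have e1 := Finset.card_le_card hsub'
    have e2 := Finset.card_union_le G (At ∪ (B1 ∪ B2))
    have e3 := Finset.card_union_le At (B1 ∪ B2)
    have e4 := Finset.card_union_le B1 B2
    have e5 : N.card ≤ G.card + (At.card + (B1.card + B2.card)) := by omega
    exact_mod_cast e5
  have h4 := hF.At_card
  linarith

/-- the main step -/
theorem br_core (h : StepStatement) {c : ℕ} (hc : 6 ≤ c) (hce : Even c)
    {H : Finset (Sym2 V)} {fl : Bool → Bool} {sd pt : V → Bool} {At : Finset V}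
    (hn : 25 * (c + 3) ≤ Fintype.card V) (hF : FR H fl sd pt At) {Z : Finset (Sym2 V)}
    (hZ : Sm (1 / 1000) Z) {al : Tri V → Prop} (hal : ∀ T, alR fl sd pt T → al T) {r : Tri V}
    {x y z : V} (hr : r.1 = {x, y, z}) (hxy : s(x, y) ∈ H)
    (hsx : sd x ≠ sd y) (hyz : sd y = sd z) (hz : z ∉ At)
    (hroot : ∀ S, sd S = sd x → pt S = pt x → Al al {S, y, z}) :
    nn V ^ (c - 1) ≤ 20 ^ (c - 1) * ((PlA c al (H \ Z) r).card : ℝ) := by
  have hn0 : (0 : ℝ) ≤ nn V := Nat.cast_nonneg _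
  have hnR : 25 * ((c : ℝ) + 3) ≤ nn V := by
    unfold nn
    exact_mod_cast hn
  set d : ℕ := ⌈nn V / 20⌉₊ with hd
  have hd1 : nn V / 20 ≤ (d : ℝ) := Nat.le_ceil _
  have hd2 : (d : ℝ) < nn V / 20 + 1 := Nat.ceil_lt_add_one (by positivity)
  have hcnt : ∀ G : Finset V, (9 / 100) * nn V ≤ (G.card : ℝ) → d + c + 2 ≤ G.card := by
    intro G hG
    have : ((d + c + 2 : ℕ) : ℝ) ≤ (G.card : ℝ) := by
      push_cast
      linarith
    exact_mod_cast this
  -- the parts
  set cB : Bool := if fl (sd x) = true then pt x else !(pt x) with hcB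
  set cA : Bool := if fl (sd y) = true then pt y else !(pt y) with hcA
  set PB : Finset V := Pa sd pt (sd x) cB with hPB
  set PA : Finset V := Pa sd pt (sd y) cA with hPA
  have hmB : ∀ {p : V}, p ∈ PB ↔ sd p = sd x ∧ pt p = cB := by
    intro p
    rw [hPB]; unfold Pa; simp
  have hmA : ∀ {p : V}, p ∈ PA ↔ sd p = sd y ∧ pt p = cA := by
    intro p
    rw [hPA]; unfold Pa; simp
  have hcoB : ∀ {a p : V}, sd a = sd x → pt a = pt x → p ∈ PB → Co fl sd pt a p := by
    intro a p ha ha' hp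
    obtain ⟨h1, h2⟩ := hmB.1 hp
    right
    rw [h1, h2, ha', hcB]
    by_cases hf : fl (sd x) = true
    · rw [if_pos hf, if_pos hf]
    · rw [if_neg hf, if_neg hf]
      cases pt x <;> simp
  have hcoA : ∀ {p : V}, p ∈ PA → Co fl sd pt y p := by
    intro p hp
    obtain ⟨h1, h2⟩ := hmA.1 hp
    right
    rw [h1, h2, hcA]
    by_cases hf : fl (sd y) = true
    · rw [if_pos hf, if_pos hf]
    · rw [if_neg hf, if_neg hf]
      cases pt y <;> simp
  have hNxB : nn V / 10 ≤ ((nbr H x ∩ PB).card : ℝ) := by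
    refine hF.deg x (sd x) cB (Or.inr ?_)
    rw [hcB]
    by_cases hf : fl (sd x) = true
    · rw [if_pos hf, if_pos hf]
    · rw [if_neg hf, if_neg hf]
      cases pt x <;> simp
  have hNxA : nn V / 10 ≤ ((nbr H x ∩ PA).card : ℝ) := hF.deg x (sd y) cA (Or.inl hsx)
  have hNyA : nn V / 10 ≤ ((nbr H y ∩ PA).card : ℝ) := by
    refine hF.deg y (sd y) cA (Or.inr ?_)
    rw [hcA]
    by_cases hf : fl (sd y) = true
    · rw [if_pos hf, if_pos hf]
    · rw [if_neg hf, if_neg hf]
      cases pt y <;> simp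
  -- candidates
  set 𝒮 : Finset V := univ.filter (fun S => sd S = sd x ∧ pt S = pt x ∧ S ∉ At ∧
    s(S, y) ∈ H \ Z ∧ s(S, z) ∈ H \ Z) with h𝒮
  have hS : ∀ {S : V}, S ∈ 𝒮 → sd S = sd x ∧ pt S = pt x ∧ S ∉ At ∧
      s(S, y) ∈ H \ Z ∧ s(S, z) ∈ H \ Z := by
    intro S hS
    exact (Finset.mem_filter.1 hS).2
  set K : V → ℕ → Finset V := fun S j =>
    ((nbr (H \ Z) x ∩ nbr (H \ Z) S) ∩ (if Even j then PB else PA)) \ At with hK
  have hmK : ∀ {S p : V} {j : ℕ}, p ∈ K S j ↔ ((s(x, p) ∈ H \ Z ∧ s(S, p) ∈ H \ Z) ∧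
      p ∈ (if Even j then PB else PA)) ∧ p ∉ At := by
    intro S p j
    rw [hK]
    simp only [Finset.mem_sdiff, Finset.mem_inter, mem_nbr]
  -- the counting hypotheses
  have hc1 : d + c + 2 ≤ 𝒮.card := by
    refine hcnt _ (br_cnt (L := {y, z}) (M := {z}) (N := nbr H y ∩ Pa sd pt (sd x) (pt x)) hF hZ
      ((Finset.card_le_two).trans (by norm_num)) (by simp) ?_ ?_ ?_)
    · intro v hv
      rw [Finset.mem_singleton] at hv
      rw [hv]; exact hz
    · exact hF.deg y (sd x) (pt x) (Or.inl fun h' => hsx h'.symm)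
    · intro p hp hpA hpZ hpM
      rw [Finset.mem_inter, mem_nbr] at hp
      have hp2 : sd p = sd x ∧ pt p = pt x := by
        have := hp.2
        unfold Pa at this
        simpa using this
      have h1 : s(z, p) ∈ H := by
        refine hpM z (by simp) (br_co_cross fl pt ?_)
        rw [← hyz, hp2.1]
        exact fun h' => hsx h'.symm
      refine Finset.mem_filter.2 ⟨Finset.mem_univ _, hp2.1, hp2.2, hpA, ?_, ?_⟩
      · rw [Sym2.eq_swap]
        exact Finset.mem_sdiff.2 ⟨hp.1, hpZ y (by simp)⟩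
      · rw [Sym2.eq_swap]
        exact Finset.mem_sdiff.2 ⟨h1, hpZ z (by simp)⟩
  have hc2 : ∀ S ∈ 𝒮, d + c + 2 ≤ ((K S 0).filter (fun p => s(z, p) ∈ H \ Z)).card := by
    intro S hS'
    obtain ⟨s1, s2, s3, s4, s5⟩ := hS hS'
    refine hcnt _ (br_cnt (L := {x, S, z}) (M := {S, z}) (N := nbr H x ∩ PB) hF hZ
      ((Finset.card_le_three).trans (by norm_num)) ((Finset.card_le_two).trans (by norm_num))
      ?_ hNxB ?_)
    · intro v hv
      simp only [Finset.mem_insert, Finset.mem_singleton] at hv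
      rcases hv with rfl | rfl
      · exact s3
      · exact hz
    · intro p hp hpA hpZ hpM
      rw [Finset.mem_inter, mem_nbr] at hp
      have hz1 : s(z, p) ∈ H := by
        refine hpM z (by simp) (br_co_cross fl pt ?_)
        rw [← hyz, (hmB.1 hp.2).1]
        exact fun h' => hsx h'.symm
      have hS1 : s(S, p) ∈ H := hpM S (by simp) (hcoB s1 s2 hp.2)
      refine Finset.mem_filter.2 ⟨hmK.2 ⟨⟨⟨?_, ?_⟩, ?_⟩, hpA⟩, ?_⟩
      · exact Finset.mem_sdiff.2 ⟨hp.1, hpZ x (by simp)⟩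
      · exact Finset.mem_sdiff.2 ⟨hS1, hpZ S (by simp)⟩
      · rw [if_pos (by simp)]; exact hp.2
      · exact Finset.mem_sdiff.2 ⟨hz1, hpZ z (by simp)⟩
  have hc3 : ∀ S ∈ 𝒮, ∀ j, j + 4 < c → ∀ q ∈ K S j,
      d + c + 2 ≤ ((K S (j + 1)).filter (fun p => s(q, p) ∈ H \ Z)).card := by
    intro S hS' j _ q hq
    obtain ⟨s1, s2, s3, s4, s5⟩ := hS hS'
    obtain ⟨⟨_, hq1⟩, hqA⟩ := hmK.1 hq
    have hMt : ∀ v ∈ ({S, q} : Finset V), v ∉ At := by
      intro v hv
      simp only [Finset.mem_insert, Finset.mem_singleton] at hv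
      rcases hv with rfl | rfl
      · exact s3
      · exact hqA
    by_cases hj : Even j
    · rw [if_pos hj] at hq1
      have hj1 : ¬ Even (j + 1) := by
        rw [Nat.even_add_one]; exact fun h' => h' hj
      refine hcnt _ (br_cnt (L := {x, S, q}) (M := {S, q}) (N := nbr H x ∩ PA) hF hZ
        ((Finset.card_le_three).trans (by norm_num)) ((Finset.card_le_two).trans (by norm_num))
        hMt hNxA ?_)
      intro p hp hpA hpZ hpM
      rw [Finset.mem_inter, mem_nbr] at hp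
      have hq2 : s(q, p) ∈ H := by
        refine hpM q (by simp) (br_co_cross fl pt ?_)
        rw [(hmB.1 hq1).1, (hmA.1 hp.2).1]
        exact hsx
      have hS1 : s(S, p) ∈ H := by
        refine hpM S (by simp) (br_co_cross fl pt ?_)
        rw [s1, (hmA.1 hp.2).1]
        exact hsx
      refine Finset.mem_filter.2 ⟨hmK.2 ⟨⟨⟨?_, ?_⟩, ?_⟩, hpA⟩, ?_⟩
      · exact Finset.mem_sdiff.2 ⟨hp.1, hpZ x (by simp)⟩
      · exact Finset.mem_sdiff.2 ⟨hS1, hpZ S (by simp)⟩
      · rw [if_neg hj1]; exact hp.2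
      · exact Finset.mem_sdiff.2 ⟨hq2, hpZ q (by simp)⟩
    · rw [if_neg hj] at hq1
      have hj1 : Even (j + 1) := by
        rw [Nat.even_add_one]; exact hj
      refine hcnt _ (br_cnt (L := {x, S, q}) (M := {S, q}) (N := nbr H x ∩ PB) hF hZ
        ((Finset.card_le_three).trans (by norm_num)) ((Finset.card_le_two).trans (by norm_num))
        hMt hNxB ?_)
      intro p hp hpA hpZ hpM
      rw [Finset.mem_inter, mem_nbr] at hp
      have hq2 : s(q, p) ∈ H := by
        refine hpM q (by simp) (br_co_cross fl pt ?_)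
        rw [(hmA.1 hq1).1, (hmB.1 hp.2).1]
        exact fun h' => hsx h'.symm
      have hS1 : s(S, p) ∈ H := hpM S (by simp) (hcoB s1 s2 hp.2)
      refine Finset.mem_filter.2 ⟨hmK.2 ⟨⟨⟨?_, ?_⟩, ?_⟩, hpA⟩, ?_⟩
      · exact Finset.mem_sdiff.2 ⟨hp.1, hpZ x (by simp)⟩
      · exact Finset.mem_sdiff.2 ⟨hS1, hpZ S (by simp)⟩
      · rw [if_pos hj1]; exact hp.2
      · exact Finset.mem_sdiff.2 ⟨hq2, hpZ q (by simp)⟩
  have hc4 : ∀ S ∈ 𝒮, ∀ j, j + 4 = c → ∀ q ∈ K S j,
      d + c + 2 ≤ ((K S (j + 1)).filter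
        (fun p => s(q, p) ∈ H \ Z ∧ s(p, y) ∈ H \ Z)).card := by
    intro S hS' j hjc q hq
    obtain ⟨s1, s2, s3, s4, s5⟩ := hS hS'
    obtain ⟨⟨_, hq1⟩, hqA⟩ := hmK.1 hq
    have hj : Even j := by
      rw [← hjc, Nat.even_add] at hce
      exact hce.2 (by decide)
    rw [if_pos hj] at hq1
    have hj1 : ¬ Even (j + 1) := by
      rw [Nat.even_add_one]; exact fun h' => h' hj
    have hfin : ∀ p, p ∈ PA → p ∉ At → (∀ v ∈ ({x, S, q, y} : Finset V), s(v, p) ∉ Z) →
        s(x, p) ∈ H → s(S, p) ∈ H → s(q, p) ∈ H → s(y, p) ∈ H →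
        p ∈ (K S (j + 1)).filter (fun p => s(q, p) ∈ H \ Z ∧ s(p, y) ∈ H \ Z) := by
      intro p hp hpA hpZ e1 e2 e3 e4
      refine Finset.mem_filter.2 ⟨hmK.2 ⟨⟨⟨?_, ?_⟩, ?_⟩, hpA⟩, ?_, ?_⟩
      · exact Finset.mem_sdiff.2 ⟨e1, hpZ x (by simp)⟩
      · exact Finset.mem_sdiff.2 ⟨e2, hpZ S (by simp)⟩
      · rw [if_neg hj1]; exact hp
      · exact Finset.mem_sdiff.2 ⟨e3, hpZ q (by simp)⟩
      · rw [Sym2.eq_swap]
        exact Finset.mem_sdiff.2 ⟨e4, hpZ y (by simp)⟩
    have hqp : ∀ {p : V}, p ∈ PA → Co fl sd pt q p := by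
      intro p hp
      refine br_co_cross fl pt ?_
      rw [(hmB.1 hq1).1, (hmA.1 hp).1]
      exact hsx
    have hSp : ∀ {p : V}, p ∈ PA → Co fl sd pt S p := by
      intro p hp
      refine br_co_cross fl pt ?_
      rw [s1, (hmA.1 hp).1]
      exact hsx
    have hxp : ∀ {p : V}, p ∈ PA → Co fl sd pt x p := by
      intro p hp
      refine br_co_cross fl pt ?_
      rw [(hmA.1 hp).1]
      exact hsx
    by_cases hxA : x ∈ At
    · have hyA : y ∉ At := fun hy => hF.noAt x hxA y hy hxy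
      refine hcnt _ (br_cnt (L := {x, S, q, y}) (M := {S, q, y}) (N := nbr H x ∩ PA) hF hZ
        Finset.card_le_four ((Finset.card_le_three).trans (by norm_num)) ?_ hNxA ?_)
      · intro v hv
        simp only [Finset.mem_insert, Finset.mem_singleton] at hv
        rcases hv with rfl | rfl | rfl
        · exact s3
        · exact hqA
        · exact hyA
      · intro p hp hpA hpZ hpM
        rw [Finset.mem_inter, mem_nbr] at hp
        exact hfin p hp.2 hpA hpZ hp.1 (hpM S (by simp) (hSp hp.2)) (hpM q (by simp) (hqp hp.2))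
          (hpM y (by simp) (hcoA hp.2))
    · refine hcnt _ (br_cnt (L := {x, S, q, y}) (M := {x, S, q}) (N := nbr H y ∩ PA) hF hZ
        Finset.card_le_four ((Finset.card_le_three).trans (by norm_num)) ?_ hNyA ?_)
      · intro v hv
        simp only [Finset.mem_insert, Finset.mem_singleton] at hv
        rcases hv with rfl | rfl | rfl
        · exact hxA
        · exact s3
        · exact hqA
      · intro p hp hpA hpZ hpM
        rw [Finset.mem_inter, mem_nbr] at hp
        exact hfin p hp.2 hpA hpZ (hpM x (by simp) (hxp hp.2)) (hpM S (by simp) (hSp hp.2))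
          (hpM q (by simp) (hqp hp.2)) hp.1
  -- the faces
  have hc5 : ∀ S ∈ 𝒮, ∀ a, (a = x ∨ a = S) → (∀ p ∈ K S 0, Al al {a, z, p}) ∧
      (∀ j, ∀ p ∈ K S j, ∀ q ∈ K S (j + 1), Al al {a, p, q}) ∧
      ∀ j, j + 3 = c → ∀ p ∈ K S j, Al al {a, p, y} := by
    intro S hS' a ha
    obtain ⟨s1, s2, s3, s4, s5⟩ := hS hS'
    have ha1 : sd a = sd x := by
      rcases ha with rfl | rfl
      · rfl
      · exact s1
    have ha2 : pt a = pt x := by
      rcases ha with rfl | rfl
      · rfl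
      · exact s2
    have haA : ∀ {p : V}, p ∈ PA → Co fl sd pt a p := by
      intro p hp
      refine br_co_cross fl pt ?_
      rw [ha1, (hmA.1 hp).1]
      exact hsx
    have hBA : ∀ {p q : V}, p ∈ PB → q ∈ PA → Co fl sd pt p q := by
      intro p q hp hq
      refine br_co_cross fl pt ?_
      rw [(hmB.1 hp).1, (hmA.1 hq).1]
      exact hsx
    refine ⟨?_, ?_, ?_⟩
    · intro p hp
      obtain ⟨⟨_, hp1⟩, _⟩ := hmK.1 hp
      rw [if_pos (by simp)] at hp1
      refine br_al hal (br_co_cross fl pt ?_) (hcoB ha1 ha2 hp1) (br_co_cross fl pt ?_)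
        (Or.inl ?_)
      · rw [ha1, ← hyz]; exact hsx
      · rw [← hyz, (hmB.1 hp1).1]; exact fun h' => hsx h'.symm
      · rw [ha1, ← hyz]; exact hsx
    · intro j p hp q hq
      obtain ⟨⟨_, hp1⟩, _⟩ := hmK.1 hp
      obtain ⟨⟨_, hq1⟩, _⟩ := hmK.1 hq
      by_cases hj : Even j
      · have hj1 : ¬ Even (j + 1) := by
          rw [Nat.even_add_one]; exact fun h' => h' hj
        rw [if_pos hj] at hp1
        rw [if_neg hj1] at hq1
        refine br_al hal (hcoB ha1 ha2 hp1) (haA hq1) (hBA hp1 hq1) (Or.inr ?_)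
        rw [ha1, (hmA.1 hq1).1]; exact hsx
      · have hj1 : Even (j + 1) := by
          rw [Nat.even_add_one]; exact hj
        rw [if_neg hj] at hp1
        rw [if_pos hj1] at hq1
        refine br_al hal (haA hp1) (hcoB ha1 ha2 hq1) (br_co_symm (hBA hq1 hp1)) (Or.inl ?_)
        rw [ha1, (hmA.1 hp1).1]; exact hsx
    · intro j hjc p hp
      obtain ⟨⟨_, hp1⟩, _⟩ := hmK.1 hp
      have hj : ¬ Even j := by
        rw [← hjc, Nat.even_add] at hce
        intro hj
        exact absurd (hce.1 hj) (by decide)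
      rw [if_neg hj] at hp1
      refine br_al hal (haA hp1) (br_co_cross fl pt ?_) (br_co_symm (hcoA hp1)) (Or.inl ?_)
      · rw [ha1]; exact hsx
      · rw [ha1, (hmA.1 hp1).1]; exact hsx
  have hNL : NW.NL (H \ Z) := fun e he => hF.nl e (Finset.mem_sdiff.1 he).1
  have hfinal : d ^ (c - 1) ≤ (PlA c al (H \ Z) r).card := by
    refine h c hc hce V (H \ Z) al r x y z d 𝒮 K hNL hr hc1 ?_ ?_ hc2 hc3 hc4 hc5
    · intro S hS'
      obtain ⟨s1, s2, s3, s4, s5⟩ := hS hS'
      exact ⟨s4, s5, hroot S s1 s2⟩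
    · intro S _ j p hp
      exact (hmK.1 hp).1.1
  have h1 : nn V ≤ 20 * (d : ℝ) := by linarith
  calc nn V ^ (c - 1) ≤ (20 * (d : ℝ)) ^ (c - 1) := pow_le_pow_left₀ hn0 h1 _
    _ = 20 ^ (c - 1) * (d : ℝ) ^ (c - 1) := mul_pow _ _ _
    _ ≤ 20 ^ (c - 1) * ((PlA c al (H \ Z) r).card : ℝ) := by
        refine mul_le_mul_of_nonneg_left ?_ (by positivity)
        exact_mod_cast hfinal

/-- the root: `z` may be chosen typical -/
theorem br_root {H : Finset (Sym2 V)} {fl : Bool → Bool} {sd pt : V → Bool} {At : Finset V}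
    (hF : FR H fl sd pt At) {E0 : Finset (Sym2 V)} (hE0 : ∀ e ∈ E0, Int sd e ∧ ∃ v ∈ e, v ∉ At)
    {r : Tri V} (hr : Cro sd r) (hrE : NW.edg r.1 ⊆ H ∪ E0) :
    ∃ x y z : V, r.1 = {x, y, z} ∧ x ≠ y ∧ x ≠ z ∧ y ≠ z ∧ sd x ≠ sd y ∧ sd y = sd z ∧
      s(x, y) ∈ H ∧ s(x, z) ∈ H ∧ z ∉ At := by
  obtain ⟨x, y, z, h, hxy, hxz, hyz, h1, h2⟩ := br_split hr
  have hed : NW.edg r.1 = NW.tri x y z := by rw [h]; exact edg_triple hxy hyz hxz
  rw [hed] at hrE
  unfold NW.tri at hrE
  have hint : ∀ {u v : V}, s(u, v) ∈ E0 → sd u = sd v := by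
    intro u v huv
    exact (hE0 _ huv).1 u (by simp) v (by simp)
  have e1 : s(x, y) ∈ H := by
    rcases Finset.mem_union.1 (hrE (show s(x, y) ∈ _ by simp)) with h3 | h3
    · exact h3
    · exact absurd (hint h3) h1
  have e2 : s(x, z) ∈ H := by
    rcases Finset.mem_union.1 (hrE (show s(x, z) ∈ _ by simp)) with h3 | h3
    · exact h3
    · exact absurd (by rw [h2]; exact hint h3) h1
  have e3 : y ∉ At ∨ z ∉ At := by
    rcases Finset.mem_union.1 (hrE (show s(y, z) ∈ _ by simp)) with h3 | h3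
    · by_contra hcon
      push Not at hcon
      exact hF.noAt y hcon.1 z hcon.2 h3
    · obtain ⟨v, hv, hvA⟩ := (hE0 _ h3).2
      rw [Sym2.mem_iff] at hv
      rcases hv with rfl | rfl
      · exact Or.inl hvA
      · exact Or.inr hvA
  rcases e3 with e3 | e3
  · refine ⟨x, z, y, ?_, hxz, hxy, hyz.symm, ?_, h2.symm, e2, e1, e3⟩
    · rw [h]; ext w; simp only [Finset.mem_insert, Finset.mem_singleton]; tauto
    · rw [← h2]; exact h1
  · exact ⟨x, y, z, h, hxy, hxz, hyz, h1, h2, e1, e2, e3⟩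

end

/-- row HB-BR -/
theorem boostR (h : StepStatement) : BoostRStatement := by
  intro c hc hce
  refine ⟨20 ^ (c - 1), 25 * (c + 3), by positivity, ?_⟩
  intro V _ _ H fl sd pt At hn hF
  constructor
  · intro Z hZ r hr hrE
    obtain ⟨x, y, z, h0, hxy, hxz, hyz, h1, h2, e1, e2, e3⟩ :=
      br_root hF (E0 := ∅) (by simp) hr.1 hrE
    refine br_core h hc hce hn hF hZ (fun T hT => hT) h0 e1 h1 h2 e3 ?_
    intro S hS1 hS2
    refine br_al (fun T hT => hT) (br_co_cross fl pt ?_) (br_co_cross fl pt ?_) ?_ (Or.inl ?_)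
    · rw [hS1]; exact h1
    · rw [hS1, ← h2]; exact h1
    · exact hr.2 y (by rw [h0]; simp) z (by rw [h0]; simp) hyz
    · rw [hS1]; exact h1
  · intro e₀ he₀ hint hH Z hZ r hr hrE
    have hcr : Cro sd r := by
      rcases hr with hr | hr
      · exact hr.1
      · exact hr.1
    obtain ⟨x, y, z, h0, hxy, hxz, hyz, h1, h2, e1, e2, e3⟩ :=
      br_root hF (E0 := {e₀}) (by
        intro e he
        rw [Finset.mem_singleton] at he
        rw [he]
        exact ⟨hint, he₀⟩) hcr hrE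
    refine br_core h hc hce hn hF hZ (fun T hT => Or.inl hT) h0 e1 h1 h2 e3 ?_
    intro S hS1 hS2
    rcases hr with hr | hr
    · refine br_al (fun T hT => Or.inl hT) (br_co_cross fl pt ?_) (br_co_cross fl pt ?_) ?_
        (Or.inl ?_)
      · rw [hS1]; exact h1
      · rw [hS1, ← h2]; exact h1
      · exact hr.2 y (by rw [h0]; simp) z (by rw [h0]; simp) hyz
      · rw [hS1]; exact h1
    · intro T hT
      refine Or.inr ⟨⟨S, by rw [hT]; simp, y, by rw [hT]; simp, by rw [hS1]; exact h1⟩, ?_⟩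
      have he : e₀ = s(y, z) := by
        have h3 := hr.2
        rw [h0, edg_triple hxy hyz hxz] at h3
        unfold NW.tri at h3
        simp only [Finset.mem_insert, Finset.mem_singleton] at h3
        rcases h3 with h3 | h3 | h3
        · exact absurd (hint x (by rw [h3]; simp) y (by rw [h3]; simp)) h1
        · exact h3
        · exact absurd ((hint x (by rw [h3]; simp) z (by rw [h3]; simp)).trans h2.symm) h1
      have hSy : S ≠ y := by
        rintro rfl
        exact h1 hS1.symm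
      have hSz : S ≠ z := by
        rintro rfl
        exact h1 (by rw [h2, hS1])
      rw [hT, edg_triple hSy hyz hSz, he]
      unfold NW.tri
      simp

end F3.HB
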