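import Pool.Agent.F3.HB.Spec

/-!
# Project F3, block HB, row BS: boosters for internal roots
-/

set_option autoImplicit false
set_option linter.unusedSectionVars false

namespace F3.HB

open Finset NW F1 F3

section BS

variable {V : Type} [Fintype V] [DecidableEq V]

private theorem bs_al (t : Finset V) : Al (fun _ : Tri V => True) t := fun _ _ => trivial

private theorem bs_ie (B X Y W : Finset V) (hX : X ⊆ B) (hY : Y ⊆ B) (hW : W ⊆ B) :
    X.card + Y.card + W.card ≤ B.card + (X ∩ Y).card + (X ∩ W).card + (Y ∩ W).card := by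
  have h1 := Finset.card_union_add_card_inter X Y
  have h2 := Finset.card_union_add_card_inter (X ∪ Y) W
  have h3 : (X ∪ Y) ∩ W = (X ∩ W) ∪ (Y ∩ W) := Finset.union_inter_distrib_right X Y W
  have h4 := Finset.card_union_le (X ∩ W) (Y ∩ W)
  have h5 : (X ∪ Y ∪ W).card ≤ B.card :=
    Finset.card_le_card (Finset.union_subset (Finset.union_subset hX hY) hW)
  rw [h3] at h2
  omega

/-- the non-neighbours of `v` in `A` -/
private def bsM (H' : Finset (Sym2 V)) (A : Finset V) (v : V) : Finset V :=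
  A.filter (fun p => s(v, p) ∉ H')

private theorem bs_sides (sd : V → Bool) (b : Bool) :
    (Sd sd b).card + (Sd sd (!b)).card = Fintype.card V := by
  have h : Sd sd (!b) = univ.filter (fun v => ¬ sd v = b) := by
    unfold Sd
    ext v
    simp only [mem_filter, mem_univ, true_and]
    cases sd v <;> cases b <;> simp
  rw [h]
  unfold Sd
  rw [Finset.card_filter_add_card_filter_not, Finset.card_univ]

/-- typical vertices miss few vertices -/
private theorem bs_typ {H Z : Finset (Sym2 V)} {sd : V → Bool} {At : Finset V} (hF : FG H sd At)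
    (hZ : Sm (1 / 1000) Z) {b : Bool} {v : V} (hv : sd v = b) (hvA : v ∉ At) :
    ((bsM (H \ Z) (Sd sd (!b)) v).card : ℝ) ≤ (2 / 1000) * nn V := by
  have h1 := hF.miss v hvA
  rw [hv] at h1
  have h2 := hZ v
  have h3 : bsM (H \ Z) (Sd sd (!b)) v ⊆
      (Sd sd (!b)).filter (fun w => s(v, w) ∉ H) ∪ nbr Z v := by
    intro p hp
    unfold bsM at hp
    rw [mem_filter, mem_sdiff] at hp
    rw [mem_union, mem_filter]
    by_cases h : s(v, p) ∈ H
    · right
      unfold nbr
      rw [mem_filter]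
      refine ⟨mem_univ _, ?_⟩
      by_contra h'
      exact hp.2 ⟨h, h'⟩
    · exact Or.inl ⟨hp.1, h⟩
  have h4 := (Finset.card_le_card h3).trans (Finset.card_union_le _ _)
  have h5 : ((bsM (H \ Z) (Sd sd (!b)) v).card : ℝ) ≤
      (((Sd sd (!b)).filter (fun w => s(v, w) ∉ H)).card : ℝ) + ((nbr Z v).card : ℝ) := by
    exact_mod_cast h4
  have h6 : ((nbr Z v).card : ℝ) ≤ 1 / 1000 * nn V := h2
  linarith

/-- a bound for the missed vertices from a bound for the neighbours -/
private theorem bs_gen {H Z : Finset (Sym2 V)} (hZ : Sm (1 / 1000) Z) {A : Finset V} {v : V}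
    {t : ℝ} (hv : t * nn V ≤ ((nbr H v ∩ A).card : ℝ)) :
    ((bsM (H \ Z) A v).card : ℝ) + t * nn V ≤ (A.card : ℝ) + (1 / 1000) * nn V := by
  have h2 := hZ v
  have h3 : bsM (H \ Z) A v ⊆ (A \ (nbr H v ∩ A)) ∪ nbr Z v := by
    intro p hp
    unfold bsM at hp
    rw [mem_filter, mem_sdiff] at hp
    rw [mem_union, mem_sdiff]
    by_cases h : s(v, p) ∈ H
    · right
      unfold nbr
      rw [mem_filter]
      refine ⟨mem_univ _, ?_⟩
      by_contra h'
      exact hp.2 ⟨h, h'⟩
    · left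
      refine ⟨hp.1, fun h' => h ?_⟩
      rw [mem_inter] at h'
      unfold nbr at h'
      exact (mem_filter.1 h'.1).2
  have h4 := (Finset.card_le_card h3).trans (Finset.card_union_le _ _)
  have h5 := Finset.card_sdiff_add_card_eq_card (Finset.inter_subset_right :
    nbr H v ∩ A ⊆ A)
  have h6 : (bsM (H \ Z) A v).card + (nbr H v ∩ A).card ≤ A.card + (nbr Z v).card := by omega
  have h7 : ((bsM (H \ Z) A v).card : ℝ) + ((nbr H v ∩ A).card : ℝ) ≤
      (A.card : ℝ) + ((nbr Z v).card : ℝ) := by exact_mod_cast h6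
  have h8 : ((nbr Z v).card : ℝ) ≤ 1 / 1000 * nn V := h2
  linarith

private theorem bs_core (hst : StepStatement) {c : ℕ} (hc : 6 ≤ c) (hce : Even c)
    (H Z : Finset (Sym2 V)) (sd : V → Bool) (At : Finset V)
    (hn : 1000 * (c + 3) ≤ Fintype.card V) (hF : FG H sd At) (hZ : Sm (1 / 1000) Z) (r : Tri V)
    (x y z : V) (b : Bool) (hxb : sd x = b) (hyb : sd y = b) (hzb : sd z = b)
    (hr : r.1 = {x, y, z}) (hxy : s(x, y) ∈ H) (hxz : s(x, z) ∈ H)
    (hyz : (33 / 1000) * nn V ≤ ((nbr H y ∩ nbr H z ∩ Sd sd b).card : ℝ)) :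
    nn V ^ (c - 1) ≤ 200 ^ (c - 1) * ((PlA c (fun _ => True) (H \ Z) r).card : ℝ) := by
  have hnn : (1000 : ℝ) * (c + 3) ≤ nn V := by
    unfold nn
    exact_mod_cast hn
  have hc0 : (6 : ℝ) ≤ c := by exact_mod_cast hc
  have hAt := hF.At_card
  set A := Sd sd (!b) with hAdef
  -- sizes of the sides
  have hsd := bs_sides sd b
  have hA1 : (A.card : ℝ) ≤ (501 / 1000) * nn V := hF.side _
  have hA2 : (499 / 1000) * nn V ≤ (A.card : ℝ) := by
    have h1 := hF.side b
    have h2 : ((Sd sd b).card : ℝ) + (A.card : ℝ) = nn V := by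
      unfold nn
      exact_mod_cast hsd
    linarith
  -- missed vertices
  have hside : ∀ v, sd v = b → ((bsM (H \ Z) A v).card : ℝ) ≤ (132 / 1000) * nn V := by
    intro v hv
    have h1 := hF.cross v
    rw [hv] at h1
    have h2 := bs_gen hZ h1
    rw [← hAdef] at h2
    linarith
  have htyp : ∀ v, sd v = b → v ∉ At → ((bsM (H \ Z) A v).card : ℝ) ≤ (2 / 1000) * nn V :=
    fun v hv hvA => bs_typ hF hZ hv hvA
  have hint : ∀ q ∈ A, ((bsM (H \ Z) A q).card : ℝ) ≤ (302 / 1000) * nn V := by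
    intro q hq
    have hq' : sd q = !b := by
      rw [hAdef] at hq
      exact (mem_filter.1 hq).2
    have h1 := hF.int q
    rw [hq'] at h1
    have h2 := bs_gen (H := H) (t := 1 / 5) hZ (A := A) (v := q) (by rw [hAdef]; linarith)
    linarith
  -- at most one atypical vertex
  have hxyA : x ∈ At → y ∉ At := fun h1 h2 => hF.noAt x h1 y h2 hxy
  have hxzA : x ∈ At → z ∉ At := fun h1 h2 => hF.noAt x h1 z h2 hxz
  have hxz2 : ((bsM (H \ Z) A x).card : ℝ) + ((bsM (H \ Z) A z).card : ℝ) ≤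
      (134 / 1000) * nn V := by
    by_cases h : x ∈ At
    · have h1 := hside x hxb
      have h2 := htyp z hzb (hxzA h)
      linarith
    · have h1 := hside z hzb
      have h2 := htyp x hxb h
      linarith
  have hxy2 : ((bsM (H \ Z) A x).card : ℝ) + ((bsM (H \ Z) A y).card : ℝ) ≤
      (134 / 1000) * nn V := by
    by_cases h : x ∈ At
    · have h1 := hside x hxb
      have h2 := htyp y hyb (hxyA h)
      linarith
    · have h1 := hside y hyb
      have h2 := htyp x hxb h
      linarith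
  -- the parameter
  set d := Fintype.card V / 100 with hd
  have hd1 : (d : ℝ) ≤ nn V / 100 := by
    unfold nn
    rw [hd]
    exact Nat.cast_div_le
  have hd2 : nn V ≤ 200 * (d : ℝ) := by
    have h1 : Fintype.card V ≤ 200 * d := by omega
    unfold nn
    exact_mod_cast h1
  have hdc : ((d + c + 2 : ℕ) : ℝ) ≤ (12 / 1000) * nn V := by
    push_cast
    linarith
  -- the candidates
  let 𝒮 : Finset V := (nbr H y ∩ nbr H z ∩ Sd sd b).filter
    (fun S => S ∉ At ∧ s(S, y) ∈ H \ Z ∧ s(S, z) ∈ H \ Z)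
  let K : V → ℕ → Finset V := fun S _ => A.filter
    (fun p => p ∉ At ∧ s(x, p) ∈ H \ Z ∧ s(S, p) ∈ H \ Z)
  have hS : ∀ S ∈ 𝒮, sd S = b ∧ S ∉ At ∧ s(S, y) ∈ H \ Z ∧ s(S, z) ∈ H \ Z := by
    intro S hS
    have h1 := mem_filter.1 hS
    exact ⟨(mem_filter.1 (mem_inter.1 h1.1).2).2, h1.2⟩
  have hS1 : d + c + 2 ≤ 𝒮.card := by
    have h1 : nbr H y ∩ nbr H z ∩ Sd sd b ⊆ 𝒮 ∪ (At ∪ (nbr Z y ∪ nbr Z z)) := by
      intro S hS
      by_cases h2 : S ∈ At
      · exact mem_union_right _ (mem_union_left _ h2)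
      by_cases h3 : S ∈ nbr Z y
      · exact mem_union_right _ (mem_union_right _ (mem_union_left _ h3))
      by_cases h4 : S ∈ nbr Z z
      · exact mem_union_right _ (mem_union_right _ (mem_union_right _ h4))
      refine mem_union_left _ (mem_filter.2 ⟨hS, h2, ?_, ?_⟩)
      · rw [Sym2.eq_swap, mem_sdiff]
        refine ⟨(mem_filter.1 (mem_inter.1 (mem_inter.1 hS).1).1).2, fun h5 => h3 ?_⟩
        exact mem_filter.2 ⟨mem_univ _, h5⟩
      · rw [Sym2.eq_swap, mem_sdiff]
        refine ⟨(mem_filter.1 (mem_inter.1 (mem_inter.1 hS).1).2).2, fun h5 => h4 ?_⟩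
        exact mem_filter.2 ⟨mem_univ _, h5⟩
    have h2 := Finset.card_le_card h1
    have h3 := Finset.card_union_le 𝒮 (At ∪ (nbr Z y ∪ nbr Z z))
    have h4 := Finset.card_union_le At (nbr Z y ∪ nbr Z z)
    have h5 := Finset.card_union_le (nbr Z y) (nbr Z z)
    have h6 : (nbr H y ∩ nbr H z ∩ Sd sd b).card ≤
        𝒮.card + At.card + (nbr Z y).card + (nbr Z z).card := by omega
    have h7 : ((nbr H y ∩ nbr H z ∩ Sd sd b).card : ℝ) ≤
        (𝒮.card : ℝ) + (At.card : ℝ) + ((nbr Z y).card : ℝ) + ((nbr Z z).card : ℝ) := by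
      exact_mod_cast h6
    have h8 : ((nbr Z y).card : ℝ) ≤ 1 / 1000 * nn V := hZ y
    have h9 : ((nbr Z z).card : ℝ) ≤ 1 / 1000 * nn V := hZ z
    have h10 : ((d + c + 2 : ℕ) : ℝ) ≤ (𝒮.card : ℝ) := by linarith
    exact_mod_cast h10
  have key : d ^ (c - 1) ≤ (PlA c (fun _ => True) (H \ Z) r).card := by
    refine hst c hc hce V (H \ Z) (fun _ => True) r x y z d 𝒮 K ?_ hr hS1 ?_ ?_ ?_ ?_ ?_ ?_
    · exact fun e he => hF.nl e (mem_sdiff.1 he).1
    · intro S hS'
      exact ⟨(hS S hS').2.2.1, (hS S hS').2.2.2, bs_al _⟩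
    · intro S _ j p hp
      exact ⟨(mem_filter.1 hp).2.2.1, (mem_filter.1 hp).2.2.2⟩
    · intro S hS'
      obtain ⟨hSb, hSA, -, -⟩ := hS S hS'
      have h1 : A ⊆ (K S 0).filter (fun p => s(z, p) ∈ H \ Z) ∪
          (At ∪ (bsM (H \ Z) A x ∪ (bsM (H \ Z) A z ∪ bsM (H \ Z) A S))) := by
        intro p hp
        by_cases h2 : p ∈ At
        · exact mem_union_right _ (mem_union_left _ h2)
        by_cases h3 : s(x, p) ∈ H \ Z
        swap
        · exact mem_union_right _ (mem_union_right _ (mem_union_left _ (mem_filter.2 ⟨hp, h3⟩)))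
        by_cases h4 : s(z, p) ∈ H \ Z
        swap
        · exact mem_union_right _ (mem_union_right _ (mem_union_right _ (mem_union_left _
            (mem_filter.2 ⟨hp, h4⟩))))
        by_cases h5 : s(S, p) ∈ H \ Z
        swap
        · exact mem_union_right _ (mem_union_right _ (mem_union_right _ (mem_union_right _
            (mem_filter.2 ⟨hp, h5⟩))))
        exact mem_union_left _ (mem_filter.2 ⟨mem_filter.2 ⟨hp, h2, h3, h5⟩, h4⟩)
      have h2 := Finset.card_le_card h1
      have h3 := Finset.card_union_le ((K S 0).filter (fun p => s(z, p) ∈ H \ Z))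
          (At ∪ (bsM (H \ Z) A x ∪ (bsM (H \ Z) A z ∪ bsM (H \ Z) A S)))
      have h4 := Finset.card_union_le At (bsM (H \ Z) A x ∪ (bsM (H \ Z) A z ∪ bsM (H \ Z) A S))
      have h5 := Finset.card_union_le (bsM (H \ Z) A x) (bsM (H \ Z) A z ∪ bsM (H \ Z) A S)
      have h6 := Finset.card_union_le (bsM (H \ Z) A z) (bsM (H \ Z) A S)
      have h7 : A.card ≤ ((K S 0).filter (fun p => s(z, p) ∈ H \ Z)).card + At.card +
          (bsM (H \ Z) A x).card + (bsM (H \ Z) A z).card + (bsM (H \ Z) A S).card := by omega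
      have h8 : (A.card : ℝ) ≤ (((K S 0).filter (fun p => s(z, p) ∈ H \ Z)).card : ℝ) +
          (At.card : ℝ) + ((bsM (H \ Z) A x).card : ℝ) + ((bsM (H \ Z) A z).card : ℝ) +
          ((bsM (H \ Z) A S).card : ℝ) := by exact_mod_cast h7
      have h9 := htyp S hSb hSA
      have h10 : ((d + c + 2 : ℕ) : ℝ) ≤
          (((K S 0).filter (fun p => s(z, p) ∈ H \ Z)).card : ℝ) := by linarith
      exact_mod_cast h10
    · intro S hS' j _ q hq
      obtain ⟨hSb, hSA, -, -⟩ := hS S hS'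
      have hqA : q ∈ A := (mem_filter.1 hq).1
      have h1 : A ⊆ (K S (j + 1)).filter (fun p => s(q, p) ∈ H \ Z) ∪
          (At ∪ (bsM (H \ Z) A x ∪ (bsM (H \ Z) A q ∪ bsM (H \ Z) A S))) := by
        intro p hp
        by_cases h2 : p ∈ At
        · exact mem_union_right _ (mem_union_left _ h2)
        by_cases h3 : s(x, p) ∈ H \ Z
        swap
        · exact mem_union_right _ (mem_union_right _ (mem_union_left _ (mem_filter.2 ⟨hp, h3⟩)))
        by_cases h4 : s(q, p) ∈ H \ Z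
        swap
        · exact mem_union_right _ (mem_union_right _ (mem_union_right _ (mem_union_left _
            (mem_filter.2 ⟨hp, h4⟩))))
        by_cases h5 : s(S, p) ∈ H \ Z
        swap
        · exact mem_union_right _ (mem_union_right _ (mem_union_right _ (mem_union_right _
            (mem_filter.2 ⟨hp, h5⟩))))
        exact mem_union_left _ (mem_filter.2 ⟨mem_filter.2 ⟨hp, h2, h3, h5⟩, h4⟩)
      have h2 := Finset.card_le_card h1
      have h3 := Finset.card_union_le ((K S (j + 1)).filter (fun p => s(q, p) ∈ H \ Z))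
          (At ∪ (bsM (H \ Z) A x ∪ (bsM (H \ Z) A q ∪ bsM (H \ Z) A S)))
      have h4 := Finset.card_union_le At (bsM (H \ Z) A x ∪ (bsM (H \ Z) A q ∪ bsM (H \ Z) A S))
      have h5 := Finset.card_union_le (bsM (H \ Z) A x) (bsM (H \ Z) A q ∪ bsM (H \ Z) A S)
      have h6 := Finset.card_union_le (bsM (H \ Z) A q) (bsM (H \ Z) A S)
      have h7 : A.card ≤ ((K S (j + 1)).filter (fun p => s(q, p) ∈ H \ Z)).card + At.card +
          (bsM (H \ Z) A x).card + (bsM (H \ Z) A q).card + (bsM (H \ Z) A S).card := by omega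
      have h8 : (A.card : ℝ) ≤ (((K S (j + 1)).filter (fun p => s(q, p) ∈ H \ Z)).card : ℝ) +
          (At.card : ℝ) + ((bsM (H \ Z) A x).card : ℝ) + ((bsM (H \ Z) A q).card : ℝ) +
          ((bsM (H \ Z) A S).card : ℝ) := by exact_mod_cast h7
      have h9 := htyp S hSb hSA
      have h9' := hside x hxb
      have h9'' := hint q hqA
      have h10 : ((d + c + 2 : ℕ) : ℝ) ≤
          (((K S (j + 1)).filter (fun p => s(q, p) ∈ H \ Z)).card : ℝ) := by linarith
      exact_mod_cast h10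
    · intro S hS' j _ q hq
      obtain ⟨hSb, hSA, -, -⟩ := hS S hS'
      have hqA : q ∈ A := (mem_filter.1 hq).1
      have h1 : A ⊆ (K S (j + 1)).filter (fun p => s(q, p) ∈ H \ Z ∧ s(p, y) ∈ H \ Z) ∪
          (At ∪ (bsM (H \ Z) A x ∪ (bsM (H \ Z) A q ∪ (bsM (H \ Z) A S ∪
            bsM (H \ Z) A y)))) := by
        intro p hp
        by_cases h2 : p ∈ At
        · exact mem_union_right _ (mem_union_left _ h2)
        by_cases h3 : s(x, p) ∈ H \ Z
        swap
        · exact mem_union_right _ (mem_union_right _ (mem_union_left _ (mem_filter.2 ⟨hp, h3⟩)))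
        by_cases h4 : s(q, p) ∈ H \ Z
        swap
        · exact mem_union_right _ (mem_union_right _ (mem_union_right _ (mem_union_left _
            (mem_filter.2 ⟨hp, h4⟩))))
        by_cases h5 : s(S, p) ∈ H \ Z
        swap
        · exact mem_union_right _ (mem_union_right _ (mem_union_right _ (mem_union_right _
            (mem_union_left _ (mem_filter.2 ⟨hp, h5⟩)))))
        by_cases h6 : s(y, p) ∈ H \ Z
        swap
        · exact mem_union_right _ (mem_union_right _ (mem_union_right _ (mem_union_right _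
            (mem_union_right _ (mem_filter.2 ⟨hp, h6⟩)))))
        refine mem_union_left _ (mem_filter.2 ⟨mem_filter.2 ⟨hp, h2, h3, h5⟩, h4, ?_⟩)
        rwa [Sym2.eq_swap]
      have h2 := Finset.card_le_card h1
      have h3 := Finset.card_union_le
          ((K S (j + 1)).filter (fun p => s(q, p) ∈ H \ Z ∧ s(p, y) ∈ H \ Z))
          (At ∪ (bsM (H \ Z) A x ∪ (bsM (H \ Z) A q ∪ (bsM (H \ Z) A S ∪ bsM (H \ Z) A y))))
      have h4 := Finset.card_union_le At
        (bsM (H \ Z) A x ∪ (bsM (H \ Z) A q ∪ (bsM (H \ Z) A S ∪ bsM (H \ Z) A y)))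
      have h5 := Finset.card_union_le (bsM (H \ Z) A x)
        (bsM (H \ Z) A q ∪ (bsM (H \ Z) A S ∪ bsM (H \ Z) A y))
      have h6 := Finset.card_union_le (bsM (H \ Z) A q) (bsM (H \ Z) A S ∪ bsM (H \ Z) A y)
      have h6' := Finset.card_union_le (bsM (H \ Z) A S) (bsM (H \ Z) A y)
      have h7 : A.card ≤
          ((K S (j + 1)).filter (fun p => s(q, p) ∈ H \ Z ∧ s(p, y) ∈ H \ Z)).card + At.card +
          (bsM (H \ Z) A x).card + (bsM (H \ Z) A q).card + (bsM (H \ Z) A S).card +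
          (bsM (H \ Z) A y).card := by omega
      have h8 : (A.card : ℝ) ≤
          (((K S (j + 1)).filter (fun p => s(q, p) ∈ H \ Z ∧ s(p, y) ∈ H \ Z)).card : ℝ) +
          (At.card : ℝ) + ((bsM (H \ Z) A x).card : ℝ) + ((bsM (H \ Z) A q).card : ℝ) +
          ((bsM (H \ Z) A S).card : ℝ) + ((bsM (H \ Z) A y).card : ℝ) := by exact_mod_cast h7
      have h9 := htyp S hSb hSA
      have h9'' := hint q hqA
      have h10 : ((d + c + 2 : ℕ) : ℝ) ≤
          (((K S (j + 1)).filter (fun p => s(q, p) ∈ H \ Z ∧ s(p, y) ∈ H \ Z)).card : ℝ) := by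
        linarith
      exact_mod_cast h10
    · intro S _ a _
      exact ⟨fun p _ => bs_al _, fun j p _ q _ => bs_al _, fun j _ p _ => bs_al _⟩
  have hn0 : 0 ≤ nn V := by
    unfold nn
    positivity
  calc nn V ^ (c - 1) ≤ (200 * (d : ℝ)) ^ (c - 1) := pow_le_pow_left₀ hn0 hd2 _
    _ = 200 ^ (c - 1) * ((d ^ (c - 1) : ℕ) : ℝ) := by rw [mul_pow]; push_cast; rfl
    _ ≤ 200 ^ (c - 1) * ((PlA c (fun _ => True) (H \ Z) r).card : ℝ) := by
        have : ((d ^ (c - 1) : ℕ) : ℝ) ≤ ((PlA c (fun _ => True) (H \ Z) r).card : ℝ) := by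
          exact_mod_cast key
        exact mul_le_mul_of_nonneg_left this (by positivity)

end BS

theorem boostS (h : StepStatement) : BoostSStatement := by
  intro c hc hce
  refine ⟨200 ^ (c - 1), 1000 * (c + 3), by positivity, ?_⟩
  intro V _ _ H sd At hn hF Z hZ r hr hrH
  obtain ⟨x, y, z, hxy, hxz, hyz, hxyz⟩ := Finset.card_eq_three.1 r.2
  have hmx : x ∈ r.1 := by rw [hxyz]; simp
  have hmy : y ∈ r.1 := by rw [hxyz]; simp
  have hmz : z ∈ r.1 := by rw [hxyz]; simp
  have hs : ∀ u ∈ r.1, ∀ v ∈ r.1, sd u = sd v := by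
    intro u hu v hv
    by_contra hne
    exact hr ⟨u, hu, v, hv, hne⟩
  have he : ∀ u ∈ r.1, ∀ v ∈ r.1, u ≠ v → s(u, v) ∈ H := by
    intro u hu v hv huv
    apply hrH
    unfold NW.edg
    rw [mem_filter, Finset.mk_mem_sym2_iff]
    exact ⟨⟨hu, hv⟩, fun hd => huv (Sym2.mk_isDiag_iff.1 hd)⟩
  set b := sd x with hb
  have hyb : sd y = b := hs y hmy x hmx
  have hzb : sd z = b := hs z hmz x hmx
  have h1 := hF.int x
  have h2 := hF.int y
  have h3 := hF.int z
  rw [hyb] at h2
  rw [hzb] at h3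
  have hB := hF.side b
  have hie := bs_ie (Sd sd b) (nbr H x ∩ Sd sd b) (nbr H y ∩ Sd sd b) (nbr H z ∩ Sd sd b)
    Finset.inter_subset_right Finset.inter_subset_right Finset.inter_subset_right
  have e1 : (nbr H x ∩ Sd sd b) ∩ (nbr H y ∩ Sd sd b) = nbr H x ∩ nbr H y ∩ Sd sd b :=
    (Finset.inter_inter_distrib_right _ _ _).symm
  have e2 : (nbr H x ∩ Sd sd b) ∩ (nbr H z ∩ Sd sd b) = nbr H x ∩ nbr H z ∩ Sd sd b :=
    (Finset.inter_inter_distrib_right _ _ _).symm
  have e3 : (nbr H y ∩ Sd sd b) ∩ (nbr H z ∩ Sd sd b) = nbr H y ∩ nbr H z ∩ Sd sd b :=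
    (Finset.inter_inter_distrib_right _ _ _).symm
  rw [e1, e2, e3] at hie
  have hie' : ((nbr H x ∩ Sd sd b).card : ℝ) + ((nbr H y ∩ Sd sd b).card : ℝ) +
      ((nbr H z ∩ Sd sd b).card : ℝ) ≤ ((Sd sd b).card : ℝ) +
      ((nbr H x ∩ nbr H y ∩ Sd sd b).card : ℝ) + ((nbr H x ∩ nbr H z ∩ Sd sd b).card : ℝ) +
      ((nbr H y ∩ nbr H z ∩ Sd sd b).card : ℝ) := by exact_mod_cast hie
  rcases le_or_gt ((33 / 1000) * nn V) ((nbr H y ∩ nbr H z ∩ Sd sd b).card : ℝ) with h4 | h4
  · exact bs_core h hc hce H Z sd At hn hF hZ r x y z b hb.symm hyb hzb hxyz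
      (he x hmx y hmy hxy) (he x hmx z hmz hxz) h4
  rcases le_or_gt ((33 / 1000) * nn V) ((nbr H x ∩ nbr H z ∩ Sd sd b).card : ℝ) with h5 | h5
  · refine bs_core h hc hce H Z sd At hn hF hZ r y x z b hyb hb.symm hzb ?_
      (he y hmy x hmx hxy.symm) (he y hmy z hmz hyz) h5
    rw [hxyz, Finset.insert_comm]
  · refine bs_core h hc hce H Z sd At hn hF hZ r z x y b hzb hb.symm hyb ?_
      (he z hmz x hmx hxz.symm) (he z hmz y hmy hyz.symm) (by linarith)
    rw [hxyz]
    ext u
    simp only [mem_insert, mem_singleton]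
    tauto

end F3.HB
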