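import Pool.Agent.F3.HB.Spec
import Pool.Agent.F2.Grid

/-!
# Project F3, block HB, row G1: a random grid meets many given sets in the right proportion
-/

set_option autoImplicit false
set_option linter.unusedSectionVars false

namespace F3.HB

open Finset NW F1 F3 NWC

namespace GridF

open F2.GridR

variable {V : Type} [Fintype V] [DecidableEq V]

theorem lower' {s : ℕ} (hs : 1 ≤ s) (hn : 1 ≤ Fintype.card V) (a : Fin s × Fin s) (N : Finset V)
    {c : ℝ} (hc : 0 < c) (hN : c * (Fintype.card V : ℝ) ≤ N.card) :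
    Pr (prodW (fun _ : V => unifW (Fin s × Fin s)))
      (fun ω => cnt N {a} ω ≤ c * (Fintype.card V : ℝ) / (2 * (s : ℝ) ^ 2)) ≤
      Real.exp (-(c ^ 2 / 8 * (Fintype.card V : ℝ) / (s : ℝ) ^ 4)) := by
  haveI : Nonempty (Fin s × Fin s) := ⟨(⟨0, hs⟩, ⟨0, hs⟩)⟩
  have hs0 : (1 : ℝ) ≤ s := by exact_mod_cast hs
  have hn0 : (1 : ℝ) ≤ Fintype.card V := by exact_mod_cast hn
  set n : ℝ := (Fintype.card V : ℝ) with hndef
  have hNn : (N.card : ℝ) ≤ n := by
    rw [hndef]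
    exact_mod_cast Finset.card_le_univ N
  have h := hoeffding_lower (p := fun _ : V => unifW (Fin s × Fin s)) (fun _ => pw_unif) N
    (fun _ b => if b ∈ ({a} : Finset (Fin s × Fin s)) then (1 : ℝ) else 0)
    (fun _ a => by split_ifs <;> norm_num)
    (fun _ a => by split_ifs <;> norm_num) n (by linarith) hNn (c * n / (2 * (s : ℝ) ^ 2))
    (by positivity)
  rw [Finset.sum_congr rfl fun i _ => ex_cell {a}, Finset.sum_const, nsmul_eq_mul,
    Finset.card_singleton] at h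
  refine le_trans (pr_mono (pw_prod fun _ => pw_unif) fun ω hω => ?_) (h.trans ?_)
  · unfold cnt at hω
    refine le_trans hω ?_
    have e : c * n / (2 * (s : ℝ) ^ 2) = c * n * (1 / (s : ℝ) ^ 2) -
        c * n / (2 * (s : ℝ) ^ 2) := by
      field_simp
      ring
    have h1 : c * n * (1 / (s : ℝ) ^ 2) ≤ (N.card : ℝ) * (1 / (s : ℝ) ^ 2) := by
      gcongr
    push_cast
    linarith
  · refine Real.exp_le_exp.2 (neg_le_neg (le_of_eq ?_))
    field_simp
    norm_num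

/-- the numerical condition -/
theorem numbers' (d : ℝ) (hd : 0 < d) :
    ∃ n₀ : ℕ, ∀ n : ℕ, n₀ ≤ n → ∀ s : ℕ, 1 ≤ s → (s : ℝ) ≤ (n : ℝ) ^ (1 / 10 : ℝ) →
    (4 * (s : ℝ) ^ 2 + (s : ℝ) ^ 2 * (n : ℝ) ^ 2) *
      Real.exp (-(d * (n : ℝ) / (s : ℝ) ^ 4)) < 1 := by
  have h1 : Filter.Tendsto (fun y : ℝ => y ^ 5 * Real.exp (-y)) Filter.atTop (nhds 0) :=
    Real.tendsto_pow_mul_exp_neg_atTop_nhds_zero 5
  have h2 : Filter.Tendsto (fun n : ℕ => d * (n : ℝ) ^ (3 / 5 : ℝ)) Filter.atTop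
      Filter.atTop :=
    Filter.Tendsto.const_mul_atTop hd
      ((tendsto_rpow_atTop (by norm_num)).comp tendsto_natCast_atTop_atTop)
  have h3 := (h1.comp h2).eventually_lt_const (u := d ^ 5 / 5) (by positivity)
  obtain ⟨n₀, hn₀⟩ := Filter.eventually_atTop.1 h3
  refine ⟨max n₀ 1, fun n hn s hs hsn => ?_⟩
  have hn1 : 1 ≤ n := (le_max_right _ _).trans hn
  have h4 := hn₀ n ((le_max_left _ _).trans hn)
  have hn' : (1 : ℝ) ≤ n := by exact_mod_cast hn1
  have hs' : (1 : ℝ) ≤ s := by exact_mod_cast hs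
  simp only [Function.comp] at h4
  set y : ℝ := d * (n : ℝ) ^ (3 / 5 : ℝ) with hy
  have hy5 : y ^ 5 = d ^ 5 * (n : ℝ) ^ 3 := by
    rw [hy, mul_pow, ← Real.rpow_natCast ((n : ℝ) ^ (3 / 5 : ℝ)) 5,
      ← Real.rpow_mul (by positivity), ← Real.rpow_natCast (n : ℝ) 3]
    norm_num
  have hs2 : (s : ℝ) ^ 2 ≤ n := by
    calc (s : ℝ) ^ 2 ≤ ((n : ℝ) ^ (1 / 10 : ℝ)) ^ 2 := by gcongr
      _ = (n : ℝ) ^ (1 / 5 : ℝ) := by
        rw [← Real.rpow_natCast ((n : ℝ) ^ (1 / 10 : ℝ)) 2, ← Real.rpow_mul (by positivity)]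
        norm_num
      _ ≤ (n : ℝ) ^ (1 : ℝ) := Real.rpow_le_rpow_of_exponent_le hn' (by norm_num)
      _ = n := Real.rpow_one _
  have hs4 : (s : ℝ) ^ 4 ≤ (n : ℝ) ^ (2 / 5 : ℝ) := by
    calc (s : ℝ) ^ 4 ≤ ((n : ℝ) ^ (1 / 10 : ℝ)) ^ 4 := by gcongr
      _ = (n : ℝ) ^ (2 / 5 : ℝ) := by
        rw [← Real.rpow_natCast ((n : ℝ) ^ (1 / 10 : ℝ)) 4, ← Real.rpow_mul (by positivity)]
        norm_num
  have hexp : y ≤ d * (n : ℝ) / (s : ℝ) ^ 4 := by
    rw [le_div_iff₀ (by positivity)]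
    have e : (n : ℝ) = (n : ℝ) ^ (3 / 5 : ℝ) * (n : ℝ) ^ (2 / 5 : ℝ) := by
      rw [← Real.rpow_add (by positivity)]
      norm_num
    calc y * (s : ℝ) ^ 4 ≤ y * (n : ℝ) ^ (2 / 5 : ℝ) := by gcongr
      _ = d * ((n : ℝ) ^ (3 / 5 : ℝ) * (n : ℝ) ^ (2 / 5 : ℝ)) := by rw [hy]; ring
      _ = d * n := by rw [← e]
  have h6 : 4 * (s : ℝ) ^ 2 + (s : ℝ) ^ 2 * (n : ℝ) ^ 2 ≤ 5 * (n : ℝ) ^ 3 := by
    have h7 : (n : ℝ) ≤ (n : ℝ) ^ 3 := le_self_pow₀ hn' (by norm_num)
    have h8 : (s : ℝ) ^ 2 * (n : ℝ) ^ 2 ≤ n * (n : ℝ) ^ 2 := by gcongr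
    nlinarith
  calc (4 * (s : ℝ) ^ 2 + (s : ℝ) ^ 2 * (n : ℝ) ^ 2) *
        Real.exp (-(d * (n : ℝ) / (s : ℝ) ^ 4))
      ≤ 5 * (n : ℝ) ^ 3 * Real.exp (-y) := by
        refine mul_le_mul h6 (Real.exp_le_exp.2 (neg_le_neg hexp)) (Real.exp_pos _).le
          (by positivity)
    _ = 5 / d ^ 5 * (y ^ 5 * Real.exp (-y)) := by rw [hy5]; field_simp
    _ < 5 / d ^ 5 * (d ^ 5 / 5) := by
        refine mul_lt_mul_of_pos_left h4 (by positivity)
    _ = 1 := by field_simp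

end GridF

open F2.GridR GridF in
/-- row G1 -/
theorem gridFam : GridFamStatement := by
  intro c θ hc hθ hθ1
  set d : ℝ := min (c ^ 2 / 8) (1 / 32) with hd
  have hd0 : 0 < d := lt_min (by positivity) (by norm_num)
  have hd1 : d ≤ c ^ 2 / 8 := min_le_left _ _
  have hd2 : d ≤ 1 / 32 := min_le_right _ _
  obtain ⟨n₀, hn₀⟩ := numbers' d hd0
  refine ⟨max n₀ 1, ?_⟩
  intro V ι _ _ _ N hn hι hN s hs hsn
  classical
  have hn1 : 1 ≤ Fintype.card V := (le_max_right _ _).trans hn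
  have hn' : (1 : ℝ) ≤ Fintype.card V := by exact_mod_cast hn1
  have hs' : (1 : ℝ) ≤ s := by exact_mod_cast hs
  have hnum := hn₀ (Fintype.card V) ((le_max_left _ _).trans hn) s hs
    (hsn.trans (Real.rpow_le_rpow_of_exponent_le hn' (by linarith)))
  haveI : Nonempty (Fin s × Fin s) := ⟨(⟨0, hs⟩, ⟨0, hs⟩)⟩
  have hE1 : Real.exp (-((Fintype.card V : ℝ) / (32 * (s : ℝ) ^ 4))) ≤
      Real.exp (-(d * (Fintype.card V : ℝ) / (s : ℝ) ^ 4)) := by
    refine Real.exp_le_exp.2 (neg_le_neg ?_)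
    have e : (Fintype.card V : ℝ) / (32 * (s : ℝ) ^ 4) =
        1 / 32 * (Fintype.card V : ℝ) / (s : ℝ) ^ 4 := by
      field_simp
    rw [e]
    gcongr
  have hE2 : Real.exp (-(c ^ 2 / 8 * (Fintype.card V : ℝ) / (s : ℝ) ^ 4)) ≤
      Real.exp (-(d * (Fintype.card V : ℝ) / (s : ℝ) ^ 4)) := by
    refine Real.exp_le_exp.2 (neg_le_neg ?_)
    gcongr
  -- the families of cells
  let rowC : Fin s → Finset (Fin s × Fin s) := fun x => univ.filter fun a => a.1 = x
  let colC : Fin s → Finset (Fin s × Fin s) := fun x => univ.filter fun a => a.2 = x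
  have hrow : ∀ x, (rowC x).card = s := by
    intro x
    have e : rowC x = ({x} : Finset (Fin s)) ×ˢ (univ : Finset (Fin s)) := by
      ext a
      simp only [rowC, Finset.mem_filter, Finset.mem_univ, true_and, Finset.mem_product,
        Finset.mem_singleton, and_true]
    rw [e, Finset.card_product]
    simp
  have hcol : ∀ x, (colC x).card = s := by
    intro x
    have e : colC x = (univ : Finset (Fin s)) ×ˢ ({x} : Finset (Fin s)) := by
      ext a
      simp only [colC, Finset.mem_filter, Finset.mem_univ, true_and, Finset.mem_product,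
        Finset.mem_singleton]
    rw [e, Finset.card_product]
    simp
  let J := Fin s ⊕ Fin s ⊕ (Fin s × Fin s) ⊕ (Fin s × Fin s) ⊕ ((Fin s × Fin s) × ι)
  let Ev : J → (V → Fin s × Fin s) → Prop := fun j ω => match j with
    | Sum.inl x => 2 * (Fintype.card V * ((rowC x).card : ℝ) / (s : ℝ) ^ 2) ≤ cnt univ (rowC x) ω
    | Sum.inr (Sum.inl x) =>
      2 * (Fintype.card V * ((colC x).card : ℝ) / (s : ℝ) ^ 2) ≤ cnt univ (colC x) ω
    | Sum.inr (Sum.inr (Sum.inl a)) =>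
      2 * (Fintype.card V * ((({a} : Finset (Fin s × Fin s))).card : ℝ) / (s : ℝ) ^ 2) ≤
        cnt univ {a} ω
    | Sum.inr (Sum.inr (Sum.inr (Sum.inl a))) =>
      cnt univ {a} ω ≤ (Fintype.card V : ℝ) / (4 * (s : ℝ) ^ 2)
    | Sum.inr (Sum.inr (Sum.inr (Sum.inr b))) =>
      cnt (N b.2) {b.1} ω ≤ c * (Fintype.card V : ℝ) / (2 * (s : ℝ) ^ 2)
  obtain ⟨ω, -, hω⟩ := exists_avoid_card
    (w := prodW (fun _ : V => unifW (Fin s × Fin s))) (pw_prod fun _ => pw_unif)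
    (Finset.univ : Finset J) Ev
    (Real.exp (-(d * (Fintype.card V : ℝ) / (s : ℝ) ^ 4))) (by
      intro j _
      rcases j with x | x | a | a | b
      · exact (upper hs hn1 (rowC x) (by rw [hrow]; exact hs)).trans hE1
      · exact (upper hs hn1 (colC x) (by rw [hcol]; exact hs)).trans hE1
      · exact (upper hs hn1 {a} (by simp)).trans hE1
      · refine (lower hs hn1 a univ ?_).trans hE1
        rw [Finset.card_univ]
        linarith
      · exact (lower' hs hn1 b.1 (N b.2) hc (hN b.2)).trans hE2) (by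
      refine lt_of_le_of_lt ?_ hnum
      refine mul_le_mul_of_nonneg_right ?_ (Real.exp_pos _).le
      have e : (Finset.univ : Finset J).card =
          s + (s + (s * s + (s * s + s * s * Fintype.card ι))) := by
        rw [Finset.card_univ]
        simp [J]
      have hι' : (Fintype.card ι : ℝ) ≤ (Fintype.card V : ℝ) ^ 2 := by exact_mod_cast hι
      have h1 : (s : ℝ) * s * Fintype.card ι ≤ (s : ℝ) ^ 2 * (Fintype.card V : ℝ) ^ 2 := by
        rw [← pow_two]
        gcongr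
      rw [e]
      push_cast
      nlinarith [mul_self_nonneg ((s : ℝ) - 1)])
  have hcell : ∀ x y : ℕ, ∀ hx : x < s, ∀ hy : y < s, ∀ M : Finset V,
      (M.filter fun v => ω v ∈ ({(⟨x, hx⟩, ⟨y, hy⟩)} : Finset (Fin s × Fin s))) =
        M ∩ F2.Pt (fun v => (ω v).1.val) (fun v => (ω v).2.val) x y := by
    intro x y hx hy M
    ext v
    simp [F2.Pt, Prod.ext_iff, Fin.ext_iff]
  refine ⟨fun v => (ω v).1.val, fun v => (ω v).2.val, ⟨fun v => (ω v).1.2, fun v => (ω v).2.2,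
    ?_, ?_, ?_, ?_⟩, ?_⟩
  · intro x hx y hy
    have h1 := hω (Sum.inr (Sum.inr (Sum.inr (Sum.inl (⟨x, hx⟩, ⟨y, hy⟩))))) (Finset.mem_univ _)
    change ¬ (cnt univ {(⟨x, hx⟩, ⟨y, hy⟩)} ω ≤
      (Fintype.card V : ℝ) / (4 * (s : ℝ) ^ 2)) at h1
    rw [cnt_eq, not_le, hcell, Finset.univ_inter] at h1
    rw [← Finset.card_pos]
    have h2 : (0 : ℝ) < (Fintype.card V : ℝ) / (4 * (s : ℝ) ^ 2) := by positivity
    exact_mod_cast h2.trans h1
  · intro x
    by_cases hx : x < s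
    · have h1 := hω (Sum.inl ⟨x, hx⟩) (Finset.mem_univ _)
      change ¬ (2 * (Fintype.card V * ((rowC ⟨x, hx⟩).card : ℝ) / (s : ℝ) ^ 2) ≤
        cnt univ (rowC ⟨x, hx⟩) ω) at h1
      rw [hrow, cnt_eq, not_le] at h1
      have e : (univ.filter fun v => ω v ∈ rowC ⟨x, hx⟩) =
          F2.Rw (fun v => (ω v).1.val) x := by
        ext v
        simp [rowC, F2.Rw, Fin.ext_iff]
      rw [e] at h1
      have h2 : ((F2.Rw (fun v => (ω v).1.val) x).card : ℝ) * s ≤ 2 * Fintype.card V := by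
        have h3 : 2 * ((Fintype.card V : ℝ) * s / (s : ℝ) ^ 2) * s = 2 * Fintype.card V := by
          field_simp
        nlinarith
      exact_mod_cast h2
    · have e : F2.Rw (fun v => (ω v).1.val) x = ∅ := by
        ext v
        simp only [F2.Rw, Finset.mem_filter, Finset.mem_univ, true_and, Finset.notMem_empty,
          iff_false]
        have := (ω v).1.2
        omega
      rw [e]
      simp
  · intro x
    by_cases hx : x < s
    · have h1 := hω (Sum.inr (Sum.inl ⟨x, hx⟩)) (Finset.mem_univ _)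
      change ¬ (2 * (Fintype.card V * ((colC ⟨x, hx⟩).card : ℝ) / (s : ℝ) ^ 2) ≤
        cnt univ (colC ⟨x, hx⟩) ω) at h1
      rw [hcol, cnt_eq, not_le] at h1
      have e : (univ.filter fun v => ω v ∈ colC ⟨x, hx⟩) =
          F2.Rw (fun v => (ω v).2.val) x := by
        ext v
        simp [colC, F2.Rw, Fin.ext_iff]
      rw [e] at h1
      have h2 : ((F2.Rw (fun v => (ω v).2.val) x).card : ℝ) * s ≤ 2 * Fintype.card V := by
        have h3 : 2 * ((Fintype.card V : ℝ) * s / (s : ℝ) ^ 2) * s = 2 * Fintype.card V := by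
          field_simp
        nlinarith
      exact_mod_cast h2
    · have e : F2.Rw (fun v => (ω v).2.val) x = ∅ := by
        ext v
        simp only [F2.Rw, Finset.mem_filter, Finset.mem_univ, true_and, Finset.notMem_empty,
          iff_false]
        have := (ω v).2.2
        omega
      rw [e]
      simp
  · intro x y
    by_cases hxy : x < s ∧ y < s
    · have h1 := hω (Sum.inr (Sum.inr (Sum.inl (⟨x, hxy.1⟩, ⟨y, hxy.2⟩)))) (Finset.mem_univ _)
      change ¬ (2 * (Fintype.card V * ((({(⟨x, hxy.1⟩, ⟨y, hxy.2⟩)} :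
        Finset (Fin s × Fin s))).card : ℝ) / (s : ℝ) ^ 2) ≤
        cnt univ {(⟨x, hxy.1⟩, ⟨y, hxy.2⟩)} ω) at h1
      rw [Finset.card_singleton, cnt_eq, not_le, hcell, Finset.univ_inter] at h1
      have h2 : ((F2.Pt (fun v => (ω v).1.val) (fun v => (ω v).2.val) x y).card : ℝ) *
          (s : ℝ) ^ 2 ≤ 2 * Fintype.card V := by
        push_cast at h1
        have h3 : 2 * ((Fintype.card V : ℝ) * 1 / (s : ℝ) ^ 2) * (s : ℝ) ^ 2 =
            2 * Fintype.card V := by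
          field_simp
        have h4 : (0 : ℝ) < (s : ℝ) ^ 2 := by positivity
        nlinarith
      exact_mod_cast h2
    · have e : F2.Pt (fun v => (ω v).1.val) (fun v => (ω v).2.val) x y = ∅ := by
        ext v
        simp only [F2.Pt, Finset.mem_filter, Finset.mem_univ, true_and, Finset.notMem_empty,
          iff_false]
        have := (ω v).1.2
        have := (ω v).2.2
        rintro ⟨h1, h2⟩
        exact hxy ⟨by omega, by omega⟩
      rw [e]
      simp
  · intro i x hx y hy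
    have h1 := hω (Sum.inr (Sum.inr (Sum.inr (Sum.inr ((⟨x, hx⟩, ⟨y, hy⟩), i)))))
      (Finset.mem_univ _)
    change ¬ (cnt (N i) {(⟨x, hx⟩, ⟨y, hy⟩)} ω ≤
      c * (Fintype.card V : ℝ) / (2 * (s : ℝ) ^ 2)) at h1
    rw [cnt_eq, not_le, hcell, div_lt_iff₀ (by positivity)] at h1
    change c * (Fintype.card V : ℝ) ≤ _
    linarith

end F3.HB
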