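import Pool.Agent.F3.HB.Spec

/-!
# Project F3, block HB: the grid (row G2)
-/

set_option autoImplicit false
set_option linter.unusedSectionVars false

namespace F3.HB

open Finset NW F1 F3

theorem gx_card {V : Type} [Fintype V] [DecidableEq V] (E : Finset (Sym2 V)) :
    Fintype.card {e // e ∈ E} ≤ Fintype.card V ^ 2 := by
  have h1 : Fintype.card {e // e ∈ E} ≤ Fintype.card (Sym2 V) :=
    Fintype.card_subtype_le _
  have h2 : Fintype.card (Sym2 V) ≤ Fintype.card (V × V) := by
    apply Fintype.card_le_of_surjective (fun p : V × V => s(p.1, p.2))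
    intro e
    induction e using Sym2.ind with
    | _ x y => exact ⟨(x, y), rfl⟩
  rw [Fintype.card_prod, ← pow_two] at h2
  exact h1.trans h2

theorem gx_mem_vtr {V : Type} [Fintype V] [DecidableEq V] {al : Tri V → Prop}
    {X : Finset (Sym2 V)} {e : Sym2 V} {T : Tri V} :
    T ∈ vtr al X e ↔ al T ∧ e ∈ NW.edg T.1 ∧ NW.edg T.1 \ {e} ⊆ X := by
  classical
  unfold vtr
  rw [Finset.mem_filter]
  simp

theorem gridX (h : GridFamStatement) : GridXStatement := by
  classical
  intro c θ hc hθ hθ'
  obtain ⟨n₀, h⟩ := h c θ hc hθ hθ'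
  refine ⟨n₀, ?_⟩
  intro V _ _ E H al hE hn hV s hs1 hs2
  have hrep : ∀ e : Sym2 V, ∃ u v, e = s(u, v) := by
    intro e
    induction e using Sym2.ind with
    | _ x y => exact ⟨x, y, rfl⟩
  choose a b hab using hrep
  set N : {e // e ∈ E} → Finset V := fun e => univ.filter (fun w => w ≠ a e ∧ w ≠ b e ∧
    s(a e, w) ∈ H ∧ s(b e, w) ∈ H ∧ ∀ T : Tri V, T.1 = {a e, b e, w} → al T) with hN
  have memN : ∀ (e : {e // e ∈ E}) (w : V), w ∈ N e ↔ (w ≠ a e ∧ w ≠ b e ∧
    s(a e, w) ∈ H ∧ s(b e, w) ∈ H ∧ ∀ T : Tri V, T.1 = {a e, b e, w} → al T) := by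
    intro e w
    rw [hN]
    simp
  have hne : ∀ e : {e // e ∈ E}, a e ≠ b e := by
    intro e hh
    apply hE e.1 e.2
    rw [hab e.1, hh]
    simp
  have hcard : ∀ e : {e // e ∈ E}, c * nn V ≤ ((N e).card : ℝ) := by
    intro e
    refine (hV e.1 e.2).trans ?_
    have h1 : ∀ T : Tri V, T ∈ vtr al H e.1 → ∃ w, w ∈ N e ∧ T.1 = {a e, b e, w} := by
      intro T hT
      rw [gx_mem_vtr] at hT
      obtain ⟨hal, hTe, hTH⟩ := hT
      rw [hab e.1, mk_mem_edg] at hTe
      obtain ⟨ha, hb, hab'⟩ := hTe
      have h2 : ((T.1.erase (a e)).erase (b e)).card = 1 := by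
        rw [Finset.card_erase_of_mem (Finset.mem_erase.2 ⟨hab'.symm, hb⟩),
          Finset.card_erase_of_mem ha, T.2]
      obtain ⟨w, hw⟩ := Finset.card_eq_one.1 h2
      have hwm : w ∈ (T.1.erase (a e)).erase (b e) := by rw [hw]; simp
      rw [Finset.mem_erase, Finset.mem_erase] at hwm
      obtain ⟨hwb, hwa, hwT⟩ := hwm
      have hT1 : T.1 = {a e, b e, w} := by
        ext x
        simp only [Finset.mem_insert, Finset.mem_singleton]
        constructor
        · intro hx
          by_cases h3 : x = a e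
          · exact Or.inl h3
          · by_cases h4 : x = b e
            · exact Or.inr (Or.inl h4)
            · right; right
              have : x ∈ (T.1.erase (a e)).erase (b e) := by
                rw [Finset.mem_erase, Finset.mem_erase]
                exact ⟨h4, h3, hx⟩
              rw [hw, Finset.mem_singleton] at this
              exact this
        · rintro (h3 | h3 | h3)
          · rw [h3]; exact ha
          · rw [h3]; exact hb
          · rw [h3]; exact hwT
      refine ⟨w, ?_, hT1⟩
      rw [memN]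
      refine ⟨hwa, hwb, ?_, ?_, ?_⟩
      · apply hTH
        rw [Finset.mem_sdiff, Finset.mem_singleton, mk_mem_edg]
        refine ⟨⟨ha, hwT, hwa.symm⟩, ?_⟩
        intro h3'
        have h3 := h3'.trans (hab e.1)
        rw [Sym2.eq_iff] at h3
        rcases h3 with ⟨_, h4⟩ | ⟨h4, _⟩
        · exact hwb h4
        · exact hab' h4
      · apply hTH
        rw [Finset.mem_sdiff, Finset.mem_singleton, mk_mem_edg]
        refine ⟨⟨hb, hwT, hwb.symm⟩, ?_⟩
        intro h3'
        have h3 := h3'.trans (hab e.1)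
        rw [Sym2.eq_iff] at h3
        rcases h3 with ⟨h4, _⟩ | ⟨_, h4⟩
        · exact hab' h4.symm
        · exact hwa h4
      · intro T' hT'
        have : T' = T := Subtype.ext (hT'.trans hT1.symm)
        rw [this]
        exact hal
    choose g hg1 hg2 using h1
    have h3 : (vtr al H e.1).card ≤ (N e).card := by
      rw [← Finset.card_attach]
      apply Finset.card_le_card_of_injOn (fun T => g T.1 T.2)
      · intro T hT
        exact hg1 T.1 T.2
      · intro T hT T' hT' hTT
        have hTT' : g T.1 T.2 = g T'.1 T'.2 := hTT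
        apply Subtype.ext
        apply Subtype.ext
        rw [hg2 T.1 T.2, hg2 T'.1 T'.2, hTT']
    exact_mod_cast h3
  obtain ⟨ro, co, hg, hcell⟩ := h V {e // e ∈ E} N hn (gx_card E) hcard s hs1 hs2
  refine ⟨ro, co, hg, ?_⟩
  intro e he
  have h1 := hcell ⟨e, he⟩ (ro (a e)) (hg.ro_lt _) (co (b e)) (hg.co_lt _)
  refine h1.trans ?_
  have h2 : ∀ w : V, w ∈ N ⟨e, he⟩ ∩ F2.Pt ro co (ro (a e)) (co (b e)) →
      ∃ T : Tri V, T ∈ vtr al (F2.Xs ro co H) e ∧ T.1 = {a e, b e, w} := by
    intro w hw
    rw [Finset.mem_inter, memN] at hw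
    obtain ⟨⟨hwa, hwb, hHa, hHb, hal⟩, hPt⟩ := hw
    have hP : ro w = ro (a e) ∧ co w = co (b e) := by
      unfold F2.Pt at hPt
      simpa using hPt
    have hab' : a e ≠ b e := hne ⟨e, he⟩
    have hc3 : ({a e, b e, w} : Finset V).card = 3 := by
      rw [Finset.card_eq_three]
      exact ⟨a e, b e, w, hab', fun hh => hwa hh.symm, fun hh => hwb hh.symm, rfl⟩
    refine ⟨⟨{a e, b e, w}, hc3⟩, ?_, rfl⟩
    rw [gx_mem_vtr]
    refine ⟨hal _ rfl, ?_, ?_⟩
    · have hh : s(a e, b e) ∈ NW.edg ({a e, b e, w} : Finset V) := by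
        rw [mk_mem_edg]
        simp [hab']
      rw [← hab e] at hh
      exact hh
    · intro e' he'
      rw [Finset.mem_sdiff, Finset.mem_singleton] at he'
      obtain ⟨h3, h4⟩ := he'
      induction e' using Sym2.ind with
      | _ x y =>
        rw [mk_mem_edg] at h3
        simp only [Finset.mem_insert, Finset.mem_singleton] at h3
        obtain ⟨hx, hy, hxy⟩ := h3
        have key1 : s(a e, w) ∈ F2.Xs ro co H := by
          unfold F2.Xs
          rw [Finset.mem_filter]
          exact ⟨hHa, a e, w, rfl, Or.inl hP.1.symm⟩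
        have key2 : s(b e, w) ∈ F2.Xs ro co H := by
          unfold F2.Xs
          rw [Finset.mem_filter]
          exact ⟨hHb, b e, w, rfl, Or.inr hP.2.symm⟩
        rcases hx with rfl | rfl | rfl <;> rcases hy with rfl | rfl | rfl
        · exact absurd rfl hxy
        · exact absurd (hab e).symm h4
        · exact key1
        · exact absurd (by rw [Sym2.eq_swap]; exact (hab e).symm) h4
        · exact absurd rfl hxy
        · exact key2
        · rw [Sym2.eq_swap]; exact key1
        · rw [Sym2.eq_swap]; exact key2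
        · exact absurd rfl hxy
  choose g hg1 hg2 using h2
  have h3 : (N ⟨e, he⟩ ∩ F2.Pt ro co (ro (a e)) (co (b e))).card ≤
      (vtr al (F2.Xs ro co H) e).card := by
    rw [← Finset.card_attach]
    apply Finset.card_le_card_of_injOn (fun w => g w.1 w.2)
    · intro w hw
      exact hg1 w.1 w.2
    · intro w hw w' hw' hww
      have h4 := hg2 w.1 w.2
      have hww' : g w.1 w.2 = g w'.1 w'.2 := hww
      rw [hww', hg2 w'.1 w'.2] at h4
      have h5 : w'.1 ∈ ({a e, b e, w.1} : Finset V) := by
        rw [← h4]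
        simp
      have hw'' := (Finset.mem_inter.1 w'.2).1
      rw [memN] at hw''
      simp only [Finset.mem_insert, Finset.mem_singleton] at h5
      rcases h5 with h5 | h5 | h5
      · exact absurd h5 hw''.1
      · exact absurd h5 hw''.2.1
      · exact Subtype.ext h5.symm
  have h4 : ((N ⟨e, he⟩ ∩ F2.Pt ro co (ro (a e)) (co (b e))).card : ℝ) ≤
      ((vtr al (F2.Xs ro co H) e).card : ℝ) := by exact_mod_cast h3
  exact mul_le_mul_of_nonneg_left h4 (by positivity)

end F3.HB
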