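import Pool.Agent.F3.HB.Spec

/-!
# Project F3, block HB, row KR: hexagons with prescribed parts
-/

set_option autoImplicit false
set_option linter.unusedSectionVars false

namespace F3.HB

open Finset NW F1 F3

section

variable {V : Type} [Fintype V] [DecidableEq V]

/-- the vertices which cannot be the next vertex after `u` -/
def kr_bad (H : Finset (Sym2 V)) (fl : Bool → Bool) (sd pt : V → Bool) (Z : Finset (Sym2 V))
    (u : V) : Finset V :=
  (univ.filter (fun w => Co fl sd pt u w ∧ s(u, w) ∉ H)) ∪ nbr Z u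

theorem kr_bad_card {H : Finset (Sym2 V)} {fl : Bool → Bool} {sd pt : V → Bool} {At : Finset V}
    (hF : FR H fl sd pt At) {Z : Finset (Sym2 V)} (hZ : Sm (1 / 1000) Z) {u : V} (hu : u ∉ At) :
    ((kr_bad H fl sd pt Z u).card : ℝ) ≤ 2 * nn V / 1000 := by
  have h1 := Finset.card_union_le (univ.filter (fun w => Co fl sd pt u w ∧ s(u, w) ∉ H)) (nbr Z u)
  have h2 := hF.miss u hu
  have h3 : ((nbr Z u).card : ℝ) ≤ 1 / 1000 * nn V := hZ u
  have h4 : ((kr_bad H fl sd pt Z u).card : ℝ) ≤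
      ((univ.filter (fun w => Co fl sd pt u w ∧ s(u, w) ∉ H)).card : ℝ) + ((nbr Z u).card : ℝ) := by
    unfold kr_bad
    exact_mod_cast h1
  linarith

theorem kr_edge {H : Finset (Sym2 V)} {fl : Bool → Bool} {sd pt : V → Bool}
    {Z : Finset (Sym2 V)} {u w : V} (h : w ∉ kr_bad H fl sd pt Z u) (hc : Co fl sd pt u w) :
    s(u, w) ∈ H \ Z := by
  unfold kr_bad at h
  rw [Finset.mem_union, not_or] at h
  rw [Finset.mem_sdiff]
  refine ⟨?_, fun hZ => h.2 ?_⟩
  · by_contra h1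
    exact h.1 (Finset.mem_filter.mpr ⟨Finset.mem_univ _, hc, h1⟩)
  · unfold nbr
    exact Finset.mem_filter.mpr ⟨Finset.mem_univ _, hZ⟩

theorem kr_part {H : Finset (Sym2 V)} {fl : Bool → Bool} {sd pt : V → Bool} {At : Finset V}
    (hF : FR H fl sd pt At) (b q : Bool) : 247 / 1000 * nn V ≤ ((Pa sd pt b q).card : ℝ) := by
  have h1 : (Pa sd pt b q).card + (Pa sd pt b (!q)).card + (Pa sd pt (!b) q).card +
      (Pa sd pt (!b) (!q)).card = Fintype.card V := by
    unfold Pa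
    rw [← Finset.card_univ (α := V)]
    simp only [Finset.card_filter]
    rw [← Finset.sum_add_distrib, ← Finset.sum_add_distrib, ← Finset.sum_add_distrib,
      Finset.card_eq_sum_ones]
    refine Finset.sum_congr rfl fun v _ => ?_
    cases sd v <;> cases pt v <;> cases b <;> cases q <;> simp
  have h2 : ((Pa sd pt b q).card : ℝ) + ((Pa sd pt b (!q)).card : ℝ) +
      ((Pa sd pt (!b) q).card : ℝ) + ((Pa sd pt (!b) (!q)).card : ℝ) = nn V := by
    unfold nn
    exact_mod_cast h1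
  have h3 := hF.part b (!q)
  have h4 := hF.part (!b) q
  have h5 := hF.part (!b) (!q)
  linarith

theorem kr_pick {H : Finset (Sym2 V)} {fl : Bool → Bool} {sd pt : V → Bool} {At : Finset V}
    (hV : 10000 ≤ Fintype.card V) (hF : FR H fl sd pt At) {Z : Finset (Sym2 V)}
    (hZ : Sm (1 / 1000) Z) {F : Finset V} (hFF : SmF (1 / 1000) F) (b q : Bool) {u u' : V}
    (hu : u ∉ At) (hu' : u' ∉ At) (X : Finset V) (hX : X.card ≤ 6) :
    ∃ w, sd w = b ∧ pt w = q ∧ w ∉ At ∧ w ∉ F ∧ w ∉ kr_bad H fl sd pt Z u ∧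
      w ∉ kr_bad H fl sd pt Z u' ∧ w ∉ X := by
  have hn : (10000 : ℝ) ≤ nn V := by unfold nn; exact_mod_cast hV
  set A := At ∪ F ∪ kr_bad H fl sd pt Z u ∪ kr_bad H fl sd pt Z u' ∪ X with hA
  have hAc : A.card ≤ At.card + F.card + (kr_bad H fl sd pt Z u).card +
      (kr_bad H fl sd pt Z u').card + X.card := by
    refine (Finset.card_union_le _ _).trans (Nat.add_le_add_right ?_ _)
    refine (Finset.card_union_le _ _).trans (Nat.add_le_add_right ?_ _)
    refine (Finset.card_union_le _ _).trans (Nat.add_le_add_right ?_ _)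
    exact Finset.card_union_le _ _
  have hAc' : (A.card : ℝ) ≤ (At.card : ℝ) + F.card + (kr_bad H fl sd pt Z u).card +
      (kr_bad H fl sd pt Z u').card + X.card := by exact_mod_cast hAc
  have h1 := hF.At_card
  have h2 : (F.card : ℝ) ≤ 1 / 1000 * nn V := hFF
  have h3 := kr_bad_card hF hZ hu
  have h4 := kr_bad_card hF hZ hu'
  have h5 : (X.card : ℝ) ≤ 6 := by exact_mod_cast hX
  have h6 := kr_part hF b q
  have h7 : (A.card : ℝ) < ((Pa sd pt b q).card : ℝ) := by linarith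
  have h8 : A.card < (Pa sd pt b q).card := by exact_mod_cast h7
  obtain ⟨w, hw1, hw2⟩ := Finset.exists_mem_notMem_of_card_lt_card h8
  unfold Pa at hw1
  rw [Finset.mem_filter] at hw1
  rw [hA] at hw2
  simp only [Finset.mem_union, not_or] at hw2
  obtain ⟨⟨⟨⟨a1, a2⟩, a3⟩, a4⟩, a5⟩ := hw2
  exact ⟨w, hw1.2.1, hw1.2.2, a1, a2, a3, a4, a5⟩

theorem kr_co {fl : Bool → Bool} {sd pt : V → Bool} {u w : V} {b b' q q' : Bool}
    (h1 : sd u = b) (h2 : pt u = q) (h3 : sd w = b') (h4 : pt w = q')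
    (h : b ≠ b' ∨ (if fl b = true then q = q' else q ≠ q')) : Co fl sd pt u w := by
  unfold Co CoP
  rw [h1, h2, h3, h4]
  by_cases hb : b = b'
  · rcases h with h | h
    · exact absurd hb h
    · right; rw [← hb]; exact h
  · exact Or.inl hb

theorem kr_co' {fl : Bool → Bool} {sd pt : V → Bool} {u w : V} {b b' q q' : Bool}
    (h1 : sd u = b) (h2 : pt u = q) (h3 : sd w = b') (h4 : pt w = q')
    (h : b' ≠ b ∨ (if fl b' = true then q' = q else q' ≠ q)) : Co fl sd pt u w := by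
  refine kr_co h1 h2 h3 h4 ?_
  by_cases hb : b' = b
  · subst hb
    rcases h with h | h
    · exact absurd rfl h
    · right
      split_ifs at h ⊢ with hfl
      · exact h.symm
      · exact h.symm
  · exact Or.inl (fun h => hb h.symm)

end

theorem hexR : HexRStatement := by
  intro V _ _ H fl sd pt At hV hF Z F hZ hFF b q hbq
  have hn : (10000 : ℝ) ≤ nn V := by unfold nn; exact_mod_cast hV
  -- a vertex which is not in `At`
  obtain ⟨u, hu⟩ : ∃ u, u ∉ At := by
    by_contra hcon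
    push Not at hcon
    have h1 : (Finset.univ : Finset V) ⊆ At := fun v _ => hcon v
    have h2 := Finset.card_le_card h1
    rw [Finset.card_univ] at h2
    have h3 : nn V ≤ (At.card : ℝ) := by unfold nn; exact_mod_cast h2
    have h4 := hF.At_card
    linarith
  obtain ⟨v0, s0, p0, a0, f0, -, -, -⟩ := kr_pick hV hF hZ hFF (b 0) (q 0) hu hu ∅ (by simp)
  obtain ⟨v1, s1, p1, a1, f1, e1, -, x1⟩ := kr_pick hV hF hZ hFF (b 1) (q 1) a0 a0 {v0} (by simp)
  obtain ⟨v2, s2, p2, a2, f2, e2, -, x2⟩ := kr_pick hV hF hZ hFF (b 2) (q 2) a1 a1 {v0, v1}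
    (Finset.card_le_two.trans (by norm_num))
  obtain ⟨v3, s3, p3, a3, f3, e3, -, x3⟩ := kr_pick hV hF hZ hFF (b 3) (q 3) a2 a2 {v0, v1, v2}
    (Finset.card_le_three.trans (by norm_num))
  obtain ⟨v4, s4, p4, a4, f4, e4, -, x4⟩ := kr_pick hV hF hZ hFF (b 4) (q 4) a3 a3
    {v0, v1, v2, v3} (Finset.card_le_four.trans (by norm_num))
  obtain ⟨v5, s5, p5, a5, f5, e5, e0, x5⟩ := kr_pick hV hF hZ hFF (b 5) (q 5) a4 a0
    {v0, v1, v2, v3, v4} (Finset.card_le_five.trans (by norm_num))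
  simp only [Finset.mem_insert, Finset.mem_singleton, not_or] at x1 x2 x3 x4 x5
  have c0 := kr_edge e1 (kr_co s0 p0 s1 p1 (hbq 0))
  have c1 := kr_edge e2 (kr_co s1 p1 s2 p2 (hbq 1))
  have c2 := kr_edge e3 (kr_co s2 p2 s3 p3 (hbq 2))
  have c3 := kr_edge e4 (kr_co s3 p3 s4 p4 (hbq 3))
  have c4 := kr_edge e5 (kr_co s4 p4 s5 p5 (hbq 4))
  have c5 := kr_edge e0 (kr_co' s0 p0 s5 p5 (hbq 5))
  rw [Sym2.eq_swap] at c5
  refine ⟨![v0, v1, v2, v3, v4, v5], ?_, ?_, ?_⟩
  · intro i j h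
    fin_cases i <;> fin_cases j <;>
      first
        | rfl
        | (exfalso
           simp at h
           simp_all)
  · intro i
    fin_cases i
    · exact ⟨f0, s0, p0⟩
    · exact ⟨f1, s1, p1⟩
    · exact ⟨f2, s2, p2⟩
    · exact ⟨f3, s3, p3⟩
    · exact ⟨f4, s4, p4⟩
    · exact ⟨f5, s5, p5⟩
  · intro i
    fin_cases i
    · exact c0
    · exact c1
    · exact c2
    · exact c3
    · exact c4
    · exact c5

end F3.HB
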