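import Pool.Agent.F3.HB.Spec
import Pool.Agent.F2.O.Piece

/-!
# Project F3, block HB, row P: pieces exist

Greedy choice of a path with three edges between the two given vertices, or of a 4-cycle.
-/

set_option autoImplicit false
set_option linter.unusedSectionVars false

namespace F3.HB

open Finset NW F1 F3

section

variable {V : Type} [Fintype V] [DecidableEq V]

/-- choice of a vertex outside of four small sets and a set of at most three vertices -/
theorem px_pick (hn : 1000 ≤ Fintype.card V) {C A₁ A₂ A₃ A₄ T : Finset V}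
    (hC : nn V / 12 ≤ (C.card : ℝ)) (h₁ : (A₁.card : ℝ) ≤ nn V / 1000)
    (h₂ : (A₂.card : ℝ) ≤ nn V / 1000) (h₃ : (A₃.card : ℝ) ≤ nn V / 1000)
    (h₄ : (A₄.card : ℝ) ≤ nn V / 1000) (hT : T.card ≤ 3) :
    ∃ x ∈ C, x ∉ A₁ ∧ x ∉ A₂ ∧ x ∉ A₃ ∧ x ∉ A₄ ∧ x ∉ T := by
  by_contra hcon
  push Not at hcon
  have hsub : C ⊆ A₁ ∪ (A₂ ∪ (A₃ ∪ (A₄ ∪ T))) := by
    intro x hx
    rw [mem_union, mem_union, mem_union, mem_union]
    by_contra hx'
    push Not at hx'
    exact hx'.2.2.2.2 (hcon x hx hx'.1 hx'.2.1 hx'.2.2.1 hx'.2.2.2.1)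
  have h5 : C.card ≤ A₁.card + (A₂.card + (A₃.card + (A₄.card + T.card))) := by
    refine (Finset.card_le_card hsub).trans ?_
    refine (Finset.card_union_le _ _).trans (Nat.add_le_add_left ?_ _)
    refine (Finset.card_union_le _ _).trans (Nat.add_le_add_left ?_ _)
    refine (Finset.card_union_le _ _).trans (Nat.add_le_add_left ?_ _)
    exact Finset.card_union_le _ _
  have h6 : (C.card : ℝ) ≤ A₁.card + (A₂.card + (A₃.card + (A₄.card + T.card))) := by
    exact_mod_cast h5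
  have h7 : (T.card : ℝ) ≤ 3 := by exact_mod_cast hT
  have h8 : (1000 : ℝ) ≤ nn V := by
    unfold nn; exact_mod_cast hn
  linarith

theorem px_mem {H Z : Finset (Sym2 V)} {u v : V} (h : s(u, v) ∈ H) (h' : v ∉ nbr Z u) :
    s(u, v) ∈ H \ Z := by
  rw [NW.mem_nbr] at h'
  exact Finset.mem_sdiff.2 ⟨h, h'⟩

theorem px_sm {Z : Finset (Sym2 V)} (hZ : Sm (1 / 1000) Z) (v : V) :
    ((nbr Z v).card : ℝ) ≤ nn V / 1000 := by
  have h := hZ v
  unfold NW.deg at h
  linarith

end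

theorem pieceX : PieceXStatement := by
  intro V _ _ H At hn hH Z F g hZ hF hg
  have hF' : (F.card : ℝ) ≤ nn V / 1000 := by
    have := hF
    unfold SmF at this
    linarith
  have hnl : NW.NL (H \ Z) := hH.nl.mono sdiff_subset
  rcases hg with rfl | hg
  · -- a 4-cycle
    have hV : nn V / 12 ≤ ((univ : Finset V).card : ℝ) := by
      rw [Finset.card_univ]
      have : (0 : ℝ) ≤ nn V := by unfold nn; positivity
      have h2 : nn V = (Fintype.card V : ℝ) := rfl
      rw [← h2]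
      linarith
    obtain ⟨a, -, haAt, haF, -, -, -⟩ := px_pick hn (T := ∅) hV hH.At_card hF' hF' hF'
      (by simp)
    obtain ⟨b, hb, hbF, hbZ, -, -, hbT⟩ := px_pick hn (T := {a}) (hH.deg a) hF' (px_sm hZ a)
      hF' hF' (by simp)
    obtain ⟨c, hc, hcF, hcZ, -, -, hcT⟩ := px_pick hn (T := {a, b}) (hH.deg b) hF' (px_sm hZ b)
      hF' hF' (le_trans Finset.card_le_two (by norm_num))
    obtain ⟨d, hd, hdF, hdZ, hdZ', -, hdT⟩ := px_pick hn (T := {a, b, c}) (hH.cod a c haAt)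
      hF' (px_sm hZ a) (px_sm hZ c) hF' Finset.card_le_three
    rw [NW.mem_nbr] at hb hc
    rw [mem_inter, NW.mem_nbr, NW.mem_nbr] at hd
    simp only [Finset.mem_insert, Finset.mem_singleton, not_or] at hbT hcT hdT
    have h3 : s(c, d) ∈ H \ Z := px_mem hd.2 hdZ'
    exact F2.O.pc_cyc hnl hbT hcT.1 hcT.2 hdT.1 hdT.2.1 hdT.2.2 haF hbF hcF hdF
      (px_mem hb hbZ) (px_mem hc hcZ) h3 (px_mem hd.1 hdZ)
  · -- a path with three edges
    obtain ⟨u, v, huv, rfl⟩ := Finset.card_eq_two.1 hg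
    obtain ⟨p, hp, hpAt, hpF, hpZ, -, hpT⟩ := px_pick hn (T := {u, v}) (hH.deg u) hH.At_card hF'
      (px_sm hZ u) hF' (le_trans Finset.card_le_two (by norm_num))
    obtain ⟨q, hq, hqF, hqZ, hqZ', -, hqT⟩ := px_pick hn (T := {u, v, p}) (hH.cod p v hpAt)
      hF' (px_sm hZ p) (px_sm hZ v) hF' Finset.card_le_three
    rw [NW.mem_nbr] at hp
    rw [mem_inter, NW.mem_nbr, NW.mem_nbr] at hq
    simp only [Finset.mem_insert, Finset.mem_singleton, not_or] at hpT hqT
    exact F2.O.pc_path hnl huv hpT.1 hpT.2 hqT.1 hqT.2.1 hqT.2.2 hpF hqF (px_mem hp hpZ)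
      (px_mem hq.1 hqZ) (px_mem hq.2 hqZ')

end F3.HB
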