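import Pool.Agent.F3.HB.Spec

/-!
# Project F3, block HB, row HB-A: greedy choice of the path
-/

set_option autoImplicit false
set_option linter.unusedSectionVars false

namespace F3.HB

open Finset NW F1 F3

section

variable {V : Type} [Fintype V] [DecidableEq V]

/-- partial paths -/
structure StG (H : Finset (Sym2 V)) (c : ℕ) (y z : V) (K : ℕ → Finset V) (m : ℕ)
    (p : Fin m → V) : Prop where
  inj : Function.Injective p
  mem : ∀ j, p j ∈ K j.val
  py : ∀ j, p j ≠ y ∧ p j ≠ z
  first : ∀ j : Fin m, j.val = 0 → s(z, p j) ∈ H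
  step : ∀ i j : Fin m, j.val = i.val + 1 → s(p i, p j) ∈ H
  last : ∀ j : Fin m, j.val + 3 = c → s(p j, y) ∈ H

/-- candidates for the next vertex -/
structure StC (H : Finset (Sym2 V)) (c : ℕ) (y z : V) (K : ℕ → Finset V) (m : ℕ)
    (p : Fin m → V) (v : V) : Prop where
  mem : v ∈ K m
  ne : ∀ j, p j ≠ v
  py : v ≠ y ∧ v ≠ z
  first : m = 0 → s(z, v) ∈ H
  step : ∀ i : Fin m, m = i.val + 1 → s(p i, v) ∈ H
  last : m + 3 = c → s(v, y) ∈ H

theorem st_snoc {H : Finset (Sym2 V)} {c : ℕ} {y z : V} {K : ℕ → Finset V} {m : ℕ}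
    {p : Fin m → V} {v : V} (hp : StG H c y z K m p) (hv : StC H c y z K m p v) :
    StG H c y z K (m + 1) (Fin.snoc (α := fun _ => V) p v) where
  inj := by
    intro i j hij
    induction i using Fin.lastCases with
    | last =>
      induction j using Fin.lastCases with
      | last => rfl
      | cast j =>
        rw [Fin.snoc_last, Fin.snoc_castSucc] at hij
        exact absurd hij.symm (hv.ne j)
    | cast i =>
      induction j using Fin.lastCases with
      | last =>
        rw [Fin.snoc_last, Fin.snoc_castSucc] at hij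
        exact absurd hij (hv.ne i)
      | cast j =>
        rw [Fin.snoc_castSucc, Fin.snoc_castSucc] at hij
        rw [hp.inj hij]
  mem := by
    intro j
    induction j using Fin.lastCases with
    | last => rw [Fin.snoc_last]; exact hv.mem
    | cast j => rw [Fin.snoc_castSucc]; exact hp.mem j
  py := by
    intro j
    induction j using Fin.lastCases with
    | last => rw [Fin.snoc_last]; exact hv.py
    | cast j => rw [Fin.snoc_castSucc]; exact hp.py j
  first := by
    intro j
    induction j using Fin.lastCases with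
    | last => rw [Fin.snoc_last]; exact hv.first
    | cast j => rw [Fin.snoc_castSucc]; exact hp.first j
  step := by
    intro i j hij
    induction i using Fin.lastCases with
    | last =>
      have := j.isLt
      simp only [Fin.val_last] at hij
      omega
    | cast i =>
      induction j using Fin.lastCases with
      | last =>
        rw [Fin.snoc_last, Fin.snoc_castSucc]
        exact hv.step i hij
      | cast j =>
        rw [Fin.snoc_castSucc, Fin.snoc_castSucc]
        exact hp.step i j hij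
  last := by
    intro j
    induction j using Fin.lastCases with
    | last => rw [Fin.snoc_last]; exact hv.last
    | cast j => rw [Fin.snoc_castSucc]; exact hp.last j

open Classical in
theorem st_cand {H : Finset (Sym2 V)} {c : ℕ} {y z : V} {K : ℕ → Finset V} {d : ℕ}
    (h0 : d + c + 2 ≤ ((K 0).filter (fun p => s(z, p) ∈ H)).card)
    (h1 : ∀ j, j + 4 < c → ∀ q ∈ K j, d + c + 2 ≤ ((K (j + 1)).filter (fun p => s(q, p) ∈ H)).card)
    (h2 : ∀ j, j + 4 = c → ∀ q ∈ K j,
      d + c + 2 ≤ ((K (j + 1)).filter (fun p => s(q, p) ∈ H ∧ s(p, y) ∈ H)).card)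
    {m : ℕ} (hm : m + 3 ≤ c) (h6 : 6 ≤ c) {p : Fin m → V} (hp : StG H c y z K m p) :
    d ≤ (univ.filter (fun v => StC H c y z K m p v)).card := by
  have hused : ((univ.image p) ∪ {y, z}).card ≤ m + 2 := by
    refine (card_union_le _ _).trans ?_
    have e1 : (univ.image p).card ≤ m := by
      refine card_image_le.trans ?_
      simp
    have e2 : ({y, z} : Finset V).card ≤ 2 := card_le_two
    omega
  have key : ∀ A : Finset V, d + c + 2 ≤ A.card →
      (∀ v ∈ A, v ∈ K m ∧ (m = 0 → s(z, v) ∈ H) ∧ (∀ i : Fin m, m = i.val + 1 → s(p i, v) ∈ H) ∧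
        (m + 3 = c → s(v, y) ∈ H)) → d ≤ (univ.filter (fun v => StC H c y z K m p v)).card := by
    intro A hA hAv
    have h3 : A \ ((univ.image p) ∪ {y, z}) ⊆ univ.filter (fun v => StC H c y z K m p v) := by
      intro v hv
      rw [mem_sdiff, mem_union, not_or] at hv
      obtain ⟨hv1, hv2, hv3⟩ := hv
      rw [mem_insert, mem_singleton, not_or] at hv3
      obtain ⟨a1, a2, a3, a4⟩ := hAv v hv1
      rw [mem_filter]
      exact ⟨mem_univ _, a1, fun j hj => hv2 (mem_image.2 ⟨j, mem_univ _, hj⟩), hv3, a2, a3, a4⟩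
    have h4 := card_le_card h3
    have h5 := le_card_sdiff ((univ.image p) ∪ {y, z}) A
    omega
  rcases Nat.eq_zero_or_pos m with hm0 | hm0
  · refine key _ h0 ?_
    intro v hv
    rw [mem_filter] at hv
    refine ⟨by rw [hm0]; exact hv.1, fun _ => hv.2, fun i _ => ?_, fun _ => ?_⟩
    · have := i.isLt
      omega
    · omega
  · obtain ⟨j, rfl⟩ : ∃ j, m = j + 1 := ⟨m - 1, by omega⟩
    have hq := hp.mem (Fin.last j)
    rw [Fin.val_last] at hq
    rcases lt_or_eq_of_le (show j + 4 ≤ c by omega) with hj | hj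
    · refine key _ (h1 j hj _ hq) ?_
      intro v hv
      rw [mem_filter] at hv
      refine ⟨hv.1, fun h => by omega, fun i hi => ?_, fun h => by omega⟩
      have hi' : i = Fin.last j := Fin.ext (by rw [Fin.val_last]; omega)
      rw [hi']
      exact hv.2
    · refine key _ (h2 j hj _ hq) ?_
      intro v hv
      rw [mem_filter] at hv
      refine ⟨hv.1, fun h => by omega, fun i hi => ?_, fun _ => hv.2.2⟩
      have hi' : i = Fin.last j := Fin.ext (by rw [Fin.val_last]; omega)
      rw [hi']
      exact hv.2.1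

open Classical in
theorem st_count {H : Finset (Sym2 V)} {c : ℕ} {y z : V} {K : ℕ → Finset V} {d : ℕ}
    (h0 : d + c + 2 ≤ ((K 0).filter (fun p => s(z, p) ∈ H)).card)
    (h1 : ∀ j, j + 4 < c → ∀ q ∈ K j, d + c + 2 ≤ ((K (j + 1)).filter (fun p => s(q, p) ∈ H)).card)
    (h2 : ∀ j, j + 4 = c → ∀ q ∈ K j,
      d + c + 2 ≤ ((K (j + 1)).filter (fun p => s(q, p) ∈ H ∧ s(p, y) ∈ H)).card)
    (h6 : 6 ≤ c) : ∀ m : ℕ, m + 2 ≤ c →
    d ^ m ≤ (univ.filter (fun p : Fin m → V => StG H c y z K m p)).card := by
  intro m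
  induction m with
  | zero =>
    intro _
    rw [pow_zero]
    refine card_pos.2 ⟨fun i => i.elim0, ?_⟩
    rw [mem_filter]
    exact ⟨mem_univ _, fun i => i.elim0, fun i => i.elim0, fun i => i.elim0, fun i => i.elim0,
      fun i => i.elim0, fun i => i.elim0⟩
  | succ m ih =>
    intro hm
    have h3 := ih (by omega)
    have h4 : ((univ.filter (fun p : Fin m → V => StG H c y z K m p)).sigma
        (fun p => univ.filter (fun v => StC H c y z K m p v))).card ≤
        (univ.filter (fun p : Fin (m + 1) → V => StG H c y z K (m + 1) p)).card := by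
      refine card_le_card_of_injOn (fun q => Fin.snoc (α := fun _ => V) q.1 q.2) ?_ ?_
      · rintro ⟨p, v⟩ hq
        simp only [coe_sigma, Set.mem_sigma_iff, mem_coe, mem_filter, mem_univ, true_and] at hq ⊢
        exact st_snoc hq.1 hq.2
      · rintro ⟨p, v⟩ _ ⟨p', v'⟩ _ h
        have h5 : v = v' := by
          have := congrFun h (Fin.last m)
          simpa using this
        have h6 : p = p' := by
          funext j
          have := congrFun h j.castSucc
          simpa using this
        rw [h5, h6]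
    refine le_trans ?_ h4
    rw [card_sigma]
    calc d ^ (m + 1) = d ^ m * d := pow_succ d m
      _ ≤ (univ.filter (fun p : Fin m → V => StG H c y z K m p)).card * d :=
        Nat.mul_le_mul_right d h3
      _ = ∑ p ∈ univ.filter (fun p : Fin m → V => StG H c y z K m p), d := by
        rw [sum_const, smul_eq_mul]
      _ ≤ _ := by
        refine sum_le_sum fun p hp => ?_
        rw [mem_filter] at hp
        exact st_cand h0 h1 h2 (by omega) h6 hp.2

end

/-- greedy choice of the path -/
theorem step (h : TemStatement) : StepStatement := by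
  intro c hc6 hce V _ _ H al r x y z d 𝒮 K hNL hr hS hSy hK h0 h1 h2 hal
  classical
  set Q : Finset (V × (Fin (c - 2) → V)) :=
    ((𝒮.erase x) ×ˢ univ).filter (fun q => StG H c y z (K q.1) (c - 2) q.2) with hQ
  have hgood : ∀ q ∈ Q, GoodP al c H x y z q.1 q.2 := by
    rintro ⟨S, p⟩ hq
    rw [hQ, mem_filter, mem_product, mem_erase] at hq
    obtain ⟨⟨⟨hSx, hSm⟩, -⟩, hp⟩ := hq
    obtain ⟨s1, s2, s3⟩ := hSy S hSm
    obtain ⟨ax1, ax2, ax3⟩ := hal S hSm x (Or.inl rfl)
    obtain ⟨as1, as2, as3⟩ := hal S hSm S (Or.inr rfl)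
    refine ⟨hp.inj, hSx, hp.py, s1, s2, fun j => (hK S hSm _ _ (hp.mem j)).1,
      fun j => (hK S hSm _ _ (hp.mem j)).2, ?_, ?_, ?_, s3⟩
    · intro j hj
      have hm := hp.mem j
      rw [hj] at hm
      exact ⟨hp.first j hj, ax1 _ hm, as1 _ hm⟩
    · intro i j hij
      have hm := hp.mem j
      rw [hij] at hm
      exact ⟨hp.step i j hij, ax2 _ _ (hp.mem i) _ hm, as2 _ _ (hp.mem i) _ hm⟩
    · intro j hj
      have hj' : j.val + 3 = c := by omega
      exact ⟨hp.last j hj', ax3 _ hj' _ (hp.mem j), as3 _ hj' _ (hp.mem j)⟩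
  refine le_trans ?_ (h c hc6 hce V H al r x y z Q hNL hr hgood)
  have hfib : ∀ q ∈ Q, q.1 ∈ 𝒮.erase x := by
    intro q hq
    rw [hQ, mem_filter, mem_product] at hq
    exact hq.1.1
  rw [card_eq_sum_card_fiberwise hfib]
  have hlow : ∀ S ∈ 𝒮.erase x, d ^ (c - 2) ≤ (Q.filter (fun q => q.1 = S)).card := by
    intro S hSe
    have hSm := mem_of_mem_erase hSe
    refine (st_count (H := H) (c := c) (y := y) (z := z) (K := K S) (h0 S hSm) (h1 S hSm)
      (h2 S hSm) hc6 (c - 2) (by omega)).trans ?_
    refine card_le_card_of_injOn (fun p => (S, p)) ?_ ?_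
    · intro p hp
      simp only [mem_coe, mem_filter, mem_univ, true_and] at hp ⊢
      rw [hQ, mem_filter, mem_product]
      exact ⟨⟨⟨hSe, mem_univ _⟩, hp⟩, trivial⟩
    · intro p _ p' _ hpp
      exact (Prod.mk.inj hpp).2
  have hcard : d ≤ (𝒮.erase x).card := by
    have := pred_card_le_card_erase (s := 𝒮) (a := x)
    omega
  calc d ^ (c - 1) = d * d ^ (c - 2) := by
        rw [← pow_succ']
        congr 1
        omega
    _ ≤ (𝒮.erase x).card * d ^ (c - 2) := Nat.mul_le_mul_right _ hcard
    _ = ∑ _S ∈ 𝒮.erase x, d ^ (c - 2) := by rw [sum_const, smul_eq_mul]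
    _ ≤ _ := sum_le_sum hlow

end F3.HB
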