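import Pool.Agent.F3.HB.Spec
import Pool.Agent.F2.Tem.Grow

/-!
# Project F3, block HB, row HB-T: a good path is a placement
-/

set_option autoImplicit false
set_option linter.unusedSectionVars false

namespace F3.HB

open Finset NW F1 F3

section Tem

variable {V : Type} [Fintype V] [DecidableEq V]

/-- the placement of a path -/
private def hmT (c : ℕ) (x y z S : V) (p : Fin (c - 2) → V) (i : Fin (c + 2)) : V :=
  if _h0 : i.val = 0 then x else if _h1 : i.val = 1 then y else if _h2 : i.val = 2 then z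
  else if _h3 : i.val = 3 then S else p ⟨i.val - 4, by have := i.isLt; omega⟩

private theorem hmT0 (c : ℕ) (x y z S : V) (p : Fin (c - 2) → V) (i : Fin (c + 2))
    (h : i.val = 0) : hmT c x y z S p i = x := by
  unfold hmT
  rw [dif_pos h]

private theorem hmT1 (c : ℕ) (x y z S : V) (p : Fin (c - 2) → V) (i : Fin (c + 2))
    (h : i.val = 1) : hmT c x y z S p i = y := by
  unfold hmT
  rw [dif_neg (by omega), dif_pos h]

private theorem hmT2 (c : ℕ) (x y z S : V) (p : Fin (c - 2) → V) (i : Fin (c + 2))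
    (h : i.val = 2) : hmT c x y z S p i = z := by
  unfold hmT
  rw [dif_neg (by omega), dif_neg (by omega), dif_pos h]

private theorem hmT3 (c : ℕ) (x y z S : V) (p : Fin (c - 2) → V) (i : Fin (c + 2))
    (h : i.val = 3) : hmT c x y z S p i = S := by
  unfold hmT
  rw [dif_neg (by omega), dif_neg (by omega), dif_neg (by omega), dif_pos h]

private theorem hmT4 (c : ℕ) (x y z S : V) (p : Fin (c - 2) → V) (i : Fin (c + 2))
    (j : Fin (c - 2)) (h : i.val = j.val + 4) : hmT c x y z S p i = p j := by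
  unfold hmT
  rw [dif_neg (by omega), dif_neg (by omega), dif_neg (by omega), dif_neg (by omega)]
  congr 1
  apply Fin.ext
  show i.val - 4 = j.val
  omega

variable {al : Tri V → Prop} {c : ℕ} {H : Finset (Sym2 V)} {x y z S : V} {p : Fin (c - 2) → V}

/-- two consecutive vertices of the cycle, not the first pair -/
private theorem hmT_pair (hc : 6 ≤ c) (hg : GoodP al c H x y z S p) (i : ℕ) (h1 : 1 ≤ i)
    (hic : i < c) :
    ∃ u v : V, hmT c x y z S p (F2.cyv c i) = u ∧ hmT c x y z S p (F2.cyv c (i + 1)) = v ∧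
      s(u, v) ∈ H ∧ Al al {x, u, v} ∧ Al al {S, u, v} ∧ s(S, u) ∈ H ∧ s(S, v) ∈ H ∧
      (2 ≤ i → s(x, u) ∈ H) ∧ (i + 1 < c → s(x, v) ∈ H) := by
  have v1 := F2.cyv_val c i hc
  have v2 := F2.cyv_val c (i + 1) hc
  rw [Nat.mod_eq_of_lt hic] at v1
  have sw : ∀ j, s(S, p j) ∈ H := hg.pS
  rcases Nat.lt_or_ge (i + 1) c with h | h
  · rw [Nat.mod_eq_of_lt h, if_neg (by omega)] at v2
    by_cases hi1 : i = 1
    · subst hi1
      rw [if_pos le_rfl] at v1
      obtain ⟨f1, f2, f3⟩ := hg.first ⟨0, by omega⟩ rfl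
      exact ⟨z, p ⟨0, by omega⟩, hmT2 c x y z S p _ v1, hmT4 c x y z S p _ _ v2, f1, f2, f3,
        hg.Sz, sw _, fun h' => absurd h' (by norm_num), fun _ => hg.xp _⟩
    · rw [if_neg (by omega)] at v1
      obtain ⟨f1, f2, f3⟩ := hg.step ⟨i - 2, by omega⟩ ⟨i - 1, by omega⟩ (by
        show i - 1 = i - 2 + 1
        omega)
      exact ⟨p ⟨i - 2, by omega⟩, p ⟨i - 1, by omega⟩,
        hmT4 c x y z S p _ _ (by rw [v1]; show i + 2 = i - 2 + 4; omega),
        hmT4 c x y z S p _ _ (by rw [v2]; show i + 1 + 2 = i - 1 + 4; omega), f1, f2, f3,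
        sw _, sw _, fun _ => hg.xp _, fun _ => hg.xp _⟩
  · have hcc : i + 1 = c := by omega
    rw [hcc, Nat.mod_self, if_pos (by norm_num)] at v2
    rw [if_neg (by omega)] at v1
    obtain ⟨f1, f2, f3⟩ := hg.last ⟨i - 2, by omega⟩ (by
      show i - 2 + 1 = c - 2
      omega)
    refine ⟨p ⟨i - 2, by omega⟩, y,
      hmT4 c x y z S p _ _ (by rw [v1]; show i + 2 = i - 2 + 4; omega),
      hmT1 c x y z S p _ (by rw [hcc]; exact v2), f1, f2, f3,
      sw _, hg.Sy, fun _ => hg.xp _, fun h' => absurd h' (by omega)⟩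

private theorem hmT_face (b : Bool) (i : ℕ) (h : Fin (c + 2) → V) :
    (F2.tface c b i).image h =
      {h (if b = true then 3 else 0), h (F2.cyv c i), h (F2.cyv c (i + 1))} := by
  unfold F2.tface
  rw [image_insert, image_insert, image_singleton]

/-- the faces are allowed -/
private theorem hmT_al (hc : 6 ≤ c) (hg : GoodP al c H x y z S p) (b : Bool) (i : ℕ)
    (hic : i < c) (hb : b = false → i ≠ 0) (T : Tri V)
    (hT : (F2.tface c b i).image (hmT c x y z S p) = T.1) : al T := by
  rw [hmT_face] at hT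
  cases b with
  | false =>
    rw [if_neg (by decide), hmT0 c x y z S p 0 rfl] at hT
    obtain ⟨u, v, hu, hv, -, a1, -⟩ := hmT_pair hc hg i
      (Nat.one_le_iff_ne_zero.2 (hb rfl)) hic
    rw [hu, hv] at hT
    exact a1 T hT.symm
  | true =>
    rw [if_pos rfl, hmT3 c x y z S p 3 (F2.three_val c hc)] at hT
    by_cases h0 : i = 0
    · subst h0
      have v1 := F2.cyv_val c 0 hc
      have v2 := F2.cyv_val c (0 + 1) hc
      rw [Nat.mod_eq_of_lt hic, if_pos (by norm_num)] at v1
      rw [Nat.mod_eq_of_lt (by omega), if_pos (by norm_num)] at v2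
      rw [hmT1 c x y z S p _ v1, hmT2 c x y z S p _ v2] at hT
      exact hg.root T hT.symm
    · obtain ⟨u, v, hu, hv, -, -, a1, -⟩ := hmT_pair hc hg i (Nat.one_le_iff_ne_zero.2 h0) hic
      rw [hu, hv] at hT
      exact a1 T hT.symm

/-- the new edges -/
private theorem hmT_edge (hc : 6 ≤ c) (hev : Even c) (hg : GoodP al c H x y z S p) (b : Bool)
    (i : ℕ) (hic : i < c) (hb : (b = false ∧ i % 2 = 0 ∧ i ≠ 0) ∨ (b = true ∧ i % 2 = 1))
    (T : Finset V) (hT : (F2.tface c b i).image (hmT c x y z S p) = T) : NW.edg T ⊆ H := by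
  obtain ⟨m, hm⟩ := hev
  rw [hmT_face] at hT
  have h1 : 1 ≤ i := by omega
  obtain ⟨u, v, hu, hv, e1, -, -, e2, e3, e4, e5⟩ := hmT_pair hc hg i h1 hic
  rw [hu, hv] at hT
  have key : ∀ a : V, s(a, u) ∈ H → s(a, v) ∈ H → NW.edg ({a, u, v} : Finset V) ⊆ H := by
    intro a ha1 ha2 e he
    induction e with
    | h q w =>
      rw [NW.mk_mem_edg] at he
      obtain ⟨hq, hw, hqw⟩ := he
      simp only [mem_insert, mem_singleton] at hq hw
      rcases hq with rfl | rfl | rfl <;> rcases hw with rfl | rfl | rfl <;>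
        first
          | exact absurd rfl hqw
          | assumption
          | (rw [Sym2.eq_swap]; assumption)
  rcases hb with ⟨rfl, h2, h3⟩ | ⟨rfl, h2⟩
  · rw [if_neg (by decide), hmT0 c x y z S p 0 rfl] at hT
    rw [← hT]
    exact key x (e4 (by omega)) (e5 (by omega))
  · rw [if_pos rfl, hmT3 c x y z S p 3 (F2.three_val c hc)] at hT
    rw [← hT]
    exact key S e2 e3

private theorem nl_ne (hn : NW.NL H) {a b : V} (h : s(a, b) ∈ H) : a ≠ b := by
  rintro rfl
  exact hn _ h rfl

private theorem hmT_inj (hn : NW.NL H) (hxy : x ≠ y) (hxz : x ≠ z) (hyz : y ≠ z)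
    (hg : GoodP al c H x y z S p) : Function.Injective (hmT c x y z S p) := by
  have cs : ∀ i : Fin (c + 2), (i.val = 0 ∧ hmT c x y z S p i = x) ∨
      (i.val = 1 ∧ hmT c x y z S p i = y) ∨ (i.val = 2 ∧ hmT c x y z S p i = z) ∨
      (i.val = 3 ∧ hmT c x y z S p i = S) ∨
      ∃ j : Fin (c - 2), i.val = j.val + 4 ∧ hmT c x y z S p i = p j := by
    intro i
    by_cases h0 : i.val = 0
    · exact Or.inl ⟨h0, hmT0 c x y z S p i h0⟩
    by_cases h1 : i.val = 1
    · exact Or.inr (Or.inl ⟨h1, hmT1 c x y z S p i h1⟩)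
    by_cases h2 : i.val = 2
    · exact Or.inr (Or.inr (Or.inl ⟨h2, hmT2 c x y z S p i h2⟩))
    by_cases h3 : i.val = 3
    · exact Or.inr (Or.inr (Or.inr (Or.inl ⟨h3, hmT3 c x y z S p i h3⟩)))
    have hlt := i.isLt
    have h4 : i.val = (⟨i.val - 4, by omega⟩ : Fin (c - 2)).val + 4 := by
      show i.val = i.val - 4 + 4
      omega
    exact Or.inr (Or.inr (Or.inr (Or.inr ⟨_, h4, hmT4 c x y z S p i _ h4⟩)))
  have hSy := nl_ne hn hg.Sy
  have hSz := nl_ne hn hg.Sz
  have hxp := fun j => nl_ne hn (hg.xp j)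
  have hpS := fun j => nl_ne hn (hg.pS j)
  intro i i' h
  rcases cs i with ⟨a, e⟩ | ⟨a, e⟩ | ⟨a, e⟩ | ⟨a, e⟩ | ⟨j, a, e⟩ <;>
    rcases cs i' with ⟨a', e'⟩ | ⟨a', e'⟩ | ⟨a', e'⟩ | ⟨a', e'⟩ | ⟨j', a', e'⟩ <;>
    rw [e, e'] at h
  · exact Fin.ext (by omega)
  · exact absurd h hxy
  · exact absurd h hxz
  · exact absurd h.symm hg.Sx
  · exact absurd h (hxp j')
  · exact absurd h.symm hxy
  · exact Fin.ext (by omega)
  · exact absurd h hyz
  · exact absurd h.symm hSy
  · exact absurd h.symm (hg.py j').1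
  · exact absurd h.symm hxz
  · exact absurd h.symm hyz
  · exact Fin.ext (by omega)
  · exact absurd h.symm hSz
  · exact absurd h.symm (hg.py j').2
  · exact absurd h hg.Sx
  · exact absurd h hSy
  · exact absurd h hSz
  · exact Fin.ext (by omega)
  · exact absurd h (hpS j')
  · exact absurd h.symm (hxp j)
  · exact absurd h (hg.py j).1
  · exact absurd h (hg.py j).2
  · exact absurd h.symm (hpS j)
  · have := hg.inj h
    subst this
    exact Fin.ext (by omega)

end Tem

/-- **Row HB-T.** -/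
theorem tem : TemStatement := by
  classical
  intro c hc hev V _ _ H al r x y z Q hn hr hQ
  have h3 := r.2
  rw [hr] at h3
  have hxy : x ≠ y := by
    rintro rfl
    have h4 : ({x, x, z} : Finset V).card ≤ 2 := by
      rw [insert_eq_of_mem (mem_insert_self _ _)]
      exact card_le_two
    omega
  have hxz : x ≠ z := by
    rintro rfl
    have h4 : ({x, y, x} : Finset V).card ≤ 2 := by
      rw [insert_eq_of_mem (by simp)]
      exact card_le_two
    omega
  have hyz : y ≠ z := by
    rintro rfl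
    have h4 : ({x, y, y} : Finset V).card ≤ 2 := by
      rw [pair_eq_singleton]
      exact card_le_two
    omega
  refine card_le_card_of_injOn (fun q => hmT c x y z q.1 q.2) ?_ ?_
  · rintro ⟨S, p⟩ hq
    have hg : GoodP al c H x y z S p := hQ _ hq
    show hmT c x y z S p ∈ (PlA c al H r : Set (Fin (c + 2) → V))
    rw [mem_coe]
    unfold PlA
    rw [mem_filter]
    refine ⟨?_, ?_⟩
    · unfold F2.Pl
      rw [mem_filter]
      refine ⟨mem_univ _, hmT_inj hn hxy hxz hyz hg, ?_, ?_⟩
      · unfold F2.rt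
        have e1 : ((1 : Fin (c + 2))).val = 1 := by
          have : ((1 : Fin (c + 2))).val = 1 % (c + 2) := rfl
          rw [this]
          exact Nat.mod_eq_of_lt (by omega)
        have e2 : ((2 : Fin (c + 2))).val = 2 := by
          have : ((2 : Fin (c + 2))).val = 2 % (c + 2) := rfl
          rw [this]
          exact Nat.mod_eq_of_lt (by omega)
        rw [hmT0 c x y z S p 0 rfl, hmT1 c x y z S p 1 e1, hmT2 c x y z S p 2 e2, hr]
      · intro e he
        unfold F2.bE at he
        rw [mem_biUnion] at he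
        obtain ⟨T, hT, heT⟩ := he
        unfold F2.OFF at hT
        rw [mem_filter, mem_image] at hT
        obtain ⟨-, f, hf, hfT⟩ := hT
        unfold F2.tOFF at hf
        rw [mem_union, mem_image, mem_image] at hf
        rcases hf with ⟨i, hi, rfl⟩ | ⟨i, hi, rfl⟩
        · rw [mem_filter, mem_range] at hi
          exact hmT_edge hc hev hg false i hi.1 (Or.inl ⟨rfl, hi.2.1, hi.2.2⟩) T.1 hfT heT
        · rw [mem_filter, mem_range] at hi
          exact hmT_edge hc hev hg true i hi.1 (Or.inr ⟨rfl, hi.2⟩) T.1 hfT heT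
    · intro T hT
      rw [mem_union] at hT
      rcases hT with hT | hT
      · unfold F2.ON at hT
        rw [mem_filter, mem_image] at hT
        obtain ⟨-, f, hf, hfT⟩ := hT
        unfold F2.tON at hf
        rw [mem_union, mem_image, mem_image] at hf
        rcases hf with ⟨i, hi, rfl⟩ | ⟨i, hi, rfl⟩
        · rw [mem_filter, mem_range] at hi
          exact hmT_al hc hg false i hi.1 (fun _ => by omega) T hfT
        · rw [mem_filter, mem_range] at hi
          exact hmT_al hc hg true i hi.1 (fun h => absurd h (by decide)) T hfT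
      · unfold F2.OFF at hT
        rw [mem_filter, mem_image] at hT
        obtain ⟨-, f, hf, hfT⟩ := hT
        unfold F2.tOFF at hf
        rw [mem_union, mem_image, mem_image] at hf
        rcases hf with ⟨i, hi, rfl⟩ | ⟨i, hi, rfl⟩
        · rw [mem_filter, mem_range] at hi
          exact hmT_al hc hg false i hi.1 (fun _ => hi.2.2) T hfT
        · rw [mem_filter, mem_range] at hi
          exact hmT_al hc hg true i hi.1 (fun h => absurd h (by decide)) T hfT
  · rintro ⟨S, p⟩ _ ⟨S', p'⟩ _ h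
    have h' : hmT c x y z S p = hmT c x y z S' p' := h
    have h5 : S = S' := by
      have h6 := congrFun h' 3
      rwa [hmT3 c x y z S p 3 (F2.three_val c hc),
        hmT3 c x y z S' p' 3 (F2.three_val c hc)] at h6
    have h7 : p = p' := by
      funext j
      have h6 := congrFun h' ⟨j.val + 4, by have := j.isLt; omega⟩
      rwa [hmT4 c x y z S p _ j rfl, hmT4 c x y z S' p' _ j rfl] at h6
    rw [h5, h7]

end F3.HB
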