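import Pool.Agent.F3.HB.Spec

/-!
# Project F3, block HB: tokens of the rigid worlds
-/

set_option autoImplicit false
set_option linter.unusedSectionVars false

namespace F3.HB

open Finset NW F1 F3

section Tok

variable {V : Type} [Fintype V] [DecidableEq V]

theorem gamR_mk (χ : V → Bool) (u v : V) :
    gam χ s(u, v) = if χ u = χ v then 2 else -1 := by
  unfold gam Int
  simp only [Sym2.mem_iff, forall_eq_or_imp, forall_eq]
  by_cases h : χ u = χ v
  · simp [h]
  · have h' : ¬ χ v = χ u := fun h'' => h h''.symm
    simp [h, h']

/-- the torsion weight as a function of the parts -/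
def tF (f a b c d : Bool) : ZMod 4 :=
  if f = true then
    (if (a = true ∧ b = true ∧ c = false ∧ d = true) ∨
      (c = true ∧ d = true ∧ a = false ∧ b = true) then 2 else 0)
  else
    (if (a = true ∧ b = true ∧ c = false ∧ d = false) ∨
        (c = true ∧ d = true ∧ a = false ∧ b = false) then 1
      else if (a = true ∧ b = false ∧ c = false ∧ d = false) ∨
        (c = true ∧ d = false ∧ a = false ∧ b = false) then -1
      else if a = false ∧ b = false ∧ c = false ∧ d = false then 2 else 0)

theorem tauR_mk (fl : Bool → Bool) (sd pt : V → Bool) (u v : V) :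
    tau fl sd pt s(u, v) = tF (fl true) (sd u) (pt u) (sd v) (pt v) := by
  unfold tau tF
  simp only [Sym2.mem_iff, exists_eq_or_imp, exists_eq_left, forall_eq_or_imp, forall_eq]
  cases fl true <;> cases sd u <;> cases pt u <;> cases sd v <;> cases pt v <;> simp

/-- the gam weight as a function of two sides -/
def gF (a c : Bool) : ℤ := if a = c then 2 else -1

/-- one cut -/
def G1F (_ : Fin 1) (a _ c _ : Bool) : ℤ := gF a c

/-- two cuts -/
def G2F (j : Fin 2) (a b c d : Bool) : ℤ := if j = 0 then gF a c else gF b d

/-- no torsion -/
def T0F (_ _ _ _ : Bool) : ZMod 4 := 0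

theorem tok_of (h : HexStatement) (g : HexRStatement) {r : ℕ} (H : Finset (Sym2 V))
    (fl : Bool → Bool) (sd pt : V → Bool) (At : Finset V) (hn : 10000 ≤ Fintype.card V)
    (hF : FR H fl sd pt At) (γ : Fin r → Sym2 V → ℤ) (τ : Sym2 V → ZMod 4)
    (G : Fin r → Bool → Bool → Bool → Bool → ℤ) (T : Bool → Bool → Bool → Bool → ZMod 4)
    (hG : ∀ j u v, γ j s(u, v) = G j (sd u) (pt u) (sd v) (pt v))
    (hT : ∀ u v, τ s(u, v) = T (sd u) (pt u) (sd v) (pt v))
    (b q : Fin 6 → Bool)
    (hbq : ∀ i, b i ≠ b (i + 1) ∨ (if fl (b i) = true then q i = q (i + 1) else q i ≠ q (i + 1)))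
    (a : Fin r → ℤ) (t : ZMod 4)
    (ha : ∀ j, ∑ i, G j (b i) (q i) (b (i + 1)) (q (i + 1)) = a j)
    (ht : ∑ i, T (b i) (q i) (b (i + 1)) (q (i + 1)) = t) :
    TokenOK H γ τ (1 / 1000) a t := by
  intro Z F hZ hFF
  obtain ⟨v, hinj, hv, hH⟩ := g V H fl sd pt At hn hF Z F hZ hFF b q hbq
  obtain ⟨h1, h2, h3, h4⟩ := h V v hinj
  refine ⟨univ.image (fun i => s(v i, v (i + 1))), ?_, h1, by omega, ?_, ?_, ?_⟩
  · intro e he
    obtain ⟨i, -, rfl⟩ := mem_image.1 he
    exact hH i
  · intro u hu
    obtain ⟨i, rfl⟩ := h4 u hu
    exact (hv i).1
  · intro j
    rw [h3 ℤ (γ j), ← ha j]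
    refine sum_congr rfl fun i _ => ?_
    rw [hG, (hv i).2.1, (hv i).2.2, (hv (i + 1)).2.1, (hv (i + 1)).2.2]
  · rw [h3 (ZMod 4) τ, ← ht]
    refine sum_congr rfl fun i _ => ?_
    rw [hT, (hv i).2.1, (hv i).2.2, (hv (i + 1)).2.1, (hv (i + 1)).2.2]

end Tok

/-- row HB-TR -/
theorem tokR (h : HexStatement) (g : HexRStatement) : TokRStatement := by
  intro V _ _ H fl sd pt At hn hF
  have hG1 : ∀ (j : Fin 1) (u v : V), g1 sd j s(u, v) =
      G1F j (sd u) (pt u) (sd v) (pt v) := by
    intro j u v
    simp only [g1, gF, G1F]
    exact gamR_mk sd u v
  have hG2 : ∀ (j : Fin 2) (u v : V), g2 sd pt j s(u, v) =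
      G2F j (sd u) (pt u) (sd v) (pt v) := by
    intro j u v
    simp only [g2, gF, G2F]
    split_ifs <;> simp_all [gamR_mk]
  constructor
  · intro hD
    constructor
    · intro j σ hσ
      have hj : j = 0 := Subsingleton.elim _ _
      subst hj
      rcases hf : fl true with _ | _
      · rcases hσ with rfl | rfl
        · refine tok_of h g H fl sd pt At hn hF _ _ G1F (tF (fl true)) hG1 (tauR_mk fl sd pt)
            ![true, true, true, false, false, false] ![true, false, true, true, true, true] ?_ _ _ ?_ ?_
          · intro i
            fin_cases i <;> simp [hf, hD]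
          · intro j
            have hj : j = 0 := Subsingleton.elim _ _
            subst hj
            decide
          · rw [hf]
            decide
        · refine tok_of h g H fl sd pt At hn hF _ _ G1F (tF (fl true)) hG1 (tauR_mk fl sd pt)
            ![true, false, true, false, true, false] ![true, true, true, true, true, true] ?_ _ _ ?_ ?_
          · intro i
            fin_cases i <;> simp
          · intro j
            have hj : j = 0 := Subsingleton.elim _ _
            subst hj
            decide
          · rw [hf]
            decide
      · rcases hσ with rfl | rfl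
        · refine tok_of h g H fl sd pt At hn hF _ _ G1F (tF (fl true)) hG1 (tauR_mk fl sd pt)
            ![true, true, true, false, false, false] ![false, false, false, false, false, false] ?_ _ _ ?_ ?_
          · intro i
            fin_cases i <;> simp [hf, hD]
          · intro j
            have hj : j = 0 := Subsingleton.elim _ _
            subst hj
            decide
          · rw [hf]
            decide
        · refine tok_of h g H fl sd pt At hn hF _ _ G1F (tF (fl true)) hG1 (tauR_mk fl sd pt)
            ![true, false, true, false, true, false] ![false, false, false, false, false, false] ?_ _ _ ?_ ?_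
          · intro i
            fin_cases i <;> simp
          · intro j
            have hj : j = 0 := Subsingleton.elim _ _
            subst hj
            decide
          · rw [hf]
            decide
    · rcases hf : fl true with _ | _
      · refine tok_of h g H fl sd pt At hn hF _ _ G1F (tF (fl true)) hG1 (tauR_mk fl sd pt)
            ![true, false, true, false, false, true] ![true, true, true, false, false, false] ?_ _ _ ?_ ?_
        · intro i
          fin_cases i <;> simp [hf, hD]
        · intro j
          have hj : j = 0 := Subsingleton.elim _ _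
          subst hj
          decide
        · rw [hf]
          decide
      · refine tok_of h g H fl sd pt At hn hF _ _ G1F (tF (fl true)) hG1 (tauR_mk fl sd pt)
            ![true, true, false, true, true, false] ![true, true, true, false, false, false] ?_ _ _ ?_ ?_
        · intro i
          fin_cases i <;> simp [hf, hD]
        · intro j
          have hj : j = 0 := Subsingleton.elim _ _
          subst hj
          decide
        · rw [hf]
          decide
  · intro hP j σ hσ
    have hT0 : ∀ u v : V, (fun _ : Sym2 V => (0 : ZMod 4)) s(u, v) =
        T0F (sd u) (pt u) (sd v) (pt v) := fun _ _ => rfl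
    have h2 : j = 0 ∨ j = 1 := by fin_cases j <;> simp
    rcases h2 with rfl | rfl
    · rcases hσ with rfl | rfl
      · refine tok_of h g H fl sd pt At hn hF _ _ G2F T0F hG2 hT0
            ![true, true, true, false, false, false] ![true, false, true, true, false, true] ?_ _ _ ?_ ?_
        · intro i
          fin_cases i <;> simp [hP]
        · decide
        · decide
      · refine tok_of h g H fl sd pt At hn hF _ _ G2F T0F hG2 hT0
            ![true, false, true, false, true, false] ![true, false, true, true, false, true] ?_ _ _ ?_ ?_
        · intro i
          fin_cases i <;> simp [hP]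
        · decide
        · decide
    · rcases hσ with rfl | rfl
      · refine tok_of h g H fl sd pt At hn hF _ _ G2F T0F hG2 hT0
            ![true, false, true, true, false, true] ![true, true, true, false, false, false] ?_ _ _ ?_ ?_
        · intro i
          fin_cases i <;> simp [hP]
        · decide
        · decide
      · refine tok_of h g H fl sd pt At hn hF _ _ G2F T0F hG2 hT0
            ![true, false, true, true, false, true] ![true, false, true, false, true, false] ?_ _ _ ?_ ?_
        · intro i
          fin_cases i <;> simp [hP]
        · decide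
        · decide

end F3.HB
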