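import Pool.Agent.F3.HB.Spec

/-!
# Project F3, block HB, row V2: values of the torsion invariant
-/

set_option autoImplicit false
set_option linter.unusedSectionVars false

namespace F3.HB

open Finset NW F1 F3

/-- the torsion weight of a pair in terms of the types of its ends -/
def t4 (F a p b q : Bool) : ZMod 4 :=
  if F = true then
    (if (a = true ∧ p = true ∧ b = false ∧ q = true) ∨
      (b = true ∧ q = true ∧ a = false ∧ p = true) then 2 else 0)
  else
    (if (a = true ∧ p = true ∧ b = false ∧ q = false) ∨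
        (b = true ∧ q = true ∧ a = false ∧ p = false) then 1
      else if (a = true ∧ p = false ∧ b = false ∧ q = false) ∨
        (b = true ∧ q = false ∧ a = false ∧ p = false) then -1
      else if a = false ∧ p = false ∧ b = false ∧ q = false then 2 else 0)

section

variable {V : Type} [Fintype V] [DecidableEq V]

theorem vb_tau (fl : Bool → Bool) (sd pt : V → Bool) (u v : V) :
    tau fl sd pt s(u, v) = t4 (fl true) (sd u) (pt u) (sd v) (pt v) := by
  have h1 : ∀ P Q : V → Prop, (∃ x ∈ s(u, v), ∃ y ∈ s(u, v), P x ∧ Q y) ↔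
      (P u ∧ Q u) ∨ (P u ∧ Q v) ∨ (P v ∧ Q u) ∨ (P v ∧ Q v) := by
    intro P Q
    simp only [Sym2.mem_iff, exists_eq_or_imp, exists_eq_left]
    tauto
  have h2 : (∃ x ∈ s(u, v), ∃ y ∈ s(u, v), sd x = true ∧ pt x = true ∧ sd y = false ∧ pt y = true) ↔
      (sd u = true ∧ pt u = true ∧ sd v = false ∧ pt v = true) ∨
      (sd v = true ∧ pt v = true ∧ sd u = false ∧ pt u = true) := by
    have := h1 (fun x => sd x = true ∧ pt x = true) (fun y => sd y = false ∧ pt y = true)
    simp only [and_assoc] at this
    rw [this]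
    cases sd u <;> cases sd v <;> cases pt u <;> cases pt v <;> simp
  have h3 : (∃ x ∈ s(u, v), ∃ y ∈ s(u, v), sd x = true ∧ pt x = true ∧ sd y = false ∧ pt y = false) ↔
      (sd u = true ∧ pt u = true ∧ sd v = false ∧ pt v = false) ∨
      (sd v = true ∧ pt v = true ∧ sd u = false ∧ pt u = false) := by
    have := h1 (fun x => sd x = true ∧ pt x = true) (fun y => sd y = false ∧ pt y = false)
    simp only [and_assoc] at this
    rw [this]
    cases sd u <;> cases sd v <;> cases pt u <;> cases pt v <;> simp
  have h4 : (∃ x ∈ s(u, v), ∃ y ∈ s(u, v), sd x = true ∧ pt x = false ∧ sd y = false ∧ pt y = false) ↔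
      (sd u = true ∧ pt u = false ∧ sd v = false ∧ pt v = false) ∨
      (sd v = true ∧ pt v = false ∧ sd u = false ∧ pt u = false) := by
    have := h1 (fun x => sd x = true ∧ pt x = false) (fun y => sd y = false ∧ pt y = false)
    simp only [and_assoc] at this
    rw [this]
    cases sd u <;> cases sd v <;> cases pt u <;> cases pt v <;> simp
  have h5 : (∀ x ∈ s(u, v), sd x = false ∧ pt x = false) ↔
      (sd u = false ∧ pt u = false ∧ sd v = false ∧ pt v = false) := by
    simp only [Sym2.mem_iff, forall_eq_or_imp, forall_eq]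
    tauto
  unfold tau t4
  simp only [h2, h3, h4, h5]

theorem vb_co (fl : Bool → Bool) (sd pt : V → Bool) (u v : V) : Co fl sd pt u v ↔
    (sd u ≠ sd v ∨ (if fl (sd v) = true then pt u = pt v else pt u ≠ pt v)) := Iff.rfl

theorem vb_deg (D : Finset (Sym2 V)) (v : V) :
    NW.deg D v = (D.filter (fun e => v ∈ e)).card := by
  unfold NW.deg
  refine Finset.card_bij (fun u _ => s(v, u)) ?_ ?_ ?_
  · intro u hu
    rw [mem_filter]
    exact ⟨mem_nbr.1 hu, Sym2.mem_mk_left v u⟩
  · intro u _ w _ h
    exact Sym2.congr_right.1 h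
  · intro e he
    rw [mem_filter] at he
    obtain ⟨u, rfl⟩ := Sym2.mem_iff_exists.1 he.2
    exact ⟨u, mem_nbr.2 he.1, rfl⟩

/-- reduction modulo two -/
def r2 : ZMod 4 →+* ZMod 2 := ZMod.castHom (by norm_num : 2 ∣ 4) (ZMod 2)

theorem r2_zero : r2 0 = 0 := map_zero _

theorem r2_one : r2 1 = 1 := map_one _

theorem r2_neg : r2 (-1) = 1 := by
  rw [map_neg, r2_one]; decide

theorem r2_two : r2 2 = 0 := by
  have : (2 : ZMod 4) = 1 + 1 := by decide
  rw [this, map_add, r2_one]; decide

theorem r2_eq (x : ZMod 4) (h : r2 x = 0) : x = 0 ∨ x = 2 := by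
  have h4 : x = 0 ∨ x = 1 ∨ x = 2 ∨ x = -1 := by
    revert x
    have : ∀ x : ZMod 4, x = 0 ∨ x = 1 ∨ x = 2 ∨ x = -1 := by decide
    intro x _
    exact this x
  rcases h4 with rfl | rfl | rfl | rfl
  · left; rfl
  · rw [r2_one] at h
    exact absurd h (by decide)
  · right; rfl
  · rw [r2_neg] at h
    exact absurd h (by decide)

theorem vb_r2 (a p b q : Bool)
    (h : a ≠ b ∨ (if (!b) = true then p = q else p ≠ q)) :
    (if a = false ∧ p = false then (1 : ZMod 2) else 0) +
      (if b = false ∧ q = false then (1 : ZMod 2) else 0) = r2 (t4 false a p b q) := by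
  cases a <;> cases b <;> cases p <;> cases q <;>
    simp [t4, r2_zero, r2_one, r2_neg, r2_two] at h ⊢ <;> decide

theorem vb_even (fl : Bool → Bool) (sd pt : V → Bool) (D : Finset (Sym2 V))
    (hfl : ∀ x, fl x = !x) (hD : NW.NL D) (hco : ∀ u v, s(u, v) ∈ D → Co fl sd pt u v)
    (hev : ∀ v, Even (NW.deg D v)) : r2 (∑ e ∈ D, tau fl sd pt e) = 0 := by
  have h0 : ∑ v ∈ univ.filter (fun v => sd v = false ∧ pt v = false),
      ((NW.deg D v : ℕ) : ZMod 2) = 0 := by
    refine Finset.sum_eq_zero fun v _ => ?_
    obtain ⟨k, hk⟩ := hev v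
    rw [hk]
    push_cast
    exact CharTwo.add_self_eq_zero _
  rw [map_sum, ← h0]
  have h1 : ∀ v ∈ univ.filter (fun v => sd v = false ∧ pt v = false),
      ((NW.deg D v : ℕ) : ZMod 2) = ∑ e ∈ D, if v ∈ e then (1 : ZMod 2) else 0 := by
    intro v _
    rw [vb_deg, Finset.card_filter, Nat.cast_sum]
    refine Finset.sum_congr rfl fun e _ => ?_
    split_ifs
    · exact Nat.cast_one
    · exact Nat.cast_zero
  rw [Finset.sum_congr rfl h1, Finset.sum_comm]
  refine Finset.sum_congr rfl fun e he => ?_
  induction e using Sym2.ind with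
  | _ u w =>
    have hne : u ≠ w := by
      intro h
      exact hD _ he (by rw [h]; exact Sym2.mk_isDiag_iff.2 rfl)
    have hc := (vb_co fl sd pt u w).1 (hco u w he)
    have h2 : ∑ v ∈ univ.filter (fun v => sd v = false ∧ pt v = false),
        (if v ∈ s(u, w) then (1 : ZMod 2) else 0) =
        ∑ v ∈ ({u, w} : Finset V), if sd v = false ∧ pt v = false then (1 : ZMod 2) else 0 := by
      rw [Finset.sum_filter, ← Finset.sum_filter_add_sum_filter_not univ (fun v => v ∈ ({u, w} : Finset V))]
      have e1 : univ.filter (fun v => v ∈ ({u, w} : Finset V)) = {u, w} := by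
        ext v; simp
      have e2 : ∑ v ∈ univ.filter (fun v => ¬ v ∈ ({u, w} : Finset V)),
          (if sd v = false ∧ pt v = false then (if v ∈ s(u, w) then (1 : ZMod 2) else 0) else 0) =
          0 := by
        refine Finset.sum_eq_zero fun v hv => ?_
        rw [mem_filter] at hv
        have : ¬ v ∈ s(u, w) := by
          rw [Sym2.mem_iff]
          intro h
          apply hv.2
          rw [mem_insert, mem_singleton]
          exact h
        rw [if_neg this]
        split_ifs <;> rfl
      rw [e2, add_zero, e1]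
      refine Finset.sum_congr rfl fun v hv => ?_
      have : v ∈ s(u, w) := by
        rw [Sym2.mem_iff]
        rw [mem_insert, mem_singleton] at hv
        exact hv
      rw [if_pos this]
    rw [h2, Finset.sum_pair hne, vb_tau]
    rw [hfl (sd w)] at hc
    have h3 : fl true = false := by rw [hfl]; rfl
    rw [h3, vb_r2 _ _ _ _ hc]

theorem vb_tri (f : Sym2 V → ZMod 4) {a b c : V} (hab : a ≠ b) (hbc : b ≠ c) (hac : a ≠ c) :
    ∑ e ∈ NW.edg {a, b, c}, f e = f s(a, b) + f s(b, c) + f s(a, c) := by
  rw [NW.edg_triple hab hbc hac]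
  unfold NW.tri
  rw [Finset.sum_insert, Finset.sum_insert, Finset.sum_singleton]
  · ring
  · rw [mem_singleton]
    intro h
    rw [Sym2.eq_iff] at h
    rcases h with h | h
    · exact hab h.1.symm
    · exact hbc h.1
  · rw [mem_insert, mem_singleton]
    rintro (h | h)
    · rw [Sym2.eq_iff] at h
      rcases h with h | h
      · exact hab h.1
      · exact hac h.1
    · rw [Sym2.eq_iff] at h
      rcases h with h | h
      · exact hbc h.2
      · exact hac h.1

theorem vb_fin (F a p b q c r : Bool)
    (hcr : ¬ (a = b ∧ b = c))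
    (h1 : a ≠ b ∨ (if (if b then F else true) = true then p = q else p ≠ q))
    (h2 : b ≠ c ∨ (if (if c then F else true) = true then q = r else q ≠ r))
    (h3 : a ≠ c ∨ (if (if c then F else true) = true then p = r else p ≠ r)) :
    t4 F a p b q + t4 F b q c r + t4 F a p c r = 0 := by
  cases F <;> cases a <;> cases b <;> cases c <;> cases p <;> cases q <;> cases r <;>
    first
      | exact absurd ⟨rfl, rfl⟩ hcr
      | (exfalso; revert h1; decide)
      | (exfalso; revert h2; decide)
      | (exfalso; revert h3; decide)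
      | decide

end

/-- **Row HB-V2.** -/
theorem valB : ValBStatement := by
  intro V _ _
  constructor
  · intro fl sd pt D hf hD hco hev
    by_cases ht : fl true = true
    · have hval : ∀ e, tau fl sd pt e = 0 ∨ tau fl sd pt e = 2 := by
        intro e
        unfold tau
        rw [if_pos ht]
        split_ifs
        · right; rfl
        · left; rfl
      refine Finset.sum_induction _ (fun x : ZMod 4 => x = 0 ∨ x = 2) ?_ (Or.inl rfl)
        (fun e _ => hval e)
      decide
    · have ht' : fl true = false := by simpa using ht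
      have hfl : ∀ x, fl x = !x := by
        intro x
        cases x
        · exact hf
        · exact ht'
      exact r2_eq _ (vb_even fl sd pt D hfl hD hco hev)
  · rintro fl sd pt ⟨T, hT⟩ hf ⟨hcr, hco⟩
    obtain ⟨a, b, c, hab, hac, hbc, rfl⟩ := Finset.card_eq_three.1 hT
    have hfl : ∀ x, fl x = if x then fl true else true := by
      intro x
      cases x
      · exact hf
      · rfl
    have ha : a ∈ ({a, b, c} : Finset V) := by simp
    have hb : b ∈ ({a, b, c} : Finset V) := by simp
    have hc : c ∈ ({a, b, c} : Finset V) := by simp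
    have h1 := (vb_co fl sd pt a b).1 (hco a ha b hb hab)
    have h2 := (vb_co fl sd pt b c).1 (hco b hb c hc hbc)
    have h3 := (vb_co fl sd pt a c).1 (hco a ha c hc hac)
    rw [hfl (sd b)] at h1
    rw [hfl (sd c)] at h2 h3
    have hcr2 : ¬ (sd a = sd b ∧ sd b = sd c) := by
      rintro ⟨e1, e2⟩
      obtain ⟨u, hu, v, hv, huv⟩ := hcr
      apply huv
      have key : ∀ x ∈ ({a, b, c} : Finset V), sd x = sd a := by
        intro x hx
        rw [mem_insert, mem_insert, mem_singleton] at hx
        rcases hx with rfl | rfl | rfl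
        · rfl
        · exact e1.symm
        · exact (e1.trans e2).symm
      rw [key u hu, key v hv]
    show ∑ e ∈ NW.edg {a, b, c}, tau fl sd pt e = 0
    rw [vb_tri _ hab hbc hac, vb_tau, vb_tau, vb_tau]
    exact vb_fin _ _ _ _ _ _ _ hcr2 h1 h2 h3

end F3.HB
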