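import Pool.Agent.F3.HB.Spec

/-!
# Project F3, block HB, row V3: values of the weights on the allowed triangles of world T
-/

set_option autoImplicit false
set_option linter.unusedSectionVars false

namespace F3.HB

open Finset NW F1 F3

/-- the three cuts, as functions of the part -/
def v3c (t : Fin 3) (x y : Bool) : Bool := if t = 0 then x else if t = 1 then y else xor x y

theorem v3_a : ∀ (t : Fin 3) (a b c d e f : Bool), ¬ (a = c ∧ b = d) → ¬ (c = e ∧ d = f) →
    ¬ (a = e ∧ b = f) → (if v3c t a b = v3c t c d then (2 : ℤ) else -1) +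
      (if v3c t c d = v3c t e f then (2 : ℤ) else -1) +
      (if v3c t a b = v3c t e f then (2 : ℤ) else -1) = 0 := by
  decide

theorem v3_b : ∀ (t s : Fin 3) (a b e f : Bool), v3c s a b = v3c s e f → ¬ (a = e ∧ b = f) →
    (if s = t then (-4 : ℤ) else 2) +
      (if v3c t a b = v3c t e f then (2 : ℤ) else -1) +
      (if v3c t a b = v3c t e f then (2 : ℤ) else -1) = 0 := by
  decide

section

variable {V : Type} [Fintype V] [DecidableEq V]

theorem v3_sum (f : Sym2 V → ℤ) {a b c : V} (hab : a ≠ b) (hbc : b ≠ c) (hac : a ≠ c) :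
    ∑ e ∈ NW.edg ({a, b, c} : Finset V), f e = f s(a, b) + f s(b, c) + f s(a, c) := by
  rw [NW.edg_triple hab hbc hac]
  unfold NW.tri
  rw [Finset.sum_insert, Finset.sum_pair]
  · ring
  · rw [Ne, Sym2.eq_iff]
    rintro (⟨h, _⟩ | ⟨h, _⟩)
    · exact hab h.symm
    · exact hbc h
  · rw [Finset.mem_insert, Finset.mem_singleton, Sym2.eq_iff, Sym2.eq_iff]
    rintro ((⟨h, _⟩ | ⟨h, _⟩) | (⟨_, h⟩ | ⟨h, _⟩))
    · exact hab h
    · exact hac h
    · exact hbc h
    · exact hac h

theorem v3_gam (χ : V → Bool) (a b : V) : gam χ s(a, b) = if χ a = χ b then 2 else -1 := by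
  unfold gam
  have h : Int χ s(a, b) ↔ χ a = χ b := by
    unfold Int
    constructor
    · intro h
      exact h a (by simp) b (by simp)
    · intro h u hu v hv
      rw [Sym2.mem_iff] at hu hv
      rcases hu with rfl | rfl <;> rcases hv with rfl | rfl <;> simp [h]
  by_cases h1 : χ a = χ b
  · rw [if_pos h1, if_pos (h.2 h1)]
  · rw [if_neg h1, if_neg (fun h2 => h1 (h.1 h2))]

theorem v3_cut (sd pt : V → Bool) (t : Fin 3) (v : V) : cut sd pt t v = v3c t (sd v) (pt v) := rfl

theorem v3_core (sd pt : V → Bool) (ty : Sym2 V → Fin 3) (t : Fin 3) {a b : V}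
    (h : ¬ (sd a = sd b ∧ pt a = pt b)) :
    gamT sd pt ty t s(a, b) =
      if v3c t (sd a) (pt a) = v3c t (sd b) (pt b) then 2 else -1 := by
  unfold gamT
  rw [if_neg, v3_gam, v3_cut, v3_cut]
  rintro ⟨h1, _⟩
  exact h (h1 a (by simp) b (by simp))

theorem v3_exc (sd pt : V → Bool) (ty : Sym2 V → Fin 3) (t : Fin 3) {a b : V}
    (h : sd a = sd b ∧ pt a = pt b) :
    gamT sd pt ty t s(a, b) = if ty s(a, b) = t then -4 else 2 := by
  have hE : Exc sd pt s(a, b) := by
    intro u hu v hv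
    rw [Sym2.mem_iff] at hu hv
    rcases hu with rfl | rfl <;> rcases hv with rfl | rfl <;> simp [h.1, h.2]
  unfold gamT
  by_cases h1 : ty s(a, b) = t
  · rw [if_pos ⟨hE, h1⟩, if_pos h1]
  · rw [if_neg (fun h2 => h1 h2.2), if_neg h1, v3_gam, v3_cut, v3_cut, h.1, h.2, if_pos rfl]

end

/-- row V3 -/
theorem valC : ValCStatement := by
  intro V _ _ sd pt ty T hT t
  rcases hT with hT | ⟨u, v, w, hT, huv, hp, hc⟩
  · obtain ⟨a, b, c, hab, hac, hbc, hT3⟩ := Finset.card_eq_three.1 T.2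
    have ha : a ∈ T.1 := by rw [hT3]; simp
    have hb : b ∈ T.1 := by rw [hT3]; simp
    have hc : c ∈ T.1 := by rw [hT3]; simp
    rw [hT3, v3_sum _ hab hbc hac, v3_core sd pt ty t (hT a ha b hb hab),
      v3_core sd pt ty t (hT b hb c hc hbc), v3_core sd pt ty t (hT a ha c hc hac)]
    exact v3_a t _ _ _ _ _ _ (hT a ha b hb hab) (hT b hb c hc hbc) (hT a ha c hc hac)
  · obtain ⟨hc1, hc2⟩ := hc
    have hc3 : ¬ (sd v = sd w ∧ pt v = pt w) := by
      rw [← hp.1, ← hp.2]
      exact hc2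
    have huw : u ≠ w := by
      rintro rfl
      exact hc2 ⟨rfl, rfl⟩
    have hvw : v ≠ w := by
      rintro rfl
      exact hc3 ⟨rfl, rfl⟩
    rw [hT, v3_sum _ huv hvw huw, v3_exc sd pt ty t hp, v3_core sd pt ty t hc3,
      v3_core sd pt ty t hc2, ← hp.1, ← hp.2]
    exact v3_b t (ty s(u, v)) _ _ _ _ hc1 hc2

end F3.HB
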