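import Pool.Agent.F3.HB.Spec

/-!
# Project F3, row HB-VG: virtual triples in the worlds N, S, G
-/

set_option autoImplicit false
set_option linter.unusedSectionVars false

namespace F3.HB

open Finset NW F1 F3

section Lb

variable {V : Type} [Fintype V] [DecidableEq V]

/-- the virtual triples over `s(u, v)` given by a set of third vertices -/
theorem virt_lb {al : Tri V → Prop} {H : Finset (Sym2 V)} {u v : V}
    (hNL : NW.NL (insert s(u, v) H)) {N : Finset V}
    (hN : ∀ w ∈ N, s(u, w) ∈ H ∧ s(v, w) ∈ H ∧ Al al {u, v, w}) :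
    N.card ≤ (vtr al H s(u, v)).card := by
  classical
  have huv : u ≠ v := by
    have h := hNL s(u, v) (mem_insert_self _ _)
    rwa [Sym2.mk_isDiag_iff] at h
  have hne : ∀ w ∈ N, u ≠ w ∧ v ≠ w := by
    intro w hw
    obtain ⟨h1, h2, -⟩ := hN w hw
    have h3 := hNL _ (mem_insert_of_mem h1)
    have h4 := hNL _ (mem_insert_of_mem h2)
    rw [Sym2.mk_isDiag_iff] at h3 h4
    exact ⟨h3, h4⟩
  have h1 : N.card = (N.image (fun w => ({u, v, w} : Finset V))).card := by
    symm
    apply card_image_of_injOn
    intro w hw w' hw' e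
    have h2 := hne w hw
    simp only at e
    have h3 : w ∈ ({u, v, w'} : Finset V) := by
      rw [← e]
      simp
    simp only [mem_insert, mem_singleton] at h3
    rcases h3 with h3 | h3 | h3
    · exact absurd h3.symm h2.1
    · exact absurd h3.symm h2.2
    · exact h3
  have h2 : N.image (fun w => ({u, v, w} : Finset V)) ⊆
      (vtr al H s(u, v)).image (fun T => T.1) := by
    intro t ht
    obtain ⟨w, hw, rfl⟩ := mem_image.1 ht
    obtain ⟨k1, k2, k3⟩ := hN w hw
    obtain ⟨n1, n2⟩ := hne w hw
    have hc : ({u, v, w} : Finset V).card = 3 := card_eq_three.2 ⟨u, v, w, huv, n1, n2, rfl⟩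
    refine mem_image.2 ⟨⟨{u, v, w}, hc⟩, ?_, rfl⟩
    unfold vtr
    refine mem_filter.2 ⟨mem_univ _, k3 _ rfl, ?_, ?_⟩
    · rw [NW.mk_mem_edg]
      simp [huv]
    · intro f hf
      obtain ⟨hf1, hf2⟩ := mem_sdiff.1 hf
      change f ∈ NW.edg ({u, v, w} : Finset V) at hf1
      rw [NW.edg_triple huv n2 n1, NW.mem_tri] at hf1
      rcases hf1 with rfl | rfl | rfl
      · exact absurd (mem_singleton_self _) hf2
      · exact k2
      · exact k1
  rw [h1]
  exact (card_le_card h2).trans card_image_le

theorem inter_lb {X Y S : Finset V} (hX : X ⊆ S) (hY : Y ⊆ S) :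
    (X.card : ℝ) + Y.card - S.card ≤ ((X ∩ Y).card : ℝ) := by
  have h1 := card_inter_add_card_union X Y
  have h2 : (X ∪ Y).card ≤ S.card := card_le_card (union_subset hX hY)
  have h3 : (X.card : ℝ) + Y.card = (X ∩ Y).card + (X ∪ Y).card := by
    exact_mod_cast h1.symm
  have h4 : ((X ∪ Y).card : ℝ) ≤ S.card := by exact_mod_cast h2
  linarith

theorem Al_true (t : Finset V) : Al (fun _ => True) t := fun _ _ => trivial

/-- a crossing triple with all edges outside `De` is allowed -/
theorem Al_cro {De : Finset (Sym2 V)} {sd : V → Bool} {u v w : V} (huv : u ≠ v) (hvw : v ≠ w)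
    (huw : u ≠ w) (h1 : s(u, v) ∉ De) (h2 : s(u, w) ∉ De) (h3 : s(v, w) ∉ De)
    (h : sd u ≠ sd v ∨ sd u ≠ sd w ∨ sd v ≠ sd w) : Al (alX De sd) {u, v, w} := by
  intro T hT
  refine Or.inl ⟨?_, ?_⟩
  · unfold Cro
    rw [hT]
    rcases h with h | h | h
    · exact ⟨u, by simp, v, by simp, h⟩
    · exact ⟨u, by simp, w, by simp, h⟩
    · exact ⟨v, by simp, w, by simp, h⟩
  · rw [hT, NW.edg_triple huv hvw huw, disjoint_left]
    intro e he
    rw [NW.mem_tri] at he
    rcases he with rfl | rfl | rfl
    · exact h1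
    · exact h3
    · exact h2

/-- an internal triple with exactly one designated edge is allowed -/
theorem Al_int {De : Finset (Sym2 V)} {sd : V → Bool} {u v w : V} (huv : u ≠ v) (hvw : v ≠ w)
    (huw : u ≠ w) (h1 : s(u, v) ∈ De) (h2 : s(u, w) ∉ De) (h3 : s(v, w) ∉ De)
    (h4 : sd u = sd v) (h5 : sd u = sd w) : Al (alX De sd) {u, v, w} := by
  intro T hT
  refine Or.inr ⟨?_, ?_⟩
  · rintro ⟨a, ha, b, hb, hab⟩
    rw [hT] at ha hb
    simp only [mem_insert, mem_singleton] at ha hb
    apply hab
    have ha' : sd a = sd u := by rcases ha with rfl | rfl | rfl <;> simp_all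
    have hb' : sd b = sd u := by rcases hb with rfl | rfl | rfl <;> simp_all
    rw [ha', hb']
  · rw [card_eq_one]
    refine ⟨s(u, v), ?_⟩
    rw [hT, NW.edg_triple huv hvw huw]
    ext e
    rw [mem_inter, mem_singleton, NW.mem_tri]
    constructor
    · rintro ⟨rfl | rfl | rfl, he⟩
      · rfl
      · exact absurd he h3
      · exact absurd he h2
    · rintro rfl
      exact ⟨Or.inl rfl, h1⟩

end Lb

theorem virtG : VirtGStatement := by
  classical
  intro V _ _ E H hE hHE hn
  have hnn : (0 : ℝ) ≤ nn V := Nat.cast_nonneg _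
  refine ⟨?_, ?_⟩
  · intro θ hR e he
    induction e with
    | _ u v =>
      have hNL : NW.NL (insert s(u, v) H) := by
        rw [insert_eq_of_mem he]
        exact hR.nl
      have h1 := virt_lb (al := fun _ => True) hNL (N := nbr H u ∩ nbr H v) (by
        intro w hw
        obtain ⟨k1, k2⟩ := mem_inter.1 hw
        exact ⟨NW.mem_nbr.1 k1, NW.mem_nbr.1 k2, Al_true _⟩)
      have h2 := hR.three u v v
      rw [inter_assoc, inter_self] at h2
      have h3 : ((nbr H u ∩ nbr H v).card : ℝ) ≤ ((vtr (fun _ => True) H s(u, v)).card : ℝ) := by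
        exact_mod_cast h1
      have h4 : 1 / 8 * nn V = nn V / 8 := by ring
      rw [h4]
      exact h2.trans h3
  · intro De sd At c₀ hF hHD hDe hrich e he
    have hHde : ∀ f ∈ H, f ∉ De := fun f hf => (mem_sdiff.1 (hHD hf)).2
    induction e with
    | _ u v =>
      have hNL : NW.NL (insert s(u, v) H) := by
        intro f hf
        rcases mem_insert.1 hf with rfl | hf
        · exact hE _ he
        · exact hF.nl f hf
      have huv : u ≠ v := by
        have h := hE _ he
        rwa [Sym2.mk_isDiag_iff] at h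
      have hne : ∀ w, s(u, w) ∈ H → s(v, w) ∈ H → u ≠ w ∧ v ≠ w := by
        intro w h1 h2
        have h3 := hF.nl _ h1
        have h4 := hF.nl _ h2
        rw [Sym2.mk_isDiag_iff] at h3 h4
        exact ⟨h3, h4⟩
      by_cases hd : s(u, v) ∈ De
      · -- designated
        have hsd : sd u = sd v := hDe _ hd u (Sym2.mem_mk_left _ _) v (Sym2.mem_mk_right _ _)
        have h1 := virt_lb (al := alX De sd) hNL
          (N := (Sd sd (sd u) \ At).filter (fun r => s(u, r) ∈ H ∧ s(v, r) ∈ H)) (by
          intro w hw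
          obtain ⟨k1, k2, k3⟩ := mem_filter.1 hw
          have k4 : sd w = sd u := (mem_filter.1 (mem_sdiff.1 k1).1).2
          obtain ⟨n1, n2⟩ := hne w k2 k3
          exact ⟨k2, k3, Al_int huv n2 n1 hd (hHde _ k2) (hHde _ k3) hsd k4.symm⟩)
        have h2 := hrich u v hd
        have h3 : (((Sd sd (sd u) \ At).filter (fun r => s(u, r) ∈ H ∧ s(v, r) ∈ H)).card : ℝ) ≤
            ((vtr (alX De sd) H s(u, v)).card : ℝ) := by exact_mod_cast h1
        exact ((mul_le_mul_of_nonneg_right (min_le_left _ _) hnn).trans h2).trans h3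
      · by_cases hs : sd u = sd v
        · -- internal
          have h1 := virt_lb (al := alX De sd) hNL
            (N := (nbr H u ∩ Sd sd (!sd u)) ∩ (nbr H v ∩ Sd sd (!sd u))) (by
            intro w hw
            obtain ⟨k1, k2⟩ := mem_inter.1 hw
            obtain ⟨k1, k3⟩ := mem_inter.1 k1
            have k4 : sd w = !sd u := (mem_filter.1 k3).2
            have k5 := NW.mem_nbr.1 k1
            have k6 := NW.mem_nbr.1 (mem_inter.1 k2).1
            obtain ⟨n1, n2⟩ := hne w k5 k6
            refine ⟨k5, k6, Al_cro huv n2 n1 hd (hHde _ k5) (hHde _ k6) (Or.inr (Or.inl ?_))⟩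
            rw [k4]
            exact (Bool.not_ne_self _).symm)
          have h2 := inter_lb (X := nbr H u ∩ Sd sd (!sd u)) (Y := nbr H v ∩ Sd sd (!sd u))
            (S := Sd sd (!sd u)) inter_subset_right inter_subset_right
          have h3 := hF.cross u
          have h4 := hF.cross v
          rw [← hs] at h4
          have h5 := hF.side (!sd u)
          have h6 : (((nbr H u ∩ Sd sd (!sd u)) ∩ (nbr H v ∩ Sd sd (!sd u))).card : ℝ) ≤
              ((vtr (alX De sd) H s(u, v)).card : ℝ) := by exact_mod_cast h1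
          have h7 := mul_le_mul_of_nonneg_right (min_le_right c₀ (1 / 50 : ℝ)) hnn
          linarith
        · -- crossing
          have h1 := virt_lb (al := alX De sd) hNL
            (N := (nbr H u ∩ Sd sd (sd u)) ∩ (nbr H v ∩ Sd sd (sd u))) (by
            intro w hw
            obtain ⟨k1, k2⟩ := mem_inter.1 hw
            obtain ⟨k1, -⟩ := mem_inter.1 k1
            have k5 := NW.mem_nbr.1 k1
            have k6 := NW.mem_nbr.1 (mem_inter.1 k2).1
            obtain ⟨n1, n2⟩ := hne w k5 k6
            exact ⟨k5, k6, Al_cro huv n2 n1 hd (hHde _ k5) (hHde _ k6) (Or.inl hs)⟩)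
          have h2 := inter_lb (X := nbr H u ∩ Sd sd (sd u)) (Y := nbr H v ∩ Sd sd (sd u))
            (S := Sd sd (sd u)) inter_subset_right inter_subset_right
          have h3 := hF.int u
          have h4 := hF.cross v
          have hs' : (!sd v) = sd u := by
            cases hu : sd u <;> cases hv : sd v <;> simp_all
          rw [hs'] at h4
          have h5 := hF.side (sd u)
          have h6 : (((nbr H u ∩ Sd sd (sd u)) ∩ (nbr H v ∩ Sd sd (sd u))).card : ℝ) ≤
              ((vtr (alX De sd) H s(u, v)).card : ℝ) := by exact_mod_cast h1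
          have h7 := mul_le_mul_of_nonneg_right (min_le_right c₀ (1 / 50 : ℝ)) hnn
          linarith

end F3.HB
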