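import Pool.Agent.F3.HB.Spec

/-!
# Project F3, block HB, row VR: virtual triples in world R (helper28)
-/

set_option autoImplicit false
set_option linter.unusedSectionVars false

namespace F3.HB

open Finset NW F1 F3

section VR

variable {V : Type} [Fintype V] [DecidableEq V]

/-- many triples over an edge -/
private theorem vr_lb (al : Tri V → Prop) (H : Finset (Sym2 V)) (hH : NW.NL H) {u v : V}
    (huv : u ≠ v) (N : Finset V)
    (hN : ∀ w ∈ N, s(u, w) ∈ H ∧ s(v, w) ∈ H ∧ Al al {u, v, w}) :
    N.card ≤ (vtr al H s(u, v)).card := by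
  classical
  have hne : ∀ w ∈ N, u ≠ w ∧ v ≠ w := by
    intro w hw
    refine ⟨?_, ?_⟩
    · rintro rfl
      exact hH _ (hN u hw).1 (by simp)
    · rintro rfl
      exact hH _ (hN v hw).2.1 (by simp)
  rw [← Finset.card_attach]
  refine Finset.card_le_card_of_injOn (fun w : {w // w ∈ N} => (⟨{u, v, w.1},
    Finset.card_eq_three.2 ⟨u, v, w.1, huv, (hne w.1 w.2).1, (hne w.1 w.2).2, rfl⟩⟩ : Tri V))
    ?_ ?_
  · intro w _
    have h1 := hN w.1 w.2
    have h2 := hne w.1 w.2
    show _ ∈ ((vtr al H s(u, v) : Finset (Tri V)) : Set (Tri V))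
    rw [Finset.mem_coe]
    unfold vtr
    rw [Finset.mem_filter]
    refine ⟨Finset.mem_univ _, h1.2.2 _ rfl, ?_, ?_⟩
    · show s(u, v) ∈ NW.edg {u, v, w.1}
      rw [NW.mk_mem_edg]
      exact ⟨by simp, by simp, huv⟩
    · show NW.edg {u, v, w.1} \ {s(u, v)} ⊆ H
      rw [NW.edg_triple huv h2.2 h2.1]
      intro e he
      rw [Finset.mem_sdiff, Finset.mem_singleton] at he
      rcases NW.mem_tri.1 he.1 with h3 | rfl | rfl
      · exact absurd h3 he.2
      · exact h1.2.1
      · exact h1.1
  · intro w _ w' _ h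
    have h1 := congrArg Subtype.val h
    simp only at h1
    have h2 : w.1 ∈ ({u, v, w'.1} : Finset V) := by
      rw [← h1]
      simp
    simp only [Finset.mem_insert, Finset.mem_singleton] at h2
    rcases h2 with h2 | h2 | h2
    · exact absurd h2.symm (hne w.1 w.2).1
    · exact absurd h2.symm (hne w.1 w.2).2
    · exact Subtype.ext h2

private theorem vr_inter (A B P : Finset V) :
    ((A ∩ P).card : ℝ) + ((B ∩ P).card : ℝ) ≤ ((A ∩ B ∩ P).card : ℝ) + (P.card : ℝ) := by
  have h1 := Finset.card_union_add_card_inter (A ∩ P) (B ∩ P)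
  have h2 : (A ∩ P ∪ B ∩ P).card ≤ P.card := by
    apply Finset.card_le_card
    intro x hx
    simp only [Finset.mem_union, Finset.mem_inter] at hx
    tauto
  have h3 : (A ∩ P) ∩ (B ∩ P) = A ∩ B ∩ P := by
    ext x
    simp only [Finset.mem_inter]
    tauto
  rw [h3] at h1
  have h4 : (A ∩ P).card + (B ∩ P).card ≤ (A ∩ B ∩ P).card + P.card := by omega
  exact_mod_cast h4

private theorem vr_sdiff (A B : Finset V) :
    (A.card : ℝ) ≤ ((A \ B).card : ℝ) + (B.card : ℝ) := by
  have h1 := Finset.le_card_sdiff B A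
  have h2 : A.card ≤ (A \ B).card + B.card := by omega
  exact_mod_cast h2

private theorem vr_symm {fl : Bool → Bool} {sd pt : V → Bool} {u w : V}
    (h : Co fl sd pt u w) : Co fl sd pt w u := by
  unfold Co CoP at h ⊢
  by_cases h1 : sd u = sd w
  · rcases h with h | h
    · exact absurd h1 h
    · right
      rw [h1]
      by_cases h2 : fl (sd w) = true
      · rw [if_pos h2] at h ⊢
        exact h.symm
      · rw [if_neg h2] at h ⊢
        exact Ne.symm h
  · exact Or.inl (Ne.symm h1)

private theorem vr_cross {E De H : Finset (Sym2 V)} {sd : V → Bool} (hH : H ⊆ E \ De)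
    {u v w : V} (huv : u ≠ v) (huw : u ≠ w) (hvw : v ≠ w) (h1 : s(u, v) ∉ De)
    (h2 : s(u, w) ∈ H) (h3 : s(v, w) ∈ H) (hc : sd u ≠ sd v ∨ sd u ≠ sd w) :
    Al (alX De sd) {u, v, w} := by
  intro T hT
  left
  constructor
  · rcases hc with hc | hc
    · exact ⟨u, by rw [hT]; simp, v, by rw [hT]; simp, hc⟩
    · exact ⟨u, by rw [hT]; simp, w, by rw [hT]; simp, hc⟩
  · rw [hT, NW.edg_triple huv hvw huw, Finset.disjoint_left]
    intro e he hDe
    rcases NW.mem_tri.1 he with rfl | rfl | rfl
    · exact h1 hDe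
    · exact (Finset.mem_sdiff.1 (hH h3)).2 hDe
    · exact (Finset.mem_sdiff.1 (hH h2)).2 hDe

/-- the core part of `v` on its own side -/
private def vr_q (fl : Bool → Bool) (sd pt : V → Bool) (v : V) : Bool :=
  if fl (sd v) = true then pt v else !pt v

private theorem vr_q_cop (fl : Bool → Bool) (sd pt : V → Bool) (v : V) :
    CoP fl sd pt v (sd v) (vr_q fl sd pt v) := by
  unfold CoP vr_q
  right
  by_cases h : fl (sd v) = true
  · rw [if_pos h, if_pos h]
  · rw [if_neg h, if_neg h]
    cases pt v <;> simp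

/-- a cross edge with two atypical ends, one half -/
private theorem vr_half {E : Finset (Sym2 V)} (fl : Bool → Bool) {sd pt : V → Bool} {u v : V}
    (hs : sd u ≠ sd v)
    (hdeg : 3 * Fintype.card V ≤ 4 * NW.deg E u)
    (hmaj : ∀ c, CoP fl sd pt u (sd u) c →
      (nbr E u ∩ Pa sd pt (sd u) (!c)).card ≤ (nbr E u ∩ Pa sd pt (sd u) c).card) :
    (3 / 4 * nn V - (dc sd E u : ℝ)) / 2 + (dc sd E v : ℝ) - ((Sd sd (sd u)).card : ℝ) ≤
      ((nbr E u ∩ nbr E v ∩ Pa sd pt (sd u) (vr_q fl sd pt u)).card : ℝ) := by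
  set q := vr_q fl sd pt u with hq
  have h1 := hmaj q (vr_q_cop fl sd pt u)
  -- di = the two parts
  have h2 : di sd E u = (nbr E u ∩ Pa sd pt (sd u) q).card +
      (nbr E u ∩ Pa sd pt (sd u) (!q)).card := by
    unfold di
    rw [← Finset.card_union_of_disjoint]
    · congr 1
      ext x
      simp only [Finset.mem_inter, Finset.mem_union, Pa, Sd, Finset.mem_filter, Finset.mem_univ,
        true_and]
      cases pt x <;> cases q <;> simp
    · rw [Finset.disjoint_left]
      intro x hx hx'
      simp only [Finset.mem_inter, Pa, Finset.mem_filter, Finset.mem_univ, true_and] at hx hx'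
      have h3 := hx.2.2
      have h4 := hx'.2.2
      rw [h3] at h4
      cases q <;> simp at h4
  have h3 : NW.deg E u = di sd E u + dc sd E u := by
    unfold di dc NW.deg
    rw [← Finset.card_union_of_disjoint]
    · congr 1
      ext x
      simp only [Finset.mem_inter, Finset.mem_union, Sd, Finset.mem_filter, Finset.mem_univ,
        true_and]
      cases sd x <;> cases sd u <;> simp
    · rw [Finset.disjoint_left]
      intro x hx hx'
      simp only [Finset.mem_inter, Sd, Finset.mem_filter, Finset.mem_univ, true_and] at hx hx'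
      have h3 := hx.2
      have h4 := hx'.2
      rw [h3] at h4
      cases sd u <;> simp at h4
  have h4 : dc sd E v = (nbr E v ∩ Sd sd (sd u)).card := by
    unfold dc
    have : (!sd v) = sd u := by
      cases h5 : sd u <;> cases h6 : sd v <;> simp_all
    rw [this]
  have h5 : ((nbr E v ∩ Sd sd (sd u)).card : ℝ) ≤
      ((nbr E v ∩ Pa sd pt (sd u) q).card : ℝ) + ((Sd sd (sd u) \ Pa sd pt (sd u) q).card : ℝ) := by
    have h6 : nbr E v ∩ Sd sd (sd u) ⊆
        (nbr E v ∩ Pa sd pt (sd u) q) ∪ (Sd sd (sd u) \ Pa sd pt (sd u) q) := by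
      intro x hx
      simp only [Finset.mem_inter, Finset.mem_union, Finset.mem_sdiff] at hx ⊢
      tauto
    have h7 := (Finset.card_le_card h6).trans (Finset.card_union_le _ _)
    exact_mod_cast h7
  have h6 : ((Sd sd (sd u) \ Pa sd pt (sd u) q).card : ℝ) + ((Pa sd pt (sd u) q).card : ℝ) =
      ((Sd sd (sd u)).card : ℝ) := by
    have h7 : Pa sd pt (sd u) q ⊆ Sd sd (sd u) := by
      intro x hx
      simp only [Pa, Sd, Finset.mem_filter, Finset.mem_univ, true_and] at hx ⊢
      exact hx.1
    have h8 := Finset.card_sdiff_add_card_eq_card h7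
    exact_mod_cast h8
  have h7 := vr_inter (nbr E u) (nbr E v) (Pa sd pt (sd u) q)
  have h8 : 3 * nn V ≤ 4 * (NW.deg E u : ℝ) := by
    unfold nn
    exact_mod_cast hdeg
  have h1' : ((nbr E u ∩ Pa sd pt (sd u) (!q)).card : ℝ) ≤
      ((nbr E u ∩ Pa sd pt (sd u) q).card : ℝ) := by exact_mod_cast h1
  have h2' : (di sd E u : ℝ) = ((nbr E u ∩ Pa sd pt (sd u) q).card : ℝ) +
      ((nbr E u ∩ Pa sd pt (sd u) (!q)).card : ℝ) := by exact_mod_cast h2
  have h3' : (NW.deg E u : ℝ) = (di sd E u : ℝ) + (dc sd E u : ℝ) := by exact_mod_cast h3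
  have h4' : (dc sd E v : ℝ) = ((nbr E v ∩ Sd sd (sd u)).card : ℝ) := by exact_mod_cast h4
  linarith

end VR

/-- **Row HB-VR** -/
theorem virtR : VirtRStatement := by
  classical
  intro V _ _ E De H fl sd pt At c₀ ε hE hV hε hF hDe hInt hHeq hSide hDeg hdc hdeg hmaj hrich
  have hn0 : 0 < nn V := by
    unfold nn
    have : 0 < Fintype.card V := by omega
    exact_mod_cast this
  have hHsub : H ⊆ E \ De := by
    rw [hHeq]
    exact Finset.filter_subset _ _
  have hHnl := hF.nl
  have hne : ∀ {a b : V}, s(a, b) ∈ E → a ≠ b := by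
    rintro a b h rfl
    exact hE _ h (by simp)
  have hHE : ∀ {e : Sym2 V}, e ∈ H → e ∈ E := fun h => (Finset.mem_sdiff.1 (hHsub h)).1
  -- membership in the core
  have hmem : ∀ {a w : V}, s(a, w) ∈ E → s(a, w) ∉ De → w ∉ At → Co fl sd pt a w →
      s(a, w) ∈ H := by
    intro a w h1 h2 h3 h4
    rw [hHeq, Finset.mem_filter]
    refine ⟨Finset.mem_sdiff.2 ⟨h1, h2⟩, ⟨w, by simp, h3⟩, ?_⟩
    intro x hx y hy hxy
    rcases Sym2.mem_iff.1 hx with rfl | rfl <;> rcases Sym2.mem_iff.1 hy with rfl | rfl
    · exact absurd rfl hxy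
    · exact h4
    · exact vr_symm h4
    · exact absurd rfl hxy
  have hcrossDe : ∀ {a w : V}, sd a ≠ sd w → s(a, w) ∉ De := by
    intro a w h1 h2
    exact h1 (hInt _ h2 a (by simp) w (by simp))
  have hmemC : ∀ {a w : V}, s(a, w) ∈ E → w ∉ At → sd a ≠ sd w → s(a, w) ∈ H :=
    fun h1 h2 h3 => hmem h1 (hcrossDe h3) h2 (Or.inl h3)
  have hmin1 : min c₀ (1 / 50) * nn V ≤ c₀ * nn V :=
    mul_le_mul_of_nonneg_right (min_le_left _ _) hn0.le
  have hmin2 : min c₀ (1 / 50) * nn V ≤ 1 / 50 * nn V :=
    mul_le_mul_of_nonneg_right (min_le_right _ _) hn0.le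
  have hεn : ε * nn V ≤ 1 / 1000 * nn V := mul_le_mul_of_nonneg_right hε hn0.le
  -- cross edges with a typical end
  have hA : ∀ u v : V, s(u, v) ∈ E → sd u ≠ sd v → u ∉ At →
      1 / 50 * nn V ≤ ((vtr (alX De sd) H s(u, v)).card : ℝ) := by
    intro u v he hs hu
    set P := Pa sd pt (sd v) (vr_q fl sd pt v) with hP
    have h1 := hF.deg v (sd v) (vr_q fl sd pt v) (vr_q_cop fl sd pt v)
    rw [← hP] at h1
    have h2 := hF.miss u hu
    set M := univ.filter (fun w => Co fl sd pt u w ∧ s(u, w) ∉ H) with hM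
    have hPs : ∀ w ∈ P, sd w = sd v := by
      intro w hw
      simp only [hP, Pa, Finset.mem_filter, Finset.mem_univ, true_and] at hw
      exact hw.1
    have h3 : (((nbr H v ∩ P) \ M).card : ℝ) ≤ ((vtr (alX De sd) H s(u, v)).card : ℝ) := by
      have h4 := vr_lb (alX De sd) H hHnl (hne he) ((nbr H v ∩ P) \ M) (by
        intro w hw
        rw [Finset.mem_sdiff, Finset.mem_inter, NW.mem_nbr] at hw
        have h5 := hPs w hw.1.2
        have h6 : sd u ≠ sd w := by rw [h5]; exact hs
        have h7 : s(u, w) ∈ H := by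
          by_contra h8
          apply hw.2
          rw [hM, Finset.mem_filter]
          exact ⟨Finset.mem_univ _, Or.inl h6, h8⟩
        exact ⟨h7, hw.1.1, vr_cross hHsub (hne he) (hne (hHE h7)) (hne (hHE hw.1.1))
          (hcrossDe hs) h7 hw.1.1 (Or.inl hs)⟩)
      exact_mod_cast h4
    have h5 := vr_sdiff (nbr H v ∩ P) M
    linarith
  -- cross edges with two atypical ends, from one of the two halves
  have hB : ∀ u v : V, s(u, v) ∈ E → sd u ≠ sd v →
      61 / 1000 * nn V ≤ ((nbr E u ∩ nbr E v ∩ Pa sd pt (sd u) (vr_q fl sd pt u)).card : ℝ) →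
      1 / 50 * nn V ≤ ((vtr (alX De sd) H s(u, v)).card : ℝ) := by
    intro u v he hs h1
    set P := nbr E u ∩ nbr E v ∩ Pa sd pt (sd u) (vr_q fl sd pt u) with hP
    have h3 : (((P \ At) \ nbr De u).card : ℝ) ≤ ((vtr (alX De sd) H s(u, v)).card : ℝ) := by
      have h4 := vr_lb (alX De sd) H hHnl (hne he) ((P \ At) \ nbr De u) (by
        intro w hw
        simp only [hP, Pa, Finset.mem_sdiff, Finset.mem_inter, NW.mem_nbr, Finset.mem_filter,
          Finset.mem_univ, true_and] at hw
        obtain ⟨⟨⟨⟨h5, h6⟩, h7, h8⟩, h9⟩, h10⟩ := hw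
        have h11 : Co fl sd pt u w := by
          unfold Co
          rw [h7, h8]
          exact vr_q_cop fl sd pt u
        have h12 : s(u, w) ∈ H := hmem h5 h10 h9 h11
        have h13 : s(v, w) ∈ H := hmemC h6 h9 (by rw [h7]; exact Ne.symm hs)
        exact ⟨h12, h13, vr_cross hHsub (hne he) (hne h5) (hne h6) (hcrossDe hs) h12 h13
          (Or.inl hs)⟩)
      exact_mod_cast h4
    have h5 := vr_sdiff P At
    have h6 := vr_sdiff (P \ At) (nbr De u)
    have h7 := hF.At_card
    have h8 : ((nbr De u).card : ℝ) ≤ nn V / 50 := hDeg u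
    linarith
  intro e he
  induction e using Sym2.ind with
  | _ u v =>
    have huv := hne he
    by_cases hD : s(u, v) ∈ De
    · -- designated edges
      have h1 := hrich u v hD
      refine le_trans (le_trans hmin1 h1) ?_
      have hs : sd u = sd v := hInt _ hD u (by simp) v (by simp)
      have h4 := vr_lb (alX De sd) H hHnl huv
        ((Sd sd (sd u) \ At).filter (fun r => s(u, r) ∈ H ∧ s(v, r) ∈ H)) (by
        intro w hw
        rw [Finset.mem_filter, Finset.mem_sdiff] at hw
        obtain ⟨⟨h5, h6⟩, h7, h8⟩ := hw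
        have h9 : sd w = sd u := by
          simp only [Sd, Finset.mem_filter, Finset.mem_univ, true_and] at h5
          exact h5
        refine ⟨h7, h8, ?_⟩
        intro T hT
        right
        refine ⟨?_, ?_⟩
        · rintro ⟨a, ha, b, hb, hab⟩
          rw [hT] at ha hb
          have h10 : ∀ x ∈ ({u, v, w} : Finset V), sd x = sd u := by
            intro x hx
            simp only [Finset.mem_insert, Finset.mem_singleton] at hx
            rcases hx with rfl | rfl | rfl
            · rfl
            · exact hs.symm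
            · exact h9
          exact hab (by rw [h10 a ha, h10 b hb])
        · have h11 : NW.edg T.1 ∩ De = {s(u, v)} := by
            rw [hT, NW.edg_triple huv (hne (hHE h8)) (hne (hHE h7))]
            ext x
            rw [Finset.mem_inter, NW.mem_tri, Finset.mem_singleton]
            constructor
            · rintro ⟨rfl | rfl | rfl, h12⟩
              · rfl
              · exact absurd h12 (Finset.mem_sdiff.1 (hHsub h8)).2
              · exact absurd h12 (Finset.mem_sdiff.1 (hHsub h7)).2
            · rintro rfl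
              exact ⟨Or.inl rfl, hD⟩
          rw [h11, Finset.card_singleton])
      exact_mod_cast h4
    · refine le_trans hmin2 ?_
      by_cases hs : sd u = sd v
      · -- internal edges
        set P := Sd sd (!sd u) with hP
        have h1 := vr_inter (nbr E u) (nbr E v) P
        have h2 := vr_sdiff (nbr E u ∩ nbr E v ∩ P) At
        have h3 : (((nbr E u ∩ nbr E v ∩ P) \ At).card : ℝ) ≤
            ((vtr (alX De sd) H s(u, v)).card : ℝ) := by
          have h4 := vr_lb (alX De sd) H hHnl huv ((nbr E u ∩ nbr E v ∩ P) \ At) (by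
            intro w hw
            simp only [hP, Sd, Finset.mem_sdiff, Finset.mem_inter, NW.mem_nbr, Finset.mem_filter,
              Finset.mem_univ, true_and] at hw
            obtain ⟨⟨⟨h5, h6⟩, h7⟩, h8⟩ := hw
            have h9 : sd u ≠ sd w := by
              rw [h7]
              cases sd u <;> simp
            have h10 : s(u, w) ∈ H := hmemC h5 h8 h9
            have h11 : s(v, w) ∈ H := hmemC h6 h8 (by rw [← hs]; exact h9)
            exact ⟨h10, h11, vr_cross hHsub huv (hne h5) (hne h6) hD h10 h11 (Or.inr h9)⟩)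
          exact_mod_cast h4
        have h5 : (3 / 8 - ε) * nn V ≤ ((nbr E u ∩ P).card : ℝ) := hdc u
        have h6 : (3 / 8 - ε) * nn V ≤ ((nbr E v ∩ P).card : ℝ) := by
          have h7 := hdc v
          unfold dc at h7
          rw [← hs] at h7
          exact h7
        have h7 := (abs_le.1 (hSide (!sd u))).2
        rw [← hP] at h7
        have h8 := hF.At_card
        nlinarith
      · by_cases hu : u ∈ At
        · by_cases hv : v ∈ At
          · -- two atypical ends
            have h1 := vr_half fl hs (hdeg u) (hmaj u)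
            have h2 := vr_half fl (Ne.symm hs) (hdeg v) (hmaj v)
            have h3 := (abs_le.1 (hSide (sd u))).2
            have h4 := (abs_le.1 (hSide (sd v))).2
            have h5 := hdc u
            have h6 := hdc v
            by_cases h7 : 61 / 1000 * nn V ≤
                ((nbr E u ∩ nbr E v ∩ Pa sd pt (sd u) (vr_q fl sd pt u)).card : ℝ)
            · exact hB u v he hs h7
            · rw [Sym2.eq_swap] at he ⊢
              refine hB v u he (Ne.symm hs) ?_
              push Not at h7
              nlinarith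
          · rw [Sym2.eq_swap] at he ⊢
            exact hA v u he (Ne.symm hs) hv
        · exact hA u v he hs hu

end F3.HB
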