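import Pool.Agent.F3.HB.Asm
import Pool.Agent.F3.HB.Frame
import Pool.Agent.F3.HB.Piece
import Pool.Agent.F3.HB.Hex
import Pool.Agent.F3.HB.HexG
import Pool.Agent.F3.HB.HexR
import Pool.Agent.F3.HB.TokG
import Pool.Agent.F3.HB.TokR
import Pool.Agent.F3.HB.Tem
import Pool.Agent.F3.HB.Step
import Pool.Agent.F3.HB.BoostN
import Pool.Agent.F3.HB.BoostG
import Pool.Agent.F3.HB.BoostS
import Pool.Agent.F3.HB.BoostR
import Pool.Agent.F3.HB.VirtG
import Pool.Agent.F3.HB.VirtR
import Pool.Agent.F3.HB.VirtT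
import Pool.Agent.F3.HB.ValA
import Pool.Agent.F3.HB.ValB
import Pool.Agent.F3.HB.ValC
import Pool.Agent.F3.HB.GridFam
import Pool.Agent.F3.HB.GridX

/-!
# Project F3, block HB: the outputs, without hypotheses (helper4)
-/

set_option autoImplicit false

namespace F3

theorem hbN : HBNStatement := HB.hbn HB.frame HB.pieceX (HB.boostN HB.tem) HB.virtG

theorem hbS : HBSStatement :=
  HB.hbs HB.frame HB.pieceX (HB.boostG (HB.step HB.tem)) (HB.boostS (HB.step HB.tem)) HB.virtG

theorem hbG : HBGStatement :=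
  HB.hbg HB.frame HB.pieceX (HB.tokG HB.hex HB.hexG) (HB.boostG (HB.step HB.tem)) HB.virtG

theorem hbR : HBRStatement :=
  HB.hbr HB.frame HB.pieceX (HB.tokR HB.hex HB.hexR) (HB.boostR (HB.step HB.tem)) HB.virtR

theorem hbT : HBTStatement :=
  HB.hbt HB.frame HB.pieceX (HB.tokR HB.hex HB.hexR) (HB.boostR (HB.step HB.tem)) HB.virtT

theorem val : ValStatement := HB.val_of HB.valA HB.valB HB.valC

theorem gridXst : GridXStatement := HB.gridX HB.gridFam

end F3
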