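import Pool.Agent.F3.HB.Spec
import Pool.Agent.F1.TriGood

/-!
# Project F3, row HB-AJ: the invariants can be adjusted (helper4)
-/

set_option autoImplicit false
set_option linter.unusedSectionVars false

namespace F3.HB

open Finset NW F1 F3

section Aj

variable {V : Type} [Fintype V] [DecidableEq V]

theorem aj_third {al : Tri V → Prop} {X : Finset (Sym2 V)} {u v : V} (huv : u ≠ v) {T : Tri V}
    (hT : T ∈ vtr al X s(u, v)) : al T ∧ ∃ w, w ≠ u ∧ w ≠ v ∧ T.1 = {u, v, w} ∧ s(u, w) ∈ X ∧
      s(v, w) ∈ X := by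
  classical
  unfold vtr at hT
  obtain ⟨-, h1, h2, h3⟩ := mem_filter.1 hT
  obtain ⟨hu, hv, -⟩ := mk_mem_edg.1 h2
  have hsub : ({u, v} : Finset V) ⊆ T.1 := by
    intro x hx
    rcases mem_insert.1 hx with rfl | hx
    · exact hu
    · rw [mem_singleton.1 hx]
      exact hv
  have h4 : (T.1 \ {u, v}).card = 1 := by
    rw [card_sdiff_of_subset hsub, T.2, card_pair huv]
  obtain ⟨w, hw⟩ := card_eq_one.1 h4
  have hwm : w ∈ T.1 \ {u, v} := by
    rw [hw]
    exact mem_singleton_self w
  rw [mem_sdiff, mem_insert, mem_singleton, not_or] at hwm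
  obtain ⟨hwT, hwu, hwv⟩ := hwm
  refine ⟨h1, w, hwu, hwv, ?_, ?_, ?_⟩
  · have h5 : T.1 = {u, v} ∪ {w} := by rw [← hw, union_sdiff_of_subset hsub]
    rw [h5]
    ext x
    simp
  · refine h3 (mem_sdiff.2 ⟨mk_mem_edg.2 ⟨hu, hwT, Ne.symm hwu⟩, ?_⟩)
    rw [mem_singleton]
    intro h
    exact hwv (Sym2.congr_right.1 h)
  · refine h3 (mem_sdiff.2 ⟨mk_mem_edg.2 ⟨hv, hwT, Ne.symm hwv⟩, ?_⟩)
    rw [mem_singleton, Sym2.eq_swap (a := u) (b := v)]
    intro h
    exact hwu (Sym2.congr_right.1 h)

/-- many edges with the property `P` -/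
theorem aj_many {al : Tri V → Prop} {X : Finset (Sym2 V)} {u v : V} (huv : u ≠ v)
    (P : Sym2 V → Prop) [DecidablePred P]
    (h : ∀ T : Tri V, al T → ∀ w, w ≠ u → w ≠ v → T.1 = {u, v, w} → s(u, w) ∈ X → s(v, w) ∈ X →
      P s(u, w) ∨ P s(v, w)) :
    (vtr al X s(u, v)).card ≤ (X.filter P).card := by
  classical
  have hex : ∀ T ∈ vtr al X s(u, v), ∃ f, f ∈ NW.edg T.1 ∧ f ≠ s(u, v) ∧ f ∈ X ∧ P f := by
    intro T hT
    obtain ⟨h1, w, hwu, hwv, hTe, hX1, hX2⟩ := aj_third huv hT
    rcases h T h1 w hwu hwv hTe hX1 hX2 with hp | hp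
    · refine ⟨s(u, w), ?_, fun h' => hwv (Sym2.congr_right.1 h'), hX1, hp⟩
      rw [hTe, mk_mem_edg]
      simp [Ne.symm hwu]
    · refine ⟨s(v, w), ?_, ?_, hX2, hp⟩
      · rw [hTe, mk_mem_edg]
        simp [Ne.symm hwv]
      · rw [Sym2.eq_swap (a := u) (b := v)]
        exact fun h' => hwu (Sym2.congr_right.1 h')
  have hne : Nonempty (Sym2 V) := ⟨s(u, v)⟩
  choose! g hg using hex
  refine card_le_card_of_injOn g ?_ ?_
  · intro T hT
    exact mem_filter.2 ⟨(hg T hT).2.2.1, (hg T hT).2.2.2⟩
  · intro T hT T' hT' he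
    have h1 := hg T hT
    have h2 := hg T' hT'
    have e1 : s(u, v) ∈ NW.edg T.1 := (mem_filter.1 hT).2.2.1
    have e2 : s(u, v) ∈ NW.edg T'.1 := (mem_filter.1 hT').2.2.1
    have e3 : g T ∈ NW.edg T'.1 := by rw [he]; exact h2.1
    have h3 : T.1 ⊆ T'.1 := by
      exact F1.TriGood.sub_of_two T.2 (e := s(u, v)) (f := g T) e1 h1.1 (Ne.symm h1.2.1) e2 e3
    exact Subtype.ext (eq_of_subset_of_card_le h3 (by rw [T.2, T'.2]))

theorem aj_gam (χ : V → Bool) (u v : V) : gam χ s(u, v) = if χ u = χ v then 2 else -1 := by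
  unfold gam Int
  by_cases h : χ u = χ v
  · rw [if_pos h, if_pos]
    intro a ha b hb
    rcases Sym2.mem_iff.1 ha with rfl | rfl <;> rcases Sym2.mem_iff.1 hb with rfl | rfl <;>
      simp [h]
  · rw [if_neg h, if_neg]
    intro h'
    exact h (h' u (Sym2.mem_mk_left _ _) v (Sym2.mem_mk_right _ _))

/-- the type of a pair of vertices in different parts -/
theorem aj_int (sd pt : V → Bool) (t : Fin 3) (u v : V) :
    Int (cut sd pt t) s(u, v) ↔ cut sd pt t u = cut sd pt t v := by
  unfold Int
  constructor
  · intro h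
    exact h u (Sym2.mem_mk_left _ _) v (Sym2.mem_mk_right _ _)
  · intro h a ha b hb
    rcases Sym2.mem_iff.1 ha with rfl | rfl <;> rcases Sym2.mem_iff.1 hb with rfl | rfl <;>
      simp [h]

theorem aj_exc (sd pt : V → Bool) (u v : V) :
    Exc sd pt s(u, v) ↔ sd u = sd v ∧ pt u = pt v := by
  unfold Exc
  constructor
  · intro h
    exact h u (Sym2.mem_mk_left _ _) v (Sym2.mem_mk_right _ _)
  · intro h a ha b hb
    rcases Sym2.mem_iff.1 ha with rfl | rfl <;> rcases Sym2.mem_iff.1 hb with rfl | rfl <;>
      simp [h]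

/-- three parts pairwise different: the type of the first pair determines the others -/
theorem aj_types : ∀ (a b c d e f : Bool) (t t' : Fin 3), t ≠ t' →
    (if t' = 0 then a else if t' = 1 then b else xor a b) =
      (if t' = 0 then c else if t' = 1 then d else xor c d) →
    ¬ (a = c ∧ b = d) → ¬ (a = e ∧ b = f) → ¬ (c = e ∧ d = f) →
    ((if t = 0 then a else if t = 1 then b else xor a b) =
      (if t = 0 then e else if t = 1 then f else xor e f)) ∨
    ((if t = 0 then c else if t = 1 then d else xor c d) =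
      (if t = 0 then e else if t = 1 then f else xor e f)) := by
  decide

theorem aj_one : ∀ a b c d : Bool, ¬ (a = c ∧ b = d) →
    (if a = c then (1 : ℕ) else 0) + (if b = d then 1 else 0) +
      (if xor a b = xor c d then 1 else 0) = 1 := by
  decide

theorem aj_uni : ∀ b : Fin 3 → Bool, (if b 0 = true then (1 : ℕ) else 0) +
    (if b 1 = true then 1 else 0) + (if b 2 = true then 1 else 0) = 1 →
    ∀ t t', t ≠ t' → b t = true → b t' = false := by
  decide

end Aj

theorem adj : AdjStatement := by
  classical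
  intro V _ _
  refine ⟨?_, ?_, ?_⟩
  · intro E De H E0 X sd hNL hXH hHE hex hv D hD hXD
    obtain ⟨u, v, huvE, hsd⟩ := hex
    have huv : u ≠ v := fun h => hsd (by rw [h])
    have h12 := (hv _ huvE).trans (aj_many huv (fun e => gam sd e = -1) (by
      intro T hT w hwu hwv hTe hX1 hX2
      rw [aj_gam, aj_gam]
      by_cases h : sd u = sd w
      · right
        rw [if_neg]
        intro h'
        exact hsd (h.trans h'.symm)
      · left
        rw [if_neg h]))
    set S : ℤ := ∑ e ∈ D, gam sd e with hS
    obtain ⟨k, hk, hk6⟩ : ∃ k : ℕ, k ≤ 5 ∧ (6 : ℤ) ∣ S + k := by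
      refine ⟨((-S) % 6).toNat, ?_, ?_⟩
      · omega
      · omega
    obtain ⟨R, hRs, hRc⟩ := exists_subset_card_eq
      (s := X.filter (fun e => gam sd e = -1)) (n := k) (by omega)
    refine ⟨R, hRs.trans (filter_subset _ _), by omega, ?_⟩
    intro j
    have hRD : R ⊆ D := (hRs.trans (filter_subset _ _)).trans hXD
    have h1 := sum_sdiff (f := fun e => gam sd e) hRD
    have h2 : ∑ e ∈ R, gam sd e = -(k : ℤ) := by
      rw [sum_congr rfl fun e he => (mem_filter.1 (hRs he)).2, sum_const, hRc]
      simp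
    have h3 : ∑ e ∈ D \ R, gam sd e = S + k := by
      rw [h2] at h1
      linarith
    change 6 ∣ ∑ e ∈ D \ R, gam sd e
    rw [h3]
    exact hk6
  · intro E H X sd pt ty hNL hXH hHE hexc hty hv D hD hXD
    rw [union_empty] at hD
    -- many edges of every type
    have h12 : ∀ t : Fin 3, 12 ≤ (X.filter (fun e => Int (cut sd pt t) e)).card := by
      intro t
      obtain ⟨t', ht'⟩ : ∃ t' : Fin 3, t ≠ t' := by
        fin_cases t
        · exact ⟨1, by decide⟩
        · exact ⟨0, by decide⟩
        · exact ⟨0, by decide⟩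
      obtain ⟨u, v, huvE, hct⟩ := hty t'
      have huv : u ≠ v := by
        intro h
        exact hct.2 ⟨by rw [h], by rw [h]⟩
      refine (hv _ huvE).trans (aj_many huv (fun e => Int (cut sd pt t) e) ?_)
      intro T _ w hwu hwv hTe hX1 hX2
      have e1 := hexc _ (hXH hX1)
      have e2 := hexc _ (hXH hX2)
      rw [aj_exc] at e1 e2
      rw [aj_int, aj_int]
      exact aj_types (sd u) (pt u) (sd v) (pt v) (sd w) (pt w) t t' ht' hct.1 hct.2 e1 e2
    choose R hRs hRc using fun t : Fin 3 => exists_subset_card_eq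
      (s := X.filter (fun e => Int (cut sd pt t) e))
      (n := (D.filter (fun e => Int (cut sd pt t) e)).card % 6) (by
        have := h12 t
        omega)
    have hRX : ∀ t, R t ⊆ X := fun t => (hRs t).trans (filter_subset _ _)
    -- every core edge has exactly one type
    have hone : ∀ e ∈ H, (if Int (cut sd pt 0) e then (1 : ℕ) else 0) +
        (if Int (cut sd pt 1) e then 1 else 0) + (if Int (cut sd pt 2) e then 1 else 0) = 1 := by
      intro e he
      have h1 := hexc e he
      induction e using Sym2.ind with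
      | _ u v =>
        rw [aj_exc] at h1
        have h2 := aj_one (sd u) (pt u) (sd v) (pt v) h1
        simp only [aj_int]
        exact h2
    set R' : Finset (Sym2 V) := R 0 ∪ R 1 ∪ R 2 with hR'
    have hR'X : R' ⊆ X := by
      rw [hR']
      exact union_subset (union_subset (hRX 0) (hRX 1)) (hRX 2)
    have hR'D : R' ⊆ D := hR'X.trans hXD
    have hdis : ∀ t t' : Fin 3, t ≠ t' → ∀ e ∈ H, Int (cut sd pt t) e → ¬ Int (cut sd pt t') e := by
      intro t t' htt e he h1 h2
      have h3 := aj_uni (fun t => decide (Int (cut sd pt t) e)) (by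
        simp only [decide_eq_true_eq]
        exact hone e he) t t' htt (by simpa using h1)
      simp only [decide_eq_false_iff_not] at h3
      exact h3 h2
    have hcnt : ∀ t : Fin 3, 6 ∣ ((D \ R').filter (fun e => Int (cut sd pt t) e)).card := by
      intro t
      have e1 : R'.filter (fun e => Int (cut sd pt t) e) = R t := by
        ext e
        constructor
        · intro he
          obtain ⟨he1, he2⟩ := mem_filter.1 he
          have heX := hR'X he1
          rw [hR', mem_union, mem_union] at he1
          by_contra hne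
          have hcase : ∃ t' : Fin 3, e ∈ R t' := by
            rcases he1 with (h | h) | h
            · exact ⟨0, h⟩
            · exact ⟨1, h⟩
            · exact ⟨2, h⟩
          obtain ⟨t', ht'⟩ := hcase
          have htt : t' ≠ t := fun h => hne (h ▸ ht')
          exact hdis t' t htt e (hXH heX) (mem_filter.1 (hRs t' ht')).2 he2
        · intro he
          refine mem_filter.2 ⟨?_, (mem_filter.1 (hRs t he)).2⟩
          rw [hR', mem_union, mem_union]
          fin_cases t
          · exact Or.inl (Or.inl he)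
          · exact Or.inl (Or.inr he)
          · exact Or.inr he
      have e2 : (D \ R').filter (fun e => Int (cut sd pt t) e) =
          D.filter (fun e => Int (cut sd pt t) e) \ R t := by
        rw [← e1]
        ext e
        simp only [mem_filter, mem_sdiff]
        tauto
      have e3 : R t ⊆ D.filter (fun e => Int (cut sd pt t) e) := by
        intro e he
        exact mem_filter.2 ⟨hXD (hRX t he), (mem_filter.1 (hRs t he)).2⟩
      rw [e2, card_sdiff_of_subset e3, hRc]
      omega
    have hcard : (D \ R').card = ((D \ R').filter (fun e => Int (cut sd pt 0) e)).card +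
        ((D \ R').filter (fun e => Int (cut sd pt 1) e)).card +
        ((D \ R').filter (fun e => Int (cut sd pt 2) e)).card := by
      rw [card_filter, card_filter, card_filter, ← sum_add_distrib, ← sum_add_distrib,
        card_eq_sum_ones]
      refine sum_congr rfl fun e he => ?_
      exact (hone e (hD (mem_sdiff.1 he).1)).symm
    have hsum : ∀ t : Fin 3, ∑ e ∈ D \ R', gam (cut sd pt t) e =
        3 * (((D \ R').filter (fun e => Int (cut sd pt t) e)).card : ℤ) - ((D \ R').card : ℤ) := by
      intro t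
      rw [card_filter]
      push_cast
      rw [card_eq_sum_ones, Nat.cast_sum, mul_sum, ← sum_sub_distrib]
      refine sum_congr rfl fun e _ => ?_
      unfold gam
      split_ifs <;> norm_num
    have hfin : ∀ t : Fin 3, 6 ∣ ∑ e ∈ D \ R', gam (cut sd pt t) e := by
      intro t
      rw [hsum t, hcard]
      obtain ⟨a, ha⟩ := hcnt 0
      obtain ⟨b, hb⟩ := hcnt 1
      obtain ⟨c, hc⟩ := hcnt 2
      obtain ⟨d, hd⟩ := hcnt t
      rw [ha, hb, hc, hd]
      push_cast
      exact ⟨3 * d - a - b - c, by ring⟩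
    refine ⟨R', hR'X, ?_, ?_⟩
    · have h1 : R'.card ≤ (R 0).card + (R 1).card + (R 2).card := by
        rw [hR']
        exact (card_union_le _ _).trans (Nat.add_le_add_right (card_union_le _ _) _)
      rw [hRc, hRc, hRc] at h1
      omega
    · intro j
      fin_cases j
      · exact hfin 0
      · exact hfin 1
  · intro H E0 X D _ _
    exact ⟨∅, empty_subset _, by simp, fun j => j.elim0⟩

end F3.HB
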