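import Pool.Agent.F3.HB.Spec

/-!
# Project F3, block HB: the outputs from the rows (helper4)
-/

set_option autoImplicit false
set_option linter.unusedSectionVars false

namespace F3.HB

open Finset NW F1 F3

section Mono

variable {V : Type} [Fintype V] [DecidableEq V]

theorem nn_nonneg : (0 : ℝ) ≤ nn V := by unfold nn; positivity

theorem Sm.mono {η η' : ℝ} {Z : Finset (Sym2 V)} (h : Sm η Z) (hη : η ≤ η') : Sm η' Z :=
  fun v => (h v).trans (mul_le_mul_of_nonneg_right hη nn_nonneg)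

theorem SmF.mono {η η' : ℝ} {F : Finset V} (h : SmF η F) (hη : η ≤ η') : SmF η' F :=
  le_trans h (mul_le_mul_of_nonneg_right hη nn_nonneg)

theorem PieceOK.mono {η η' : ℝ} {H : Finset (Sym2 V)} (h : PieceOK H η') (hη : η ≤ η') :
    PieceOK H η := fun Z F g hZ hF hg => h Z F g (Sm.mono hZ hη) (SmF.mono hF hη) hg

theorem TokenOK.mono {r : ℕ} {H : Finset (Sym2 V)} {γ : Fin r → Sym2 V → ℤ}
    {τ : Sym2 V → ZMod 4} {η η' : ℝ} {a : Fin r → ℤ} {b : ZMod 4} (h : TokenOK H γ τ η' a b)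
    (hη : η ≤ η') : TokenOK H γ τ η a b :=
  fun Z F hZ hF => h Z F (Sm.mono hZ hη) (SmF.mono hF hη)

theorem PlA_mono {c : ℕ} {al al' : Tri V → Prop} (h : ∀ T, al T → al' T)
    (E : Finset (Sym2 V)) (r : Tri V) : PlA c al E r ⊆ PlA c al' E r := by
  classical
  intro g hg
  unfold PlA at hg ⊢
  rw [Finset.mem_filter] at hg ⊢
  exact ⟨hg.1, fun T hT => h T (hg.2 T hT)⟩

theorem PlOK.mono {ar al al' : Tri V → Prop} {H E0 : Finset (Sym2 V)} {η η' : ℝ} {c : ℕ} {B : ℝ}
    (hB : 0 ≤ B) (h : PlOK ar al H E0 η' c B) (hη : η ≤ η') (ha : ∀ T, al T → al' T) :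
    PlOK ar al' H E0 η c B := by
  intro Z hZ r hr hE
  refine (h Z (Sm.mono hZ hη) r hr hE).trans (mul_le_mul_of_nonneg_left ?_ hB)
  exact_mod_cast Finset.card_le_card (PlA_mono ha _ _)

theorem PlOK.monoB {ar al : Tri V → Prop} {H E0 : Finset (Sym2 V)} {η : ℝ} {c : ℕ} {B B' : ℝ}
    (h : PlOK ar al H E0 η c B) (hB : B ≤ B') : PlOK ar al H E0 η c B' := by
  intro Z hZ r hr hE
  exact (h Z hZ r hr hE).trans (mul_le_mul_of_nonneg_right hB (Nat.cast_nonneg _))

theorem vtr_mono {al al' : Tri V → Prop} (h : ∀ T, al T → al' T) (X : Finset (Sym2 V))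
    (e : Sym2 V) : vtr al X e ⊆ vtr al' X e := by
  classical
  intro T hT
  unfold vtr at hT ⊢
  rw [Finset.mem_filter] at hT ⊢
  exact ⟨hT.1, h T hT.2.1, hT.2.2⟩

theorem VirtOK.mono {al al' : Tri V → Prop} {E H : Finset (Sym2 V)} {c c' : ℝ}
    (h : VirtOK al E H c') (hc : c ≤ c') (ha : ∀ T, al T → al' T) : VirtOK al' E H c := by
  intro e he
  refine (mul_le_mul_of_nonneg_right hc nn_nonneg).trans ((h e he).trans ?_)
  exact_mod_cast Finset.card_le_card (vtr_mono ha _ _)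

end Mono

theorem hbn (hf : FrameStatement) (hp : PieceXStatement) (hb : BoostNStatement)
    (hv : VirtGStatement) : HBNStatement := by
  intro θ hθ
  obtain ⟨η, hη, hbo⟩ := hb θ hθ
  refine ⟨min η (1 / 1000), 1 / 8, lt_min hη (by norm_num), by norm_num, 1000, ?_, ?_⟩
  · intro V _ _ H hn hH
    exact ⟨PieceOK.mono (hp V H ∅ hn ((hf V H hn).1 θ hH)) (min_le_right _ _),
      (hv V H H hH.nl (Finset.Subset.refl _) hn).1 θ hH⟩
  · intro c hc hce
    obtain ⟨B, n₁, hB, h⟩ := hbo c hc hce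
    exact ⟨B, n₁, hB, fun V _ _ H hn hH => PlOK.mono hB.le (h V H hn hH) (min_le_left _ _)
      fun _ h => h⟩

theorem hbs (hf : FrameStatement) (hp : PieceXStatement) (hg : BoostGStatement)
    (hs : BoostSStatement) (hv : VirtGStatement) : HBSStatement := by
  intro θ hθ
  refine ⟨1 / 1000, 1 / 1000, 1 / 50, by norm_num, by norm_num, by norm_num, 1000, ?_, ?_⟩
  · intro V _ _ E H sd At hn hE hH
    have hfr := (hf V H hn).2.1 sd At (1 / 1000) θ le_rfl hH.rob
    have hHE : H ⊆ E := by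
      rw [hH.H_eq]
      exact Finset.filter_subset _ _
    refine ⟨hp V H At hn hfr.2, ?_⟩
    have h1 := (hv V E H hE hHE hn).2 ∅ sd At 1 hfr.1 (by rw [Finset.sdiff_empty]; exact hHE)
      (by simp) (by simp)
    exact VirtOK.mono h1 (by rw [min_eq_right]; norm_num) fun _ _ => trivial
  · intro c hc hce
    obtain ⟨B₁, n₁, hB₁, h₁⟩ := hg c hc hce
    obtain ⟨B₂, n₂, hB₂, h₂⟩ := hs c hc hce
    refine ⟨max B₁ B₂, max 1000 (max n₁ n₂), lt_max_of_lt_left hB₁, ?_⟩
    intro V _ _ E H sd At hn hH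
    have hfr := (hf V H ((le_max_left _ _).trans hn)).2.1 sd At (1 / 1000) θ le_rfl hH.rob
    have hn1 : n₁ ≤ Fintype.card V := ((le_max_left _ _).trans (le_max_right _ _)).trans hn
    have hn2 : n₂ ≤ Fintype.card V := ((le_max_right _ _).trans (le_max_right _ _)).trans hn
    intro Z hZ r _ hr
    by_cases hcr : Cro sd r
    · exact (PlOK.monoB (PlOK.mono (al' := fun _ => True) hB₁.le (h₁ V H sd At hn1 hfr.1) le_rfl
        fun _ _ => trivial) (le_max_left _ _)) Z hZ r hcr hr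
    · rw [Finset.union_empty] at hr
      exact (h₂ V H sd At hn2 hfr.1 Z hZ r hcr hr).trans
        (mul_le_mul_of_nonneg_right (le_max_right _ _) (Nat.cast_nonneg _))

theorem hbg (hf : FrameStatement) (hp : PieceXStatement) (ht : TokGStatement)
    (hg : BoostGStatement) (hv : VirtGStatement) : HBGStatement := by
  intro θ c₀ hθ hc₀
  refine ⟨1 / 1000, 1 / 1000, min c₀ (1 / 50), by norm_num, by norm_num,
    lt_min hc₀ (by norm_num), 10000, ?_, ?_⟩
  · intro V _ _ E De H sd At hn hH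
    have hn' : 1000 ≤ Fintype.card V := by omega
    have hfr := (hf V H hn').2.1 sd At (1 / 1000) θ le_rfl hH.rob
    have hHE : H ⊆ E \ De := hH.x.H_sub
    refine ⟨hp V H At hn' hfr.2, ?_, fun j σ hσ => ht V H sd At hn hfr.1 j σ hσ⟩
    exact (hv V E H hH.x.div.1 (hHE.trans Finset.sdiff_subset) hn').2 De sd At c₀ hfr.1 hHE
      hH.x.De_int hH.x.rich
  · intro c hc hce
    obtain ⟨B, n₁, hB, h⟩ := hg c hc hce
    refine ⟨B, max 1000 n₁, hB, ?_⟩
    intro V _ _ E De H sd At hn hH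
    have hfr := (hf V H ((le_max_left _ _).trans hn)).2.1 sd At (1 / 1000) θ le_rfl hH.rob
    exact h V H sd At ((le_max_right _ _).trans hn) hfr.1

theorem hbr (hf : FrameStatement) (hp : PieceXStatement) (ht : TokRStatement)
    (hb : BoostRStatement) (hv : VirtRStatement) : HBRStatement := by
  intro θ c₀ hθ hc₀
  refine ⟨1 / 1000, 1 / 1000, min c₀ (1 / 50), by norm_num, by norm_num,
    lt_min hc₀ (by norm_num), 10000, ?_, ?_⟩
  · intro V _ _ E De H fl sd pt At e₀ hn hH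
    have hn' : 1000 ≤ Fintype.card V := by omega
    have hfr := (hf V H hn').2.2 fl sd pt At (1 / 1000) le_rfl hH.rob
    have h1 := (ht V H fl sd pt At hn hfr.1).1 hH.flD
    refine ⟨hp V H At hn' hfr.2, ?_, h1.1, h1.2⟩
    exact hv V E De H fl sd pt At c₀ (1 / 1000) hH.x.div.1 hn le_rfl hfr.1 hH.x.De_sub
      hH.x.De_int hH.H_eq hH.x.side hH.x.De_A hH.x.cross hH.x.deg3 hH.maj hH.x.rich
  · intro c hc hce
    obtain ⟨B, n₁, hB, h⟩ := hb c hc hce
    refine ⟨B, max 1000 n₁, hB, ?_⟩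
    intro V _ _ E De H fl sd pt At e₀ hn hH
    have hfr := (hf V H ((le_max_left _ _).trans hn)).2.2 fl sd pt At (1 / 1000) le_rfl hH.rob
    have he : e₀ ∉ H := by
      intro h0
      induction e₀ using Sym2.ind with
      | _ u v => exact hH.e₀_exc.2 u v rfl (hH.rob.core u v h0)
    refine PlOK.mono hB.le ((h V H fl sd pt At ((le_max_right _ _).trans hn) hfr.1).2 e₀ hH.e₀_typ
      hH.e₀_exc.1 he) le_rfl ?_
    intro T hT
    rcases hT with hT | hT
    · exact hT.1
    · exact hT.1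

theorem hbt (hf : FrameStatement) (hp : PieceXStatement) (ht : TokRStatement)
    (hb : BoostRStatement) (hv : VirtTStatement) : HBTStatement := by
  intro c₀ hc₀
  refine ⟨1 / 1000, 1 / 1000, c₀, by norm_num, by norm_num, hc₀, 10000, ?_, ?_⟩
  · intro V _ _ E H sd pt ty At hn hH
    have hn' : 1000 ≤ Fintype.card V := by omega
    have hfr := (hf V H hn').2.2 (fun _ => false) sd pt At (1 / 1000) le_rfl hH.rob
    have h1 := (ht V H (fun _ => false) sd pt At hn hfr.1).2 fun _ => rfl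
    have hHE : H ⊆ E := by
      rw [hH.H_eq]
      exact Finset.filter_subset _ _
    exact ⟨hp V H At hn' hfr.2, hv V E H sd pt ty At c₀ hH.div.1 hHE hH.feas hH.feasC, h1⟩
  · intro c hc hce
    obtain ⟨B, n₁, hB, h⟩ := hb c hc hce
    refine ⟨B, max 1000 n₁, hB, ?_⟩
    intro V _ _ E H sd pt ty At hn hH
    have hfr := (hf V H ((le_max_left _ _).trans hn)).2.2 (fun _ => false) sd pt At (1 / 1000)
      le_rfl hH.rob
    exact (h V H (fun _ => false) sd pt At ((le_max_right _ _).trans hn) hfr.1).1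

theorem val_of (ha : ValAStatement) (hb : ValBStatement) (hc : ValCStatement) :
    ValStatement := by
  intro V _ _
  exact ⟨(ha V).1, (ha V).2.1, (hb V).1, (hb V).2, (ha V).2.2.1, hc V, (ha V).2.2.2⟩

end F3.HB
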