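import Pool.Agent.F3.Targets

/-!
# Project F3, block HB (pieces, tokens, boosters, virtual triples, grid): the rows

Targets: `HBNStatement`, `HBSStatement`, `HBGStatement`, `HBRStatement`, `HBTStatement`,
`ValStatement`, `GridXStatement` of `Pool/Agent/F3/Targets.lean`.
-/

set_option autoImplicit false
set_option linter.unusedSectionVars false

namespace F3.HB

open Finset NW F1 F3

section Frames

variable {V : Type} [Fintype V] [DecidableEq V]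

/-- common neighbours: used for the pieces -/
structure FC (H : Finset (Sym2 V)) (At : Finset V) : Prop where
  nl : NW.NL H
  At_card : (At.card : ℝ) ≤ nn V / 1000
  deg : ∀ v, nn V / 12 ≤ ((nbr H v).card : ℝ)
  cod : ∀ u v, u ∉ At → nn V / 12 ≤ ((nbr H u ∩ nbr H v).card : ℝ)

/-- generic frame with absolute constants (worlds G and S) -/
structure FG (H : Finset (Sym2 V)) (sd : V → Bool) (At : Finset V) : Prop where
  nl : NW.NL H
  side : ∀ b, ((Sd sd b).card : ℝ) ≤ (501 / 1000) * nn V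
  At_card : (At.card : ℝ) ≤ nn V / 1000
  noAt : ∀ u ∈ At, ∀ v ∈ At, s(u, v) ∉ H
  miss : ∀ v, v ∉ At → (((Sd sd (!sd v)).filter (fun w => s(v, w) ∉ H)).card : ℝ) ≤ nn V / 1000
  cross : ∀ v, (37 / 100) * nn V ≤ ((nbr H v ∩ Sd sd (!sd v)).card : ℝ)
  int : ∀ v, nn V / 5 ≤ ((nbr H v ∩ Sd sd (sd v)).card : ℝ)

/-- rigid frame with absolute constants (worlds R and T) -/
structure FR (H : Finset (Sym2 V)) (fl : Bool → Bool) (sd pt : V → Bool) (At : Finset V) :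
    Prop where
  nl : NW.NL H
  part : ∀ b c, ((Pa sd pt b c).card : ℝ) ≤ (251 / 1000) * nn V
  At_card : (At.card : ℝ) ≤ nn V / 1000
  noAt : ∀ u ∈ At, ∀ v ∈ At, s(u, v) ∉ H
  miss : ∀ v, v ∉ At →
    ((univ.filter (fun w => Co fl sd pt v w ∧ s(v, w) ∉ H)).card : ℝ) ≤ nn V / 1000
  deg : ∀ v b c, CoP fl sd pt v b c → nn V / 10 ≤ ((nbr H v ∩ Pa sd pt b c).card : ℝ)

/-- `t` is an allowed triple (if it has three elements) -/
def Al (al : Tri V → Prop) (t : Finset V) : Prop := ∀ T : Tri V, T.1 = t → al T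

/-- a path of the placement: `x` the first apex, `z` and `y` the ends, `S` the second apex,
`p 0, …, p (c - 3)` the path; `H` contains the new edges -/
structure GoodP (al : Tri V → Prop) (c : ℕ) (H : Finset (Sym2 V)) (x y z S : V)
    (p : Fin (c - 2) → V) : Prop where
  inj : Function.Injective p
  Sx : S ≠ x
  py : ∀ j, p j ≠ y ∧ p j ≠ z
  Sy : s(S, y) ∈ H
  Sz : s(S, z) ∈ H
  xp : ∀ j, s(x, p j) ∈ H
  pS : ∀ j, s(S, p j) ∈ H
  first : ∀ j : Fin (c - 2), j.val = 0 → s(z, p j) ∈ H ∧ Al al {x, z, p j} ∧ Al al {S, z, p j}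
  step : ∀ i j : Fin (c - 2), j.val = i.val + 1 → s(p i, p j) ∈ H ∧ Al al {x, p i, p j} ∧
    Al al {S, p i, p j}
  last : ∀ j : Fin (c - 2), j.val + 1 = c - 2 → s(p j, y) ∈ H ∧ Al al {x, p j, y} ∧
    Al al {S, p j, y}
  root : Al al {S, y, z}

end Frames

/-! ## Frames -/

/-- row HB-F: from the worlds to the frames -/
def FrameStatement : Prop :=
  ∀ (V : Type) [Fintype V] [DecidableEq V] (H : Finset (Sym2 V)), 1000 ≤ Fintype.card V →
    (∀ θ, RobN H θ → FC H ∅) ∧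
    (∀ sd At ε θ, ε ≤ 1 / 1000 → RobG H sd At ε θ → FG H sd At ∧ FC H At) ∧
    (∀ fl sd pt At ε, ε ≤ 1 / 1000 → RobR H fl sd pt At ε → FR H fl sd pt At ∧ FC H At)

/-! ## Pieces and tokens -/

/-- row HB-P -/
def PieceXStatement : Prop :=
  ∀ (V : Type) [Fintype V] [DecidableEq V] (H : Finset (Sym2 V)) (At : Finset V),
    1000 ≤ Fintype.card V → FC H At → PieceOK H (1 / 1000)

/-- row HB-K0: hexagons -/
def HexStatement : Prop :=
  ∀ (V : Type) [Fintype V] [DecidableEq V] (v : Fin 6 → V), Function.Injective v →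
    NW.Divis (univ.image (fun i => s(v i, v (i + 1)))) ∧
    (univ.image (fun i => s(v i, v (i + 1)))).card = 6 ∧
    (∀ (M : Type) [AddCommMonoid M] (f : Sym2 V → M),
      ∑ e ∈ univ.image (fun i => s(v i, v (i + 1))), f e = ∑ i, f s(v i, v (i + 1))) ∧
    ∀ u ∈ F2.O.vE (univ.image (fun i => s(v i, v (i + 1)))), ∃ i, u = v i

/-- row HB-KG: hexagons with prescribed sides; the last edge is a cross edge -/
def HexGStatement : Prop :=
  ∀ (V : Type) [Fintype V] [DecidableEq V] (H : Finset (Sym2 V)) (sd : V → Bool) (At : Finset V),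
    10000 ≤ Fintype.card V → FG H sd At →
    ∀ (Z : Finset (Sym2 V)) (F : Finset V), Sm (1 / 1000) Z → SmF (1 / 1000) F →
    ∀ b : Fin 6 → Bool, b 5 ≠ b 0 →
      ∃ v : Fin 6 → V, Function.Injective v ∧ (∀ i, v i ∉ F ∧ sd (v i) = b i) ∧
        ∀ i, s(v i, v (i + 1)) ∈ H \ Z

/-- row HB-KR: hexagons with prescribed parts -/
def HexRStatement : Prop :=
  ∀ (V : Type) [Fintype V] [DecidableEq V] (H : Finset (Sym2 V)) (fl : Bool → Bool)
    (sd pt : V → Bool) (At : Finset V), 10000 ≤ Fintype.card V → FR H fl sd pt At →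
    ∀ (Z : Finset (Sym2 V)) (F : Finset V), Sm (1 / 1000) Z → SmF (1 / 1000) F →
    ∀ b q : Fin 6 → Bool,
      (∀ i, b i ≠ b (i + 1) ∨ (if fl (b i) = true then q i = q (i + 1) else q i ≠ q (i + 1))) →
      ∃ v : Fin 6 → V, Function.Injective v ∧ (∀ i, v i ∉ F ∧ sd (v i) = b i ∧ pt (v i) = q i) ∧
        ∀ i, s(v i, v (i + 1)) ∈ H \ Z

/-- row HB-TG: tokens of the generic world, from `HexStatement`, `HexGStatement` -/
def TokGStatement : Prop :=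
  ∀ (V : Type) [Fintype V] [DecidableEq V] (H : Finset (Sym2 V)) (sd : V → Bool) (At : Finset V),
    10000 ≤ Fintype.card V → FG H sd At → ∀ (j : Fin 1) (σ : ℤ), (σ = 1 ∨ σ = -1) →
      TokenOK H (g1 sd) (fun _ => 0) (1 / 1000) (fun i => if i = j then 6 * σ else 0) 0

/-- row HB-TR: tokens of the rigid worlds R and T, from `HexStatement`, `HexRStatement` -/
def TokRStatement : Prop :=
  ∀ (V : Type) [Fintype V] [DecidableEq V] (H : Finset (Sym2 V)) (fl : Bool → Bool)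
    (sd pt : V → Bool) (At : Finset V), 10000 ≤ Fintype.card V → FR H fl sd pt At →
    (fl false = true → (∀ (j : Fin 1) (σ : ℤ), (σ = 1 ∨ σ = -1) →
        TokenOK H (g1 sd) (tau fl sd pt) (1 / 1000) (fun i => if i = j then 6 * σ else 0) 0) ∧
      TokenOK H (g1 sd) (tau fl sd pt) (1 / 1000) (fun _ => 0) 2) ∧
    ((∀ b, fl b = false) → ∀ (j : Fin 2) (σ : ℤ), (σ = 1 ∨ σ = -1) →
      TokenOK H (g2 sd pt) (fun _ => 0) (1 / 1000) (fun i => if i = j then 6 * σ else 0) 0)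

/-! ## Boosters -/

/-- row HB-T: a good path is a placement -/
def TemStatement : Prop :=
  ∀ (c : ℕ), 6 ≤ c → Even c →
    ∀ (V : Type) [Fintype V] [DecidableEq V] (H : Finset (Sym2 V)) (al : Tri V → Prop) (r : Tri V)
      (x y z : V) (Q : Finset (V × (Fin (c - 2) → V))), NW.NL H → r.1 = {x, y, z} →
      (∀ q ∈ Q, GoodP al c H x y z q.1 q.2) → Q.card ≤ (PlA c al H r).card

/-- row HB-A: greedy choice of the path, from `TemStatement`.  `𝒮` are candidates for the second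
apex, `K S j` the candidates for the vertex `p j` -/
def StepStatement : Prop :=
  ∀ (c : ℕ), 6 ≤ c → Even c →
    ∀ (V : Type) [Fintype V] [DecidableEq V] (H : Finset (Sym2 V)) (al : Tri V → Prop) (r : Tri V)
      (x y z : V) (d : ℕ) (𝒮 : Finset V) (K : V → ℕ → Finset V), NW.NL H → r.1 = {x, y, z} →
      d + c + 2 ≤ 𝒮.card →
      (∀ S ∈ 𝒮, s(S, y) ∈ H ∧ s(S, z) ∈ H ∧ Al al {S, y, z}) →
      (∀ S ∈ 𝒮, ∀ j, ∀ p ∈ K S j, s(x, p) ∈ H ∧ s(S, p) ∈ H) →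
      (∀ S ∈ 𝒮, d + c + 2 ≤ ((K S 0).filter (fun p => s(z, p) ∈ H)).card) →
      (∀ S ∈ 𝒮, ∀ j, j + 4 < c → ∀ q ∈ K S j,
        d + c + 2 ≤ ((K S (j + 1)).filter (fun p => s(q, p) ∈ H)).card) →
      (∀ S ∈ 𝒮, ∀ j, j + 4 = c → ∀ q ∈ K S j,
        d + c + 2 ≤ ((K S (j + 1)).filter (fun p => s(q, p) ∈ H ∧ s(p, y) ∈ H)).card) →
      (∀ S ∈ 𝒮, ∀ a, (a = x ∨ a = S) → (∀ p ∈ K S 0, Al al {a, z, p}) ∧
        (∀ j, ∀ p ∈ K S j, ∀ q ∈ K S (j + 1), Al al {a, p, q}) ∧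
        ∀ j, j + 3 = c → ∀ p ∈ K S j, Al al {a, p, y}) →
      d ^ (c - 1) ≤ (PlA c al H r).card

/-- row HB-BN: boosters in world N, from `TemStatement` -/
def BoostNStatement : Prop :=
  ∀ θ : ℝ, 0 < θ → ∃ η : ℝ, 0 < η ∧ ∀ c : ℕ, 6 ≤ c → Even c → ∃ (B : ℝ) (n₁ : ℕ), 0 < B ∧
    ∀ (V : Type) [Fintype V] [DecidableEq V] (H : Finset (Sym2 V)), n₁ ≤ Fintype.card V →
      RobN H θ → PlOK (fun _ => True) (fun _ => True) H ∅ η c B

/-- row HB-BG: boosters for crossing roots, from `StepStatement` -/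
def BoostGStatement : Prop :=
  ∀ c : ℕ, 6 ≤ c → Even c → ∃ (B : ℝ) (n₁ : ℕ), 0 < B ∧
    ∀ (V : Type) [Fintype V] [DecidableEq V] (H : Finset (Sym2 V)) (sd : V → Bool)
      (At : Finset V), n₁ ≤ Fintype.card V → FG H sd At →
      PlOK (alG sd) (alG sd) H ∅ (1 / 1000) c B

/-- row HB-BS: boosters for internal roots, from `StepStatement` -/
def BoostSStatement : Prop :=
  ∀ c : ℕ, 6 ≤ c → Even c → ∃ (B : ℝ) (n₁ : ℕ), 0 < B ∧
    ∀ (V : Type) [Fintype V] [DecidableEq V] (H : Finset (Sym2 V)) (sd : V → Bool)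
      (At : Finset V), n₁ ≤ Fintype.card V → FG H sd At →
      ∀ Z : Finset (Sym2 V), Sm (1 / 1000) Z → ∀ r : Tri V, ¬ Cro sd r → NW.edg r.1 ⊆ H →
        nn V ^ (c - 1) ≤ B * ((PlA c (fun _ => True) (H \ Z) r).card : ℝ)

/-- row HB-BR: boosters in the rigid worlds, from `StepStatement` -/
def BoostRStatement : Prop :=
  ∀ c : ℕ, 6 ≤ c → Even c → ∃ (B : ℝ) (n₁ : ℕ), 0 < B ∧
    ∀ (V : Type) [Fintype V] [DecidableEq V] (H : Finset (Sym2 V)) (fl : Bool → Bool)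
      (sd pt : V → Bool) (At : Finset V), n₁ ≤ Fintype.card V → FR H fl sd pt At →
      PlOK (alR fl sd pt) (alR fl sd pt) H ∅ (1 / 1000) c B ∧
      ∀ e₀ : Sym2 V, (∃ v ∈ e₀, v ∉ At) → Int sd e₀ → e₀ ∉ H →
        PlOK (alR0 fl sd pt e₀) (alR0 fl sd pt e₀) H {e₀} (1 / 1000) c B

/-! ## Virtual triples -/

/-- row HB-VG: virtual triples in the worlds N, S, G -/
def VirtGStatement : Prop :=
  ∀ (V : Type) [Fintype V] [DecidableEq V] (E H : Finset (Sym2 V)), NW.NL E → H ⊆ E →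
    1000 ≤ Fintype.card V →
    (∀ θ, RobN H θ → VirtOK (fun _ => True) H H (1 / 8)) ∧
    (∀ (De : Finset (Sym2 V)) (sd : V → Bool) (At : Finset V) (c₀ : ℝ), FG H sd At →
      H ⊆ E \ De → (∀ e ∈ De, Int sd e) →
      (∀ p q, s(p, q) ∈ De → c₀ * nn V ≤
        (((Sd sd (sd p) \ At).filter (fun r => s(p, r) ∈ H ∧ s(q, r) ∈ H)).card : ℝ)) →
      VirtOK (alX De sd) E H (min c₀ (1 / 50)))

/-- row HB-VR: virtual triples in world R -/
def VirtRStatement : Prop :=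
  ∀ (V : Type) [Fintype V] [DecidableEq V] (E De H : Finset (Sym2 V)) (fl : Bool → Bool)
    (sd pt : V → Bool) (At : Finset V) (c₀ ε : ℝ), NW.NL E → 10000 ≤ Fintype.card V →
    ε ≤ 1 / 1000 → FR H fl sd pt At → De ⊆ E → (∀ e ∈ De, Int sd e) →
    H = (E \ De).filter (fun e => (∃ v ∈ e, v ∉ At) ∧ ∀ u ∈ e, ∀ v ∈ e, u ≠ v → Co fl sd pt u v) →
    (∀ b, |((Sd sd b).card : ℝ) - nn V / 2| ≤ ε * nn V) →
    (∀ v, (NW.deg De v : ℝ) ≤ nn V / 50) →
    (∀ v, (3 / 8 - ε) * nn V ≤ (dc sd E v : ℝ)) →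
    (∀ v, 3 * Fintype.card V ≤ 4 * NW.deg E v) →
    (∀ v c, CoP fl sd pt v (sd v) c →
      (nbr E v ∩ Pa sd pt (sd v) (!c)).card ≤ (nbr E v ∩ Pa sd pt (sd v) c).card) →
    (∀ p q, s(p, q) ∈ De → c₀ * nn V ≤
      (((Sd sd (sd p) \ At).filter (fun r => s(p, r) ∈ H ∧ s(q, r) ∈ H)).card : ℝ)) →
    VirtOK (alX De sd) E H (min c₀ (1 / 50))

/-- row HB-VT: virtual triples in world T -/
def VirtTStatement : Prop :=
  ∀ (V : Type) [Fintype V] [DecidableEq V] (E H : Finset (Sym2 V)) (sd pt : V → Bool)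
    (ty : Sym2 V → Fin 3) (At : Finset V) (c₀ : ℝ), NW.NL E → H ⊆ E →
    (∀ u v, s(u, v) ∈ E → (sd u = sd v ∧ pt u = pt v) → c₀ * nn V ≤
      (((univ \ At).filter (fun w => CT sd pt (ty s(u, v)) u w ∧ s(u, w) ∈ H ∧
        s(v, w) ∈ H)).card : ℝ)) →
    (∀ u v, s(u, v) ∈ E → ¬ (sd u = sd v ∧ pt u = pt v) → c₀ * nn V ≤
      (((univ \ At).filter (fun w => ¬ (sd u = sd w ∧ pt u = pt w) ∧
        ¬ (sd v = sd w ∧ pt v = pt w) ∧ s(u, w) ∈ H ∧ s(v, w) ∈ H)).card : ℝ)) →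
    VirtOK (alT sd pt ty) E H c₀

/-! ## Values of the invariants -/

/-- row HB-V1 -/
def ValAStatement : Prop :=
  ∀ (V : Type) [Fintype V] [DecidableEq V],
    (∀ (χ : V → Bool) (D : Finset (Sym2 V)), NW.Divis D → 6 ∣ ∑ e ∈ D, gam χ e) ∧
    (∀ (χ : V → Bool) (T : Tri V), Cro χ T → ∑ e ∈ NW.edg T.1, gam χ e = 0) ∧
    (∀ (sd pt : V → Bool) (T : Tri V), alR (fun _ => false) sd pt T →
      ∑ e ∈ NW.edg T.1, gam sd e = 0 ∧ ∑ e ∈ NW.edg T.1, gam pt e = 0) ∧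
    (∀ (De : Finset (Sym2 V)) (sd : V → Bool) (T : Tri V), (∀ e ∈ De, Int sd e) → alX De sd T →
      ∑ e ∈ NW.edg T.1, gamX De sd e = 0)

/-- row HB-V2 -/
def ValBStatement : Prop :=
  ∀ (V : Type) [Fintype V] [DecidableEq V],
    (∀ (fl : Bool → Bool) (sd pt : V → Bool) (D : Finset (Sym2 V)), fl false = true → NW.NL D →
      (∀ u v, s(u, v) ∈ D → Co fl sd pt u v) → (∀ v, Even (NW.deg D v)) →
      ∑ e ∈ D, tau fl sd pt e = 0 ∨ ∑ e ∈ D, tau fl sd pt e = 2) ∧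
    (∀ (fl : Bool → Bool) (sd pt : V → Bool) (T : Tri V), fl false = true → alR fl sd pt T →
      ∑ e ∈ NW.edg T.1, tau fl sd pt e = 0)

/-- row HB-V3 -/
def ValCStatement : Prop :=
  ∀ (V : Type) [Fintype V] [DecidableEq V] (sd pt : V → Bool) (ty : Sym2 V → Fin 3) (T : Tri V),
    alT sd pt ty T → ∀ t, ∑ e ∈ NW.edg T.1, gamT sd pt ty t e = 0

/-- row HB-AJ: the invariants can be adjusted -/
def AdjStatement : Prop :=
  ∀ (V : Type) [Fintype V] [DecidableEq V],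
    (∀ (E De H E0 X : Finset (Sym2 V)) (sd : V → Bool), NW.NL E → X ⊆ H → H ⊆ E \ De →
      (∃ u v, s(u, v) ∈ E ∧ sd u ≠ sd v) →
      (∀ e ∈ E, 12 ≤ (vtr (alX De sd) X e).card) → AdjOK H E0 X (g1 sd)) ∧
    (∀ (E H X : Finset (Sym2 V)) (sd pt : V → Bool) (ty : Sym2 V → Fin 3), NW.NL E → X ⊆ H →
      H ⊆ E → (∀ e ∈ H, ¬ Exc sd pt e) → (∀ t, ∃ u v, s(u, v) ∈ E ∧ CT sd pt t u v) →
      (∀ e ∈ E, 12 ≤ (vtr (alT sd pt ty) X e).card) → AdjOK H ∅ X (g2 sd pt)) ∧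
    ∀ (H E0 X : Finset (Sym2 V)), AdjOK H E0 X (g0 : Fin 0 → Sym2 V → ℤ)

/-! ## The grid -/

/-- row HB-G1: a random grid meets many given sets in the right proportion -/
def GridFamStatement : Prop :=
  ∀ c θ : ℝ, 0 < c → 0 < θ → θ ≤ 1 / 10 → ∃ n₀ : ℕ,
    ∀ (V ι : Type) [Fintype V] [DecidableEq V] [Fintype ι] (N : ι → Finset V),
      n₀ ≤ Fintype.card V → Fintype.card ι ≤ Fintype.card V ^ 2 →
      (∀ i, c * nn V ≤ ((N i).card : ℝ)) →
      ∀ s : ℕ, 1 ≤ s → (s : ℝ) ≤ (Fintype.card V : ℝ) ^ θ →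
        ∃ ro co : V → ℕ, GridS V s ro co ∧ ∀ i, ∀ x < s, ∀ y < s,
          c * nn V ≤ 2 * (s : ℝ) ^ 2 * ((N i ∩ F2.Pt ro co x y).card : ℝ)

end F3.HB
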