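import Pool.Agent.F3.HB.Spec

/-!
# Project F3, block HB, row VT: virtual triples in world T
-/

set_option autoImplicit false
set_option linter.unusedSectionVars false

namespace F3.HB

open Finset NW F1 F3

section

variable {V : Type} [Fintype V] [DecidableEq V]

/-- many common neighbours give many virtual triples -/
theorem vt_count (al : Tri V → Prop) (H : Finset (Sym2 V)) (u v : V) (N : Finset V) (huv : u ≠ v)
    (h : ∀ w ∈ N, w ≠ u ∧ w ≠ v ∧ s(u, w) ∈ H ∧ s(v, w) ∈ H)
    (ha : ∀ w ∈ N, ∀ T : Tri V, T.1 = {u, v, w} → al T) :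
    N.card ≤ (vtr al H s(u, v)).card := by
  classical
  have h1 : N.card = (N.image (fun w => ({u, v, w} : Finset V))).card := by
    symm
    apply card_image_of_injOn
    intro w hw w' hw' hww
    have h2 : w ∈ ({u, v, w'} : Finset V) := by
      have : w ∈ ({u, v, w} : Finset V) := by simp
      simp only at hww
      rwa [hww] at this
    simp only [mem_insert, mem_singleton] at h2
    rcases h2 with h2 | h2 | h2
    · exact absurd h2 (h w hw).1
    · exact absurd h2 (h w hw).2.1
    · exact h2
  rw [h1]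
  refine le_trans (card_le_card ?_) (card_image_le (s := vtr al H s(u, v)) (f := fun T => T.1))
  intro t ht
  obtain ⟨w, hw, rfl⟩ := mem_image.1 ht
  obtain ⟨hwu, hwv, huw, hvw⟩ := h w hw
  have hcard : ({u, v, w} : Finset V).card = 3 := card_eq_three.2 ⟨u, v, w, huv, hwu.symm, hwv.symm, rfl⟩
  refine mem_image.2 ⟨⟨{u, v, w}, hcard⟩, ?_, rfl⟩
  unfold vtr
  rw [mem_filter]
  refine ⟨mem_univ _, ha w hw _ rfl, ?_, ?_⟩
  · rw [mk_mem_edg]
    exact ⟨by simp, by simp, huv⟩
  · intro f hf
    rw [mem_sdiff, mem_singleton] at hf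
    obtain ⟨hf1, hf2⟩ := hf
    induction f using Sym2.inductionOn with
    | _ a b =>
    rw [mk_mem_edg] at hf1
    obtain ⟨ha1, hb1, hab⟩ := hf1
    simp only [mem_insert, mem_singleton] at ha1 hb1
    rcases ha1 with rfl | rfl | rfl <;> rcases hb1 with rfl | rfl | rfl
    · exact absurd rfl hab
    · exact absurd rfl hf2
    · exact huw
    · exact absurd Sym2.eq_swap hf2
    · exact absurd rfl hab
    · exact hvw
    · rw [Sym2.eq_swap]; exact huw
    · rw [Sym2.eq_swap]; exact hvw
    · exact absurd rfl hab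

end

theorem virtT : VirtTStatement := by
  intro V _ _ E H sd pt ty At c₀ hNL hHE hfeas hfeasC e he
  have hne : ∀ x y : V, s(x, y) ∈ E → x ≠ y := by
    intro x y hxy h
    exact hNL _ hxy (by rw [h]; exact Sym2.mk_isDiag_iff.2 rfl)
  induction e using Sym2.inductionOn with
  | _ u v =>
  have huv := hne u v he
  by_cases hs : sd u = sd v ∧ pt u = pt v
  · -- exceptional
    refine (hfeas u v he hs).trans ?_
    refine Nat.cast_le.2 (vt_count (alT sd pt ty) H u v _ huv ?_ ?_)
    · intro w hw
      rw [mem_filter] at hw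
      exact ⟨(hne u w (hHE hw.2.2.1)).symm, (hne v w (hHE hw.2.2.2)).symm, hw.2.2.1, hw.2.2.2⟩
    · intro w hw T hT
      rw [mem_filter] at hw
      exact Or.inr ⟨u, v, w, hT, huv, hs, hw.2.1⟩
  · -- different parts
    refine (hfeasC u v he hs).trans ?_
    refine Nat.cast_le.2 (vt_count (alT sd pt ty) H u v _ huv ?_ ?_)
    · intro w hw
      rw [mem_filter] at hw
      exact ⟨(hne u w (hHE hw.2.2.2.1)).symm, (hne v w (hHE hw.2.2.2.2)).symm, hw.2.2.2.1,
        hw.2.2.2.2⟩
    · intro w hw T hT
      rw [mem_filter] at hw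
      have hu := hw.2.1
      have hv := hw.2.2.1
      refine Or.inl fun a ha b hb hab h => ?_
      rw [hT] at ha hb
      simp only [mem_insert, mem_singleton] at ha hb
      rcases ha with rfl | rfl | rfl <;> rcases hb with rfl | rfl | rfl
      · exact hab rfl
      · exact hs h
      · exact hu h
      · exact hs ⟨h.1.symm, h.2.symm⟩
      · exact hab rfl
      · exact hv h
      · exact hu ⟨h.1.symm, h.2.symm⟩
      · exact hv ⟨h.1.symm, h.2.symm⟩
      · exact hab rfl

end F3.HB
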